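import Pool.Agent.TLT.Targets

set_option autoImplicit false

/-!
# BR: a product of messages
-/

namespace Pool.Agent.TLT

open Finset Polynomial
open scoped BigOperators

noncomputable section

namespace BR_

variable {W : Type} [Fintype W]

lemma av_mono {f g : W → ℝ} (h : ∀ y, f y ≤ g y) : av f ≤ av g :=
  div_le_div_of_nonneg_right (sum_le_sum fun y _ => h y) (Nat.cast_nonneg _)

lemma av_nonneg {f : W → ℝ} (h : ∀ y, 0 ≤ f y) : 0 ≤ av f :=
  div_nonneg (sum_nonneg fun y _ => h y) (Nat.cast_nonneg _)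

lemma av_add (f g : W → ℝ) : (av fun y => f y + g y) = av f + av g := by
  simp only [av, sum_add_distrib, add_div]

lemma av_smul (c : ℝ) (f : W → ℝ) : (av fun y => c * f y) = c * av f := by
  simp only [av, ← mul_sum, mul_div_assoc]

lemma av_const [Nonempty W] (c : ℝ) : (av fun _ : W => c) = c := by
  have : (Fintype.card W : ℝ) ≠ 0 := by exact_mod_cast Fintype.card_ne_zero
  simp only [av, sum_const, card_univ, nsmul_eq_mul]
  field_simp

lemma sg_sq (b : Bool) : sg b * sg b = 1 := by cases b <;> simp [sg]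

lemma sg_abs (b : Bool) : |sg b| = 1 := by cases b <;> simp [sg]

/-- the message bound -/
lemma kd_bound (h1 : T_BAS) [Nonempty W] {K : W → W → ℝ} (hK : Krn K) (b : Bool) (g w : W → ℝ)
    (M : ℝ) (hM : 0 < M) (u : W → ℝ) (hu : ∀ y, u y ≤ M * (1 + g y + w y)) (y : W) :
    Kd K b u y ≤ M * ((1 + av g + 2 * av fun y => |w y|) + sg b * (dl K y + Sop K g y)) := by
  obtain ⟨-, -, -, hkt, hkf, hmono, hk2, -, -⟩ := h1 W K hK
  have e1 : Kd K b (fun y => M * (1 + g y + w y)) y =
      M * (Kd K b (fun _ => 1) y + Kd K b g y + Kd K b w y) := by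
    simp only [Kd]
    have : (fun z => (if b = true then K y z else K z y) * (M * (1 + g z + w z))) = fun z =>
        M * (((if b = true then K y z else K z y) * 1 + (if b = true then K y z else K z y) * g z) +
          (if b = true then K y z else K z y) * w z) := by
      funext z; ring
    rw [this, av_smul, av_add, av_add]
  have e2 : Kd K b (fun _ => 1) y + Kd K b g y = 1 + av g + sg b * (dl K y + Sop K g y) := by
    cases b
    · rw [hkf, hkf, av_const]
      simp only [sg, dl]
      simp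
      ring
    · rw [hkt, hkt, av_const]
      simp only [sg, dl]
      simp
      ring
  have e3 := hk2 b w y
  have e4 := hmono b u (fun y => M * (1 + g y + w y)) hu y
  rw [e1] at e4
  refine e4.trans (mul_le_mul_of_nonneg_left ?_ hM.le)
  linarith

/-- positivity of messages -/
lemma kd_nonneg (h1 : T_BAS) [Nonempty W] {K : W → W → ℝ} (hK : Krn K) (b : Bool) (u : W → ℝ)
    (hu : ∀ y, 0 ≤ u y) (y : W) : 0 ≤ Kd K b u y := by
  obtain ⟨-, -, -, -, -, hmono, -, -, -⟩ := h1 W K hK
  have := hmono b (fun _ => 0) u hu y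
  refine le_trans (le_of_eq ?_) this
  simp [Kd, av]

lemma exp_le_quad {R : ℝ} (h : |R| ≤ 1) : Real.exp R ≤ 1 + R + R ^ 2 := by
  have := Real.abs_exp_sub_one_sub_id_le h
  have := (abs_le.1 this).2
  linarith

/-- the product of the factors with balanced signs -/
lemma prod_le_exp {V : Type} (t : Finset V) (x : V → ℝ) (hx : ∀ i ∈ t, 0 ≤ 1 + x i) :
    ∏ i ∈ t, (1 + x i) ≤ Real.exp (∑ i ∈ t, x i) := by
  rw [Real.exp_sum]
  exact prod_le_prod hx fun i _ => by linarith [Real.add_one_le_exp (x i)]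

end BR_

open BR_ in
open Classical in
theorem p_BR (h1 : T_BAS) : T_BR := by
  intro W _ _ K hK V s u g w M ε i₀ ρ hM hu hug hρ hR
  obtain ⟨-, -, -, -, -, -, -, hCS, -⟩ := h1 W K hK
  -- abbreviations
  set T : V → ℝ := fun i => 1 + av (g i) + 2 * av fun y => |w i y| with hT
  set l : V → W → ℝ := fun i y => dl K y + Sop K (g i) y with hl
  set t : V → ℝ := fun i => th (g i) (w i) with ht
  set q : V → W → ℝ := fun i y => l i y / T i with hq
  have ht0 : ∀ i, 0 ≤ t i := fun i => by
    simp only [ht, th]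
    have : 0 ≤ av fun y => |w i y| := av_nonneg fun y => abs_nonneg _
    positivity
  have hth : ∀ i, |T i - 1| ≤ t i := by
    intro i
    have h2 : 0 ≤ av fun y => |w i y| := av_nonneg fun y => abs_nonneg _
    simp only [hT, ht, th]
    have e : 1 + av (g i) + 2 * (av fun y => |w i y|) - 1 = av (g i) + 2 * (av fun y => |w i y|) := by
      ring
    rw [e]
    refine (abs_add_le _ _).trans ?_
    rw [abs_of_nonneg (mul_nonneg zero_le_two h2)]
  have hkb : ∀ i ∈ s, ∀ b y, Kd K b (u i) y ≤ M i * (T i + sg b * l i y) := fun i hi b y =>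
    kd_bound h1 hK b (g i) (w i) (M i) (hM i hi) (u i) (hug i hi) y
  have hk0 : ∀ i ∈ s, ∀ b y, 0 ≤ Kd K b (u i) y := fun i hi b y =>
    kd_nonneg h1 hK b (u i) (hu i hi) y
  have hlT : ∀ i ∈ s, ∀ y, |l i y| ≤ T i := by
    intro i hi y
    have e1 := (hk0 i hi true y).trans (hkb i hi true y)
    have e2 := (hk0 i hi false y).trans (hkb i hi false y)
    have e3 := nonneg_of_mul_nonneg_right e1 (hM i hi)
    have e4 := nonneg_of_mul_nonneg_right e2 (hM i hi)
    simp only [sg] at e3 e4
    simp at e3 e4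
    rw [abs_le]
    constructor <;> linarith
  have hT0 : ∀ i ∈ s, 0 ≤ T i := fun i hi => (abs_nonneg _).trans (hlT i hi (Classical.arbitrary W))
  have hq1 : ∀ i ∈ s, ∀ y, |q i y| ≤ 1 := by
    intro i hi y
    simp only [hq, abs_div, abs_of_nonneg (hT0 i hi)]
    exact div_le_one_of_le₀ (hlT i hi y) (hT0 i hi)
  have hTq : ∀ i ∈ s, ∀ y, T i * q i y = l i y := by
    intro i hi y
    rcases eq_or_ne (T i) 0 with h0 | h0
    · have := hlT i hi y
      rw [h0] at this ⊢
      have : l i y = 0 := abs_nonpos_iff.1 this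
      rw [this, zero_mul]
    · simp only [hq]
      field_simp
  have hTexp : ∀ i, T i ≤ Real.exp (t i) := by
    intro i
    have e1 := Real.add_one_le_exp (T i - 1)
    have e2 : Real.exp (T i - 1) ≤ Real.exp (t i) :=
      Real.exp_le_exp.2 ((le_abs_self _).trans (hth i))
    linarith
  -- the balanced part and the rest
  set sA := s.filter (fun i => some i ≠ i₀) with hsA
  set sB := s.filter (fun i => some i = i₀) with hsB
  have hsplit : ∀ (x : V → ℝ), ∏ i ∈ s, x i = (∏ i ∈ sB, x i) * ∏ i ∈ sA, x i := fun x =>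
    (prod_filter_mul_prod_filter_not s (fun i => some i = i₀) x).symm
  have hsplit' : ∀ (x : V → ℝ), ∑ i ∈ s, x i = (∑ i ∈ sB, x i) + ∑ i ∈ sA, x i := fun x =>
    (sum_filter_add_sum_filter_not s (fun i => some i = i₀) x).symm
  set R : W → ℝ := fun y => ∑ i ∈ sA, sg (ε i) * l i y with hRdef
  have hRρ : ∀ y, |R y| ≤ ρ := hR
  -- the exceptional index
  obtain ⟨sj, lj, tj, hsj1, hsj2, hsj3, htj, hsj4⟩ : ∃ (sj lj : W → ℝ) (tj : ℝ),
      (∀ y, ∏ i ∈ sB, (1 + sg (ε i) * q i y) = 1 + sj y) ∧ (∀ y, |sj y| ≤ 1) ∧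
      (∀ y, sj y ≤ lj y + tj ∧ ∑ i ∈ sB, sg (ε i) * l i y = lj y) ∧ 0 ≤ tj ∧
      (tj ≤ ∑ i ∈ sB, t i ∧ (av fun y => |sj y|) ^ 2 ≤ 2 * tj + 4 * av (fun y => lj y ^ 2) ∧
        2 * tj + 2 * av (fun y => lj y ^ 2) ≤ ∑ i ∈ sB, (2 * t i + 2 * av fun y => l i y ^ 2)) := by
    have hcard : sB = ∅ ∨ ∃ j ∈ s, sB = {j} := by
      rcases hi : i₀ with _ | j
      · left
        rw [hsB, hi]
        simp
      · by_cases hj : j ∈ s
        · right
          refine ⟨j, hj, ?_⟩
          rw [hsB, hi]
          ext x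
          simp only [mem_filter, Option.some.injEq, mem_singleton]
          constructor
          · exact fun h => h.2
          · rintro rfl
            exact ⟨hj, rfl⟩
        · left
          rw [hsB, hi]
          ext x
          simp only [mem_filter, Option.some.injEq, notMem_empty, iff_false]
          rintro ⟨h1, rfl⟩
          exact hj h1
    rcases hcard with h0 | ⟨j, hj, h0⟩
    · refine ⟨fun _ => 0, fun _ => 0, 0, ?_, ?_, ?_, le_refl _, ?_⟩
      · intro y; rw [h0]; simp
      · intro y; simp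
      · intro y; rw [h0]; simp
      · rw [h0]; simp [av]
    · refine ⟨fun y => sg (ε j) * q j y, fun y => sg (ε j) * l j y, t j, ?_, ?_, ?_, ht0 j, ?_⟩
      · intro y; rw [h0, prod_singleton]
      · intro y
        rw [abs_mul, sg_abs, one_mul]
        exact hq1 j hj y
      · intro y
        constructor
        · have e1 : sg (ε j) * q j y = sg (ε j) * l j y - sg (ε j) * ((T j - 1) * q j y) := by
            rw [← hTq j hj y]; ring
          have e2 : |sg (ε j) * ((T j - 1) * q j y)| ≤ t j := by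
            rw [abs_mul, sg_abs, one_mul, abs_mul]
            calc |T j - 1| * |q j y| ≤ t j * 1 :=
                  mul_le_mul (hth j) (hq1 j hj y) (abs_nonneg _) (ht0 j)
              _ = t j := mul_one _
          have e3 := (abs_le.1 e2).1
          show sg (ε j) * q j y ≤ sg (ε j) * l j y + t j
          rw [e1]
          linarith
        · rw [h0, sum_singleton]
      · have el : ∀ y, (sg (ε j) * l j y) ^ 2 = l j y ^ 2 := by
          intro y
          rw [mul_pow, sq (sg (ε j)), sg_sq, one_mul]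
        have eq' : ∀ y, |sg (ε j) * q j y| = |q j y| := by
          intro y
          rw [abs_mul, sg_abs, one_mul]
        simp only [el, eq']
        rw [h0, sum_singleton, sum_singleton]
        refine ⟨le_refl _, ?_, le_refl _⟩
        have hl2 : 0 ≤ av fun y => l j y ^ 2 := av_nonneg fun y => sq_nonneg _
        by_cases hT2 : 1 / 2 ≤ T j
        · have e1 : (av fun y => |q j y|) ≤ av fun y => |2 * l j y| := by
            refine av_mono fun y => ?_
            have hTpos : 0 < T j := by linarith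
            rw [← hTq j hj y, abs_mul, abs_mul, abs_of_pos hTpos, abs_two]
            nlinarith [abs_nonneg (q j y)]
          have e2 := hCS fun y => 2 * l j y
          have e3 : (av fun y => |q j y|) ^ 2 ≤ (av fun y => |2 * l j y|) ^ 2 :=
            pow_le_pow_left₀ (av_nonneg fun y => abs_nonneg _) e1 2
          have e4 : (av fun y => (2 * l j y) ^ 2) = 4 * av fun y => l j y ^ 2 := by
            rw [← av_smul]
            congr 1
            funext y
            ring
          rw [e4] at e2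
          have := ht0 j
          linarith
        · have e1 : (av fun y => |q j y|) ≤ 1 := by
            rw [← av_const (W := W) 1]
            exact av_mono fun y => hq1 j hj y
          have e0 : 0 ≤ av fun y => |q j y| := av_nonneg fun y => abs_nonneg _
          have e2 : (av fun y => |q j y|) ^ 2 ≤ 1 := pow_le_one₀ e0 e1
          have e3 := (abs_le.1 (hth j)).1
          linarith
  -- the main bound on the product
  have hmain : ∀ y, ∏ i ∈ s, Kd K (ε i) (u i) y ≤
      ((∏ i ∈ s, M i) * Real.exp (2 * ∑ i ∈ s, t i)) * (Real.exp (R y) * (1 + sj y)) := by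
    intro y
    have hf0 : ∀ i ∈ s, 0 ≤ 1 + sg (ε i) * q i y := by
      intro i hi
      have : |sg (ε i) * q i y| ≤ 1 := by
        rw [abs_mul, sg_abs, one_mul]
        exact hq1 i hi y
      linarith [(abs_le.1 this).1]
    have b1 : ∏ i ∈ s, Kd K (ε i) (u i) y ≤
        ∏ i ∈ s, (M i * (T i * (1 + sg (ε i) * q i y))) := by
      refine prod_le_prod (fun i hi => hk0 i hi _ y) fun i hi => ?_
      have := hkb i hi (ε i) y
      rw [← hTq i hi y] at this
      refine this.trans (le_of_eq ?_)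
      ring
    rw [prod_mul_distrib, prod_mul_distrib, hsplit (fun i => 1 + sg (ε i) * q i y), hsj1 y] at b1
    have hMp : 0 < ∏ i ∈ s, M i := prod_pos hM
    have b2 : ∏ i ∈ s, T i ≤ Real.exp (∑ i ∈ s, t i) := by
      rw [Real.exp_sum]
      exact prod_le_prod hT0 fun i _ => hTexp i
    have hT00 : 0 ≤ ∏ i ∈ s, T i := prod_nonneg hT0
    have b3 : ∏ i ∈ sA, (1 + sg (ε i) * q i y) ≤ Real.exp (R y + ∑ i ∈ s, t i) := by
      refine (prod_le_exp sA _ fun i hi => hf0 i (mem_filter.1 hi).1).trans ?_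
      refine Real.exp_le_exp.2 ?_
      have c1 : ∑ i ∈ sA, sg (ε i) * q i y ≤ ∑ i ∈ sA, (sg (ε i) * l i y + t i) := by
        refine sum_le_sum fun i hi => ?_
        have hi' := (mem_filter.1 hi).1
        have e1 : sg (ε i) * q i y = sg (ε i) * l i y - sg (ε i) * ((T i - 1) * q i y) := by
          rw [← hTq i hi' y]; ring
        have e2 : |sg (ε i) * ((T i - 1) * q i y)| ≤ t i := by
          rw [abs_mul, sg_abs, one_mul, abs_mul]
          calc |T i - 1| * |q i y| ≤ t i * 1 :=
                mul_le_mul (hth i) (hq1 i hi' y) (abs_nonneg _) (ht0 i)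
            _ = t i := mul_one _
        have e3 := (abs_le.1 e2).1
        rw [e1]
        linarith
      rw [sum_add_distrib] at c1
      have c2 : ∑ i ∈ sA, t i ≤ ∑ i ∈ s, t i :=
        sum_le_sum_of_subset_of_nonneg (filter_subset _ _) fun i _ _ => ht0 i
      have c3 : ∑ i ∈ sA, sg (ε i) * l i y = R y := rfl
      linarith
    have hA0 : 0 ≤ ∏ i ∈ sA, (1 + sg (ε i) * q i y) :=
      prod_nonneg fun i hi => hf0 i (mem_filter.1 hi).1
    have hs0 : 0 ≤ 1 + sj y := by linarith [(abs_le.1 (hsj2 y)).1]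
    have b4 : (1 + sj y) * ∏ i ∈ sA, (1 + sg (ε i) * q i y) ≤
        (1 + sj y) * Real.exp (R y + ∑ i ∈ s, t i) := mul_le_mul_of_nonneg_left b3 hs0
    have b5 : (∏ i ∈ s, T i) * ((1 + sj y) * ∏ i ∈ sA, (1 + sg (ε i) * q i y)) ≤
        Real.exp (∑ i ∈ s, t i) * ((1 + sj y) * Real.exp (R y + ∑ i ∈ s, t i)) :=
      mul_le_mul b2 b4 (mul_nonneg hs0 hA0) (Real.exp_nonneg _)
    have b6 := mul_le_mul_of_nonneg_left b5 hMp.le
    refine (b1.trans b6).trans (le_of_eq ?_)
    rw [Real.exp_add, two_mul (∑ i ∈ s, t i), Real.exp_add]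
    ring
  -- the function `n`
  have hMe : 0 ≤ (∏ i ∈ s, M i) * Real.exp (2 * ∑ i ∈ s, t i) :=
    mul_nonneg (prod_pos hM).le (Real.exp_nonneg _)
  have key : ∀ n : W → ℝ, (∀ y, Real.exp (R y) * (1 + sj y) ≤
      Real.exp (ρ ^ 2) * (1 + (lj y + R y) + n y)) →
      ∀ y, ∏ i ∈ s, Kd K (ε i) (u i) y ≤
      ((∏ i ∈ s, M i) * Real.exp (2 * ∑ i ∈ s, t i + ρ ^ 2)) *
        (1 + ∑ i ∈ s, sg (ε i) * l i y + n y) := by
    intro n hn y
    have e1 : ∑ i ∈ s, sg (ε i) * l i y = lj y + R y := by
      rw [hsplit' fun i => sg (ε i) * l i y, (hsj3 y).2]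
    refine (hmain y).trans ?_
    rw [e1, Real.exp_add]
    calc ((∏ i ∈ s, M i) * Real.exp (2 * ∑ i ∈ s, t i)) * (Real.exp (R y) * (1 + sj y))
        ≤ ((∏ i ∈ s, M i) * Real.exp (2 * ∑ i ∈ s, t i)) *
          (Real.exp (ρ ^ 2) * (1 + (lj y + R y) + n y)) := mul_le_mul_of_nonneg_left (hn y) hMe
      _ = _ := by ring
  by_cases hρ1 : ρ ≤ 1
  · refine ⟨fun y => tj + |R y| * |sj y| + 2 * R y ^ 2, fun y => by positivity, key _ ?_, ?_⟩
    · intro y
      have hR1 : |R y| ≤ 1 := (hRρ y).trans hρ1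
      have hs0 : 0 ≤ 1 + sj y := by linarith [(abs_le.1 (hsj2 y)).1]
      have hs2 : 1 + sj y ≤ 2 := by linarith [(abs_le.1 (hsj2 y)).2]
      have c1 := mul_le_mul_of_nonneg_right (exp_le_quad hR1) hs0
      have c2 : R y * sj y ≤ |R y| * |sj y| := by
        rw [← abs_mul]; exact le_abs_self _
      have c3 : R y ^ 2 * (1 + sj y) ≤ R y ^ 2 * 2 := mul_le_mul_of_nonneg_left hs2 (sq_nonneg _)
      have c4 := (hsj3 y).1
      have c5 : Real.exp (R y) * (1 + sj y) ≤
          1 + (lj y + R y) + (tj + |R y| * |sj y| + 2 * R y ^ 2) := by nlinarith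
      have c6 : 0 ≤ Real.exp (R y) * (1 + sj y) := mul_nonneg (Real.exp_nonneg _) hs0
      have c7 : 1 ≤ Real.exp (ρ ^ 2) := Real.one_le_exp (sq_nonneg _)
      refine c5.trans ?_
      have c8 := c6.trans c5
      nlinarith
    · have e1 : (av fun y => tj + |R y| * |sj y| + 2 * R y ^ 2) ≤
          av fun y => (tj + 2 * ρ ^ 2) + ρ * |sj y| := by
        refine av_mono fun y => ?_
        have d1 : |R y| * |sj y| ≤ ρ * |sj y| := mul_le_mul_of_nonneg_right (hRρ y) (abs_nonneg _)
        have d2 : R y ^ 2 ≤ ρ ^ 2 := by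
          rw [← sq_abs]
          exact pow_le_pow_left₀ (abs_nonneg _) (hRρ y) 2
        linarith
      have e1' : (av fun y => (tj + 2 * ρ ^ 2) + ρ * |sj y|) =
          (tj + 2 * ρ ^ 2) + ρ * av fun y => |sj y| := by
        rw [av_add (fun _ => tj + 2 * ρ ^ 2) (fun y => ρ * |sj y|), av_const, av_smul]
      rw [e1'] at e1
      have e2 : ρ * (av fun y => |sj y|) ≤ (ρ ^ 2 + (av fun y => |sj y|) ^ 2) / 2 := by
        nlinarith [sq_nonneg (ρ - av fun y => |sj y|)]
      have e3 := hsj4.2.1
      have e4 := hsj4.2.2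
      have e5 : 0 ≤ ρ ^ 2 := sq_nonneg _
      have e6 : ∑ i ∈ sB, (2 * t i + 2 * av fun y => l i y ^ 2) = ∑ i ∈ sB,
        (2 * th (g i) (w i) + 2 * av fun y => (dl K y + Sop K (g i) y) ^ 2) := rfl
      rw [e6] at e4
      linarith
  · push Not at hρ1
    refine ⟨fun y => tj + |R y|, fun y => by positivity, key _ ?_, ?_⟩
    · intro y
      have hs0 : 0 ≤ 1 + sj y := by linarith [(abs_le.1 (hsj2 y)).1]
      have c1 : Real.exp (R y) ≤ Real.exp (ρ ^ 2) := by
        refine Real.exp_le_exp.2 ?_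
        have := (le_abs_self _).trans (hRρ y)
        nlinarith
      have c2 : 1 + sj y ≤ 1 + (lj y + R y) + (tj + |R y|) := by
        have := (hsj3 y).1
        have := neg_abs_le (R y)
        linarith
      exact mul_le_mul c1 c2 hs0 (Real.exp_nonneg _)
    · have e1 : (av fun y => tj + |R y|) ≤ av fun _ : W => tj + ρ :=
        av_mono fun y => by linarith [hRρ y]
      rw [av_const] at e1
      have e4 := hsj4.2.2
      have hl2 : 0 ≤ av fun y => lj y ^ 2 := av_nonneg fun y => sq_nonneg _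
      have e6 : ∑ i ∈ sB, (2 * t i + 2 * av fun y => l i y ^ 2) = ∑ i ∈ sB,
        (2 * th (g i) (w i) + 2 * av fun y => (dl K y + Sop K (g i) y) ^ 2) := rfl
      rw [e6] at e4
      nlinarith

end

end Pool.Agent.TLT
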