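import Pool.Agent.TLT.Targets

set_option autoImplicit false

/-!
# FIN: the final theorem for trees as simple graphs
-/

namespace Pool.Agent.TLT

open Finset Polynomial
open scoped BigOperators

noncomputable section

set_option linter.unusedSectionVars false

namespace FIN_

variable {V : Type} [Fintype V] [DecidableEq V]

/-- a connected set is closed under taking parents. -/
lemma closed_par {T : SimpleGraph V} {C : Set V} (hC : (T.induce C).Connected) (r : V)
    (hr : r ∈ C) (par : V → V)
    (hadj : ∀ u v, T.Adj u v → (u ≠ r ∧ par u = v) ∨ (v ≠ r ∧ par v = u)) :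
    ∀ v ∈ C, v ≠ r → par v ∈ C := by
  classical
  intro v hv hvr
  obtain ⟨p⟩ := hC.preconnected ⟨v, hv⟩ ⟨r, hr⟩
  obtain ⟨q, hq⟩ : ∃ q : (T.induce C).Walk ⟨v, hv⟩ ⟨r, hr⟩, q.IsPath :=
    ⟨p.toPath, p.toPath.2⟩
  cases q with
  | nil => exact absurd rfl hvr
  | @cons _ w _ h q' =>
    have h1 := SimpleGraph.Walk.map_isPath_of_injective
      (f := (SimpleGraph.Embedding.induce (G := T) C).toHom)
      (SimpleGraph.Embedding.induce (G := T) C).injective hq
    rw [SimpleGraph.Walk.map_cons] at h1
    have h2 := AntiSid.path_snd r par hadj _ _ h1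
    have h3 : par v = (w : V) := h2
    rw [h3]
    exact w.2

/-- a connected set with two elements has an edge at every vertex. -/
lemma exists_nbr {T : SimpleGraph V} {C : Set V} (hC : (T.induce C).Connected) (r r0 : V)
    (hr : r ∈ C) (hr0 : r0 ∈ C) (hne : r ≠ r0) : ∃ w, T.Adj r w ∧ w ∈ C := by
  obtain ⟨p⟩ := hC.preconnected ⟨r, hr⟩ ⟨r0, hr0⟩
  cases p with
  | nil => exact absurd rfl hne
  | @cons _ w _ h q' => exact ⟨w, h, w.2⟩

/-- choice of the root -/
lemma exists_root {T : SimpleGraph V} (hT : T.IsTree) {C : Set V}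
    (hC : (T.induce C).Connected) :
    ∃ r ∈ C, C = {r} ∨ {w | T.Adj r w ∧ w ∈ C}.ncard = 1 := by
  classical
  obtain ⟨⟨r0, hr0⟩⟩ := hC.nonempty
  obtain ⟨par, hb, h1, h2⟩ := AntiSid.exists_parent hT r0
  have hadj : ∀ u v, T.Adj u v → (u ≠ r0 ∧ par u = v) ∨ (v ≠ r0 ∧ par v = u) :=
    fun u v huv => AntiSid.adj_iff_parent hT r0 par h1 h2 huv
  obtain ⟨r, hr, hmax⟩ := Finset.exists_max_image (Set.toFinite C).toFinset
    (fun v => T.dist v r0) ⟨r0, (Set.Finite.mem_toFinset _).2 hr0⟩
  have hrC : r ∈ C := (Set.Finite.mem_toFinset _).1 hr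
  refine ⟨r, hrC, ?_⟩
  by_cases h : r = r0
  · left
    subst h
    ext v
    constructor
    · intro hv
      have h3 := hmax v ((Set.Finite.mem_toFinset _).2 hv)
      by_contra hvr
      have h4 := h2 v hvr
      rw [SimpleGraph.dist_self] at h3
      omega
    · rintro rfl
      exact hrC
  · right
    have h3 : {w | T.Adj r w ∧ w ∈ C} = {par r} := by
      have h4 : ∀ w, T.Adj r w → w ∈ C → w = par r := by
        intro w hw hwC
        rcases hadj r w hw with h5 | h5
        · exact h5.2.symm
        · exfalso
          have h6 := hmax w ((Set.Finite.mem_toFinset _).2 hwC)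
          have h7 := h2 w h5.1
          rw [h5.2] at h7
          omega
      obtain ⟨w, hw, hwC⟩ := exists_nbr hC r r0 hrC hr0 h
      have h5 := h4 w hw hwC
      subst h5
      ext u
      constructor
      · rintro ⟨h6, h7⟩
        exact h4 u h6 h7
      · rintro rfl
        exact ⟨hw, hwC⟩
    rw [h3, Set.ncard_singleton]

lemma dep_iter_le (par : V → V) (dep : V → ℕ) (h : ∀ v, dep (par v) ≤ dep v) :
    ∀ (k : ℕ) (x : V), dep (par^[k] x) ≤ dep x := by
  intro k
  induction k with
  | zero => intro x; exact le_rfl
  | succ k ih =>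
    intro x
    rw [Function.iterate_succ_apply']
    exact le_trans (h _) (ih x)

lemma dist_iter_le {T : SimpleGraph V} (hT : T.IsTree) (par : V → V)
    (h : ∀ v, T.dist v (par v) ≤ 1) : ∀ (k : ℕ) (x : V), T.dist x (par^[k] x) ≤ k := by
  intro k
  induction k with
  | zero => intro x; simp
  | succ k ih =>
    intro x
    rw [Function.iterate_succ_apply']
    have h1 := hT.1.dist_triangle (u := x) (v := par^[k] x) (w := par (par^[k] x))
    have h2 := ih x
    have h3 := h (par^[k] x)
    omega

end FIN_

open FIN_ in
theorem p_FIN (h1 : T_CORE) (h2 : T_RED) : T_FIN := by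
  intro V _ _ T hT C hC hodd heven hfar
  obtain ⟨r, hrC, hroot⟩ := exists_root hT hC
  obtain ⟨par, hb, ha1, ha2⟩ := AntiSid.exists_parent hT r
  have hadj : ∀ u v, T.Adj u v → (u ≠ r ∧ par u = v) ∨ (v ≠ r ∧ par v = u) :=
    fun u v huv => AntiSid.adj_iff_parent hT r par ha1 ha2 huv
  have hclosed := closed_par hC r hrC par hadj
  set dep : V → ℕ := fun v => T.dist v r with hdep
  have hdist1 : ∀ v, T.dist v (par v) ≤ 1 := by
    intro v
    by_cases hv : v = r
    · subst hv; rw [hb, SimpleGraph.dist_self]; omega
    · have := SimpleGraph.dist_le (ha1 v hv).toWalk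
      simpa using this
  have hexact : ∀ v, v ≠ r → dep v = dep (par v) + 1 := by
    intro v hv
    have h3 := ha2 v hv
    have h4 := hT.1.dist_triangle (u := v) (v := par v) (w := r)
    have h5 := hdist1 v
    simp only [hdep]
    omega
  have hdeple : ∀ v, dep (par v) ≤ dep v := by
    intro v
    by_cases hv : v = r
    · subst hv; rw [hb]
    · have := hexact v hv; omega
  set Cf : Finset V := (Set.toFinite C).toFinset with hCf
  have hmem : ∀ v, v ∈ Cf ↔ v ∈ C := fun v => by simp [hCf]
  -- degrees
  have hdegC : ∀ v ∈ C, v ≠ r →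
      {w | T.Adj v w ∧ w ∈ C}.ncard = (AntiSid.ch par Cf r v).card + 1 := by
    intro v hv hvr
    have hN : {w | T.Adj v w ∧ w ∈ C} =
        insert (par v) ((AntiSid.ch par Cf r v : Finset V) : Set V) := by
      ext u
      simp only [AntiSid.ch, Finset.coe_filter, hmem, Set.mem_insert_iff, Set.mem_ofPred_eq]
      constructor
      · rintro ⟨huv, huC⟩
        rcases hadj v u huv with h | h
        · left; exact h.2.symm
        · right; exact ⟨huC, h⟩
      · rintro (rfl | ⟨h3, h4, h5⟩)
        · exact ⟨ha1 v hvr, hclosed v hv hvr⟩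
        · have := ha1 u h4
          rw [h5] at this
          exact ⟨this.symm, h3⟩
    have hnm : par v ∉ ((AntiSid.ch par Cf r v : Finset V) : Set V) := by
      intro hm
      simp only [AntiSid.ch, Finset.coe_filter, Set.mem_ofPred_eq] at hm
      have h3 := hexact v hvr
      have h4 := hexact (par v) hm.2.1
      rw [hm.2.2] at h4
      omega
    rw [hN, Set.ncard_insert_of_notMem hnm, Set.ncard_coe_finset]
  have hdegR : {w | T.Adj r w ∧ w ∈ C}.ncard = (AntiSid.ch par Cf r r).card := by
    have hN : {w | T.Adj r w ∧ w ∈ C} = ((AntiSid.ch par Cf r r : Finset V) : Set V) := by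
      ext u
      simp only [AntiSid.ch, Finset.coe_filter, hmem, Set.mem_ofPred_eq]
      constructor
      · rintro ⟨huv, huC⟩
        rcases hadj r u huv with h | h
        · exact absurd rfl h.1
        · exact ⟨huC, h⟩
      · rintro ⟨h3, h4, h5⟩
        have := ha1 u h4
        rw [h5] at this
        exact ⟨this.symm, h3⟩
    rw [hN, Set.ncard_coe_finset]
  have hN : ∀ v, v ≠ r → (T.neighborSet v).ncard = (AntiSid.ch par Finset.univ r v).card + 1 := by
    intro v hvb
    have hN : T.neighborSet v =
        insert (par v) ((AntiSid.ch par Finset.univ r v : Finset V) : Set V) := by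
      ext u
      simp only [SimpleGraph.mem_neighborSet, AntiSid.ch, Finset.mem_univ, Finset.coe_filter,
        true_and, Set.mem_insert_iff, Set.mem_ofPred_eq]
      constructor
      · intro huv
        rcases hadj v u huv with h | h
        · left; exact h.2.symm
        · right; exact h
      · rintro (rfl | ⟨h3, h4⟩)
        · exact ha1 v hvb
        · have := ha1 u h3
          rw [h4] at this
          exact this.symm
    have hnm : par v ∉ ((AntiSid.ch par Finset.univ r v : Finset V) : Set V) := by
      intro hm
      simp only [AntiSid.ch, Finset.mem_univ, Finset.coe_filter, true_and, Set.mem_ofPred_eq] at hm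
      have h3 := hexact v hvb
      have h4 := hexact (par v) hm.1
      rw [hm.2] at h4
      omega
    rw [hN, Set.ncard_insert_of_notMem hnm, Set.ncard_coe_finset]
  -- core
  have hRtC : Rt par dep Cf r := by
    refine ⟨(hmem r).2 hrC, ?_, ?_⟩
    · intro v hv hvr
      exact (hmem _).2 (hclosed v ((hmem v).1 hv) hvr)
    · intro v _ hvr
      have := hexact v hvr
      omega
  have hrootC : Cf = {r} ∨ (AntiSid.ch par Cf r r).card = 1 := by
    rcases hroot with h | h
    · left
      ext v
      rw [hmem, h]
      simp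
    · right
      rw [← hdegR, h]
  have hlen : ∀ b ∈ Cf, b ≠ r → (AntiSid.ch par Cf r b).card ≠ 1 → ∀ i, 1 ≤ i → i < 1000000 →
      par^[i] b ≠ r ∧ (AntiSid.ch par Cf r (par^[i] b)).card = 1 := by
    intro b hbC hbr hcard i hi1 hi
    have hbC' := (hmem b).1 hbC
    have hiterC : ∀ k, par^[k] b ∈ C := by
      intro k
      induction k with
      | zero => exact hbC'
      | succ k ih =>
        rw [Function.iterate_succ_apply']
        by_cases h : par^[k] b = r
        · rw [h, hb]; exact hrC
        · exact hclosed _ ih h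
    have hneb : par^[i] b ≠ b := by
      intro h
      obtain ⟨k, rfl⟩ : ∃ k, i = k + 1 := ⟨i - 1, by omega⟩
      have h3 := dep_iter_le par dep hdeple k (par b)
      rw [← Function.iterate_succ_apply, h] at h3
      have h4 := hexact b hbr
      omega
    have hdb : {w | T.Adj b w ∧ w ∈ C}.ncard ≠ 2 := by
      rw [hdegC b hbC' hbr]
      omega
    have hdist := dist_iter_le hT par hdist1 i b
    have key : {w | T.Adj (par^[i] b) w ∧ w ∈ C}.ncard ≠ 2 → False := by
      intro h
      have h3 := hfar b hbC' (par^[i] b) (hiterC i) (Ne.symm hneb) hdb h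
      omega
    have hnr : par^[i] b ≠ r := by
      intro h
      apply key
      rw [h]
      rcases hroot with h3 | h3
      · exfalso
        rw [h3] at hbC'
        exact hbr hbC'
      · rw [h3]; omega
    refine ⟨hnr, ?_⟩
    by_contra hcc
    apply key
    rw [hdegC _ (hiterC i) hnr]
    omega
  obtain ⟨o, ho⟩ := h1 V par dep Cf r hRtC hrootC hlen
  have hRtU : Rt par dep Finset.univ r := by
    refine ⟨Finset.mem_univ _, fun _ _ _ => Finset.mem_univ _, ?_⟩
    intro v _ hvr
    have := hexact v hvr
    omega
  have hev : ∀ v ∈ (Finset.univ : Finset V),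
      Even ((AntiSid.ch par Finset.univ r v).filter fun c => c ∉ Cf).card := by
    intro v _
    by_cases hvC : v ∈ C
    · have h3 := heven v hvC
      have h4 : {u | T.Adj v u ∧ u ∉ C} =
          (((AntiSid.ch par Finset.univ r v).filter fun c => c ∉ Cf : Finset V) : Set V) := by
        ext u
        simp only [AntiSid.ch, Finset.coe_filter, Finset.mem_filter, hmem, Finset.mem_univ,
          true_and, Set.mem_ofPred_eq]
        constructor
        · rintro ⟨h5, h6⟩
          rcases hadj v u h5 with h | h
          · exfalso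
            apply h6
            rw [← h.2]
            exact hclosed v hvC h.1
          · exact ⟨h, h6⟩
        · rintro ⟨⟨h5, h6⟩, h7⟩
          have := ha1 u h5
          rw [h6] at this
          exact ⟨this.symm, h7⟩
      rw [h4, Set.ncard_coe_finset] at h3
      exact h3
    · have hvr : v ≠ r := by
        rintro rfl
        exact hvC hrC
      have h3 := hodd v hvC
      rw [hN v hvr] at h3
      have h4 : (AntiSid.ch par Finset.univ r v).filter (fun c => c ∉ Cf) =
          AntiSid.ch par Finset.univ r v := by
        apply Finset.filter_true_of_mem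
        intro u hu huC
        simp only [AntiSid.ch, Finset.mem_filter, Finset.mem_univ, true_and] at hu
        apply hvC
        rw [← hu.2]
        exact hclosed u ((hmem u).1 huC) hu.1
      rw [h4]
      rwa [Nat.odd_add_one, Nat.not_odd_iff_even] at h3
  obtain ⟨o', _, hgood⟩ := h2 V par dep Finset.univ Cf r hRtU (fun v _ hv => hexact v hv)
    (Finset.subset_univ _) ((hmem r).2 hrC)
    (fun v hv hvr => (hmem _).2 (hclosed v ((hmem v).1 hv) hvr)) hev o ho
  refine ⟨AntiSid.dirOf r par o', ?_, ?_, ?_⟩
  · intro u v huv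
    rcases hadj u v huv with h | h
    · cases hou : o' u
      · right; right; exact ⟨h.1, h.2, hou⟩
      · left; left; exact ⟨h.1, h.2, hou⟩
    · cases hov : o' v
      · left; right; exact ⟨h.1, h.2, hov⟩
      · right; left; exact ⟨h.1, h.2, hov⟩
  · intro u v huv
    constructor
    · rcases huv with ⟨h3, h4, _⟩ | ⟨h3, h4, _⟩
      · rw [← h4]; exact ha1 u h3
      · rw [← h4]; exact (ha1 v h3).symm
    · intro hvu
      rcases huv with ⟨h3, h4, h5⟩ | ⟨h3, h4, h5⟩ <;> rcases hvu with ⟨h6, h7, h8⟩ | ⟨h6, h7, h8⟩
      · have h9 := hexact u h3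
        have h10 := hexact v h6
        rw [h4] at h9; rw [h7] at h10; omega
      · rw [h5] at h8; exact Bool.noConfusion h8
      · rw [h5] at h8; exact Bool.noConfusion h8
      · have h9 := hexact v h3
        have h10 := hexact u h6
        rw [h4] at h9; rw [h7] at h10; omega
  · intro W _ G hne hG
    classical
    have h3 := hgood W G hne hG
    have h4 : ∑ f : V → W, AntiSid.FS G par o' Finset.univ r f =
        ({f : V → W | ∀ u v, AntiSid.dirOf r par o' u v → G (f u) (f v)}.ncard : ℝ) := by
      rw [Finset.sum_congr rfl fun f _ => AntiSid.FS_eq W G r par o' f, Finset.sum_boole]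
      congr 1
      rw [← Set.ncard_coe_finset]
      congr 1
      ext f
      simp
    rw [h4] at h3
    have h5 : T.edgeSet.ncard = Fintype.card V - 1 := by
      have h6 := hT.card_edgeFinset
      have h7 : T.edgeSet.ncard = T.edgeFinset.card := by
        rw [← Set.ncard_coe_finset]
        congr 1
        simp
      omega
    rw [h5]
    simpa using h3

end

end Pool.Agent.TLT
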