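import Pool.Agent.TLT.Targets

set_option autoImplicit false

/-!
# Elementary facts about the operator `S`
-/

namespace Pool.Agent.TLT

open Finset

noncomputable section

namespace BAS_

variable {W : Type} [Fintype W]

theorem av_mono {f g : W → ℝ} (h : ∀ x, f x ≤ g x) : av f ≤ av g :=
  div_le_div_of_nonneg_right (Finset.sum_le_sum fun x _ => h x) (Nat.cast_nonneg _)

theorem av_add (f g : W → ℝ) : (av fun x => f x + g x) = av f + av g := by
  simp only [av, Finset.sum_add_distrib, add_div]

theorem av_sub (f g : W → ℝ) : (av fun x => f x - g x) = av f - av g := by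
  simp only [av, Finset.sum_sub_distrib, sub_div]

theorem av_neg (f : W → ℝ) : (av fun x => - f x) = - av f := by
  simp only [av, Finset.sum_neg_distrib, neg_div]

theorem av_mul (c : ℝ) (f : W → ℝ) : (av fun x => c * f x) = c * av f := by
  simp only [av, ← Finset.mul_sum, mul_div_assoc]

theorem av_mul' (c : ℝ) (f : W → ℝ) : (av fun x => f x * c) = av f * c := by
  simp only [av, ← Finset.sum_mul, div_mul_eq_mul_div]

theorem abs_av (f : W → ℝ) : |av f| ≤ av fun x => |f x| := by
  unfold av
  rw [abs_div, abs_of_nonneg (Nat.cast_nonneg (Fintype.card W) : (0 : ℝ) ≤ _)]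
  exact div_le_div_of_nonneg_right (Finset.abs_sum_le_sum_abs _ _) (Nat.cast_nonneg _)

theorem av_comm (f : W → W → ℝ) : (av fun x => av fun y => f x y) = av fun y => av fun x => f x y := by
  simp only [av, ← Finset.sum_div]
  rw [Finset.sum_comm]

theorem CS (f g : W → ℝ) :
    (av fun y => f y * g y) ^ 2 ≤ (av fun y => f y ^ 2) * av fun y => g y ^ 2 := by
  unfold av
  rw [div_pow, div_mul_div_comm, ← pow_two]
  exact div_le_div_of_nonneg_right (Finset.sum_mul_sq_le_sq_mul_sq _ _ _) (by positivity)

end BAS_

open BAS_ in
/-- BAS -/
theorem p_BAS : T_BAS := by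
  intro W _ _ K hK
  have hK2 : ∀ x y, K x y ≤ 2 := fun x y => by
    have := hK.add x y
    have := hK.nonneg y x
    linarith
  have hcard : (0 : ℝ) < Fintype.card W := by exact_mod_cast Fintype.card_pos
  have h2 : ∀ f g : W → ℝ, (av fun x => Sop K f x * g x) = - av fun x => f x * Sop K g x := by
    intro f g
    have e1 : (av fun x => Sop K f x * g x) = av fun x => av fun y => (K x y - 1) * f y * g x := by
      congr 1
      funext x
      rw [av_mul']
      rfl
    have e2 : (av fun x => f x * Sop K g x) = av fun x => av fun y => f x * ((K x y - 1) * g y) := by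
      congr 1
      funext x
      rw [av_mul]
      rfl
    rw [e1, av_comm, e2, ← av_neg]
    congr 1
    funext x
    rw [← av_neg]
    congr 1
    funext y
    have := hK.add x y
    have h3 : K y x = 2 - K x y := by linarith
    rw [h3]
    ring
  refine ⟨?_, h2, ?_, ?_, ?_, ?_, ?_, ?_, CS⟩
  · intro f x
    refine (abs_av _).trans (av_mono fun y => ?_)
    rw [abs_mul]
    have h3 : |K x y - 1| ≤ 1 := by
      rw [abs_le]
      have := hK.nonneg x y
      have := hK2 x y
      constructor <;> linarith
    exact mul_le_of_le_one_left (abs_nonneg _) h3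
  · have h3 := h2 (fun _ => 1) (fun _ => 1)
    simp only [mul_one, one_mul] at h3
    have h4 : av (dl K) = - av (dl K) := h3
    linarith
  · intro f x
    have : Sop K f x = av fun y => (K x y - 1) * f y := rfl
    rw [this, ← av_add]
    unfold Kd
    congr 1
    funext y
    simp only [if_true]
    ring
  · intro f x
    have : Sop K f x = av fun y => (K x y - 1) * f y := rfl
    rw [this, ← av_sub]
    unfold Kd
    congr 1
    funext y
    have := hK.add x y
    have h3 : K y x = 2 - K x y := by linarith
    simp only [Bool.false_eq_true, if_false, h3]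
    ring
  · intro b f g hfg x
    refine av_mono fun y => mul_le_mul_of_nonneg_left (hfg y) ?_
    split_ifs
    · exact hK.nonneg _ _
    · exact hK.nonneg _ _
  · intro b f x
    rw [← av_mul]
    refine av_mono fun y => ?_
    have h3 : 0 ≤ (if b then K x y else K y x) := by
      split_ifs
      · exact hK.nonneg _ _
      · exact hK.nonneg _ _
    have h4 : (if b then K x y else K y x) ≤ 2 := by
      split_ifs
      · exact hK2 _ _
      · exact hK2 _ _
    calc (if b then K x y else K y x) * f y ≤ (if b then K x y else K y x) * |f y| :=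
          mul_le_mul_of_nonneg_left (le_abs_self _) h3
      _ ≤ 2 * |f y| := mul_le_mul_of_nonneg_right h4 (abs_nonneg _)
  · intro f
    have h3 := CS (fun y => |f y|) (fun _ => 1)
    simp only [mul_one, sq_abs, one_pow] at h3
    have h4 : (av fun _ : W => (1 : ℝ)) = 1 := by
      unfold av
      rw [Finset.sum_const, Finset.card_univ, nsmul_eq_mul, mul_one, div_self hcard.ne']
    rw [h4, mul_one] at h3
    exact h3

end

end Pool.Agent.TLT
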