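import Pool.Agent.TLT.Targets

set_option autoImplicit false

/-!
# The norm of `S` is at most `1 / √2` (job TLT-NRM)
-/

namespace Pool.Agent.TLT

open Finset Polynomial
open scoped BigOperators

namespace NRM_

variable {W : Type} [Fintype W]

theorem av_add (f g : W → ℝ) : av (fun y => f y + g y) = av f + av g := by
  unfold av
  rw [Finset.sum_add_distrib, add_div]

theorem av_mul (r : ℝ) (f : W → ℝ) : av (fun y => r * f y) = r * av f := by
  unfold av
  rw [← Finset.mul_sum, mul_div_assoc]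

theorem av_mono {f g : W → ℝ} (h : ∀ y, f y ≤ g y) : av f ≤ av g := by
  unfold av
  exact div_le_div_of_nonneg_right (Finset.sum_le_sum fun y _ => h y) (Nat.cast_nonneg _)

theorem av_const [Nonempty W] (r : ℝ) : av (fun _ : W => r) = r := by
  unfold av
  have : (Fintype.card W : ℝ) ≠ 0 := by exact_mod_cast Fintype.card_ne_zero
  rw [Finset.sum_const, Finset.card_univ, nsmul_eq_mul]
  field_simp

theorem av_nonneg {f : W → ℝ} (h : ∀ y, 0 ≤ f y) : 0 ≤ av f := by
  unfold av
  exact div_nonneg (Finset.sum_nonneg fun y _ => h y) (Nat.cast_nonneg _)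

/-- Bessel's inequality at a point. -/
theorem bessel [Nonempty W] {K : W → W → ℝ} (hK : Krn K) (f g : W → ℝ) (x : W) {a b : ℝ}
    (ha : 0 < a) (hb : 0 < b) (hf : av (fun y => f y ^ 2) = a) (hg : av (fun y => g y ^ 2) = b)
    (hfg : av (fun y => f y * g y) = 0) :
    Sop K f x ^ 2 / a + Sop K g x ^ 2 / b ≤ 1 := by
  set c := Sop K f x / a with hc
  set d := Sop K g x / b with hd
  have h0 : 0 ≤ av fun y => ((K x y - 1) - c * f y - d * g y) ^ 2 :=
    av_nonneg fun y => sq_nonneg _
  have h1 : (fun y => ((K x y - 1) - c * f y - d * g y) ^ 2) = fun y =>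
      (K x y - 1) ^ 2 + ((-2 * c) * ((K x y - 1) * f y) + ((-2 * d) * ((K x y - 1) * g y) +
        (c ^ 2 * f y ^ 2 + ((2 * c * d) * (f y * g y) + d ^ 2 * g y ^ 2)))) := by
    funext y
    ring
  rw [h1, av_add, av_add, av_add, av_add, av_add, av_mul, av_mul, av_mul, av_mul, av_mul, hf, hg,
    hfg] at h0
  have h2 : av (fun y => (K x y - 1) ^ 2) ≤ 1 := by
    refine (av_mono (g := fun _ => (1 : ℝ)) fun y => ?_).trans (le_of_eq (av_const 1))
    have h3 := hK.nonneg x y
    have h4 := hK.nonneg y x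
    have h5 := hK.add x y
    nlinarith
  have h3 : av (fun y => (K x y - 1) * f y) = Sop K f x := rfl
  have h4 : av (fun y => (K x y - 1) * g y) = Sop K g x := rfl
  rw [h3, h4] at h0
  have h5 : Sop K f x = c * a := by rw [hc]; field_simp
  have h6 : Sop K g x = d * b := by rw [hd]; field_simp
  rw [h5, h6] at h0 ⊢
  have h7 : (c * a) ^ 2 / a = c ^ 2 * a := by field_simp
  have h8 : (d * b) ^ 2 / b = d ^ 2 * b := by field_simp
  rw [h7, h8]
  nlinarith

end NRM_

open NRM_ in
theorem p_NRM (h1 : T_BAS) : T_NRM := by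
  intro W _ _ K hK f
  obtain ⟨hS, hanti, -, -, -, -, -, hsq, hCS⟩ := h1 W K hK
  set g : W → ℝ := Sop K f with hg
  set a := av (fun x => f x ^ 2) with ha
  set b := av (fun x => g x ^ 2) with hb
  have a0 : 0 ≤ a := av_nonneg fun y => sq_nonneg _
  have b0 : 0 ≤ b := av_nonneg fun y => sq_nonneg _
  rcases a0.eq_or_lt with ha0 | ha0
  · have h2 : ∀ x, g x ^ 2 ≤ 0 := by
      intro x
      have h3 := hS f x
      have h4 := hsq f
      have h5 : |g x| ^ 2 ≤ (av fun y => |f y|) ^ 2 :=
        pow_le_pow_left₀ (abs_nonneg _) h3 2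
      rw [sq_abs] at h5
      calc g x ^ 2 ≤ (av fun y => |f y|) ^ 2 := h5
        _ ≤ av (fun y => f y ^ 2) := h4
        _ = 0 := ha0.symm
    have h3 : b ≤ 0 := (av_mono h2).trans (le_of_eq (av_const 0))
    linarith
  rcases b0.eq_or_lt with hb0 | hb0
  · linarith
  have hfg : av (fun y => f y * g y) = 0 := by
    have h2 := hanti f f
    have h3 : (av fun x => Sop K f x * f x) = av fun y => f y * g y := by
      congr 1
      funext y
      exact mul_comm _ _
    rw [h3] at h2
    have h4 : (av fun x => f x * Sop K f x) = av fun y => f y * g y := rfl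
    rw [h4] at h2
    linarith
  have hB := fun x => bessel hK f g x ha0 hb0 rfl rfl hfg
  have h2 := av_mono hB
  rw [av_const] at h2
  have h3 : (fun x => Sop K f x ^ 2 / a + Sop K g x ^ 2 / b) =
      fun x => a⁻¹ * g x ^ 2 + b⁻¹ * Sop K g x ^ 2 := by
    funext x
    rw [div_eq_inv_mul, div_eq_inv_mul]
  rw [h3, av_add, av_mul, av_mul] at h2
  have h4 := hCS (Sop K g) f
  have h5 : av (fun y => Sop K g y * f y) = - b := by
    rw [hanti g f]
    congr 1
    rw [hb]
    congr 1
    funext y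
    rw [sq]
  rw [h5, neg_sq] at h4
  set e := av (fun y => Sop K g y ^ 2) with he
  -- b^2 ≤ e a, b / a + e / b ≤ 1
  have h6 : a⁻¹ * b ≤ b⁻¹ * e := by
    rw [inv_mul_eq_div, inv_mul_eq_div, div_le_div_iff₀ ha0 hb0]
    nlinarith
  have h7 : a⁻¹ * b + a⁻¹ * b ≤ 1 := by linarith
  have h8 : a⁻¹ * b * a = b := by field_simp
  nlinarith

end Pool.Agent.TLT
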