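import Pool.Agent.TLT.Targets

set_option autoImplicit false

/-! TLT-ELIM: the recursion for the number of homomorphisms. -/

namespace Pool.Agent.TLT

open Finset Polynomial
open scoped BigOperators

noncomputable section

namespace ELIM_

variable {V : Type} [Fintype V] [DecidableEq V] {par : V → V} {dep : V → ℕ}

lemma exists_F {S : Finset V} {r : V} (h : Rt par dep S r) {W : Type} [Fintype W]
    (K : W → W → ℝ) (o : V → Bool) :
    ∃ F : V → W → ℝ, ∀ v ∈ S,
      F v = fun x => ∏ c ∈ AntiSid.ch par S r v, Kd K (o c) (F c) x := by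
  let step : (V → W → ℝ) → (V → W → ℝ) := fun F v x =>
    ∏ c ∈ AntiSid.ch par S r v, Kd K (o c) (F c) x
  let D := S.sup dep
  have key : ∀ k : ℕ, ∀ v ∈ S, D + 1 ≤ dep v + k →
      step^[k + 1] (fun _ _ => 1) v = step^[k] (fun _ _ => 1) v := by
    intro k
    induction k with
    | zero =>
      intro v hv h1
      exact absurd (Finset.le_sup (f := dep) hv) (by omega)
    | succ k ih =>
      intro v hv h1
      rw [Function.iterate_succ_apply', Function.iterate_succ_apply' step k]
      funext x
      refine Finset.prod_congr rfl fun c hc => ?_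
      simp only [AntiSid.ch, Finset.mem_filter] at hc
      obtain ⟨hcS, hcr, hcv⟩ := hc
      have h2 := h.hdep c hcS hcr
      rw [hcv] at h2
      have h3 := ih c hcS (by omega)
      rw [Function.iterate_succ_apply'] at h3
      rw [h3]
  refine ⟨step^[D + 1] (fun _ _ => 1), fun v hv => ?_⟩
  have := key (D + 1) v hv (by omega)
  rw [Function.iterate_succ_apply'] at this
  exact this.symm

lemma KG_nonneg {W : Type} [Fintype W] [DecidableEq W] (G : W → W → Prop) (x y : W) : 0 ≤ KG G x y := by
  unfold KG
  have := AntiSid.ind_nonneg G true x y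
  split_ifs <;> linarith

lemma ind_le {W : Type} [Fintype W] [DecidableEq W] (G : W → W → Prop) (b : Bool) (z x : W) :
    AntiSid.ind G (!b) z x ≤ (1 / 2) * (if b then KG G x z else KG G z x) := by
  cases b
  · simp only [Bool.not_false, KG, Bool.false_eq_true, if_false]
    split_ifs <;> linarith
  · simp only [Bool.not_true, if_true, KG, AntiSid.ind_false]
    split_ifs <;> linarith

lemma Kd_nonneg {W : Type} [Fintype W] [DecidableEq W] (G : W → W → Prop) (b : Bool)
    {f : W → ℝ} (hf : ∀ x, 0 ≤ f x) (x : W) : 0 ≤ Kd (KG G) b f x := by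
  unfold Kd av
  refine div_nonneg (Finset.sum_nonneg fun y _ => mul_nonneg ?_ (hf y)) (Nat.cast_nonneg _)
  split_ifs <;> exact KG_nonneg _ _ _

omit [Fintype V] in
lemma prod_update {W : Type} (S : Finset V) (φ : V → W → ℝ) {p : V} (hp : p ∈ S) (g : W → ℝ)
    (f : V → W) :
    ∏ v ∈ S, Function.update φ p (fun x => φ p x * g x) v (f v) =
      (∏ v ∈ S, φ v (f v)) * g (f p) := by
  rw [← Finset.mul_prod_erase S _ hp, ← Finset.mul_prod_erase S (fun v => φ v (f v)) hp]
  rw [Function.update_self]
  have : ∏ v ∈ S.erase p, Function.update φ p (fun x => φ p x * g x) v (f v) =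
      ∏ v ∈ S.erase p, φ v (f v) := by
    refine Finset.prod_congr rfl fun v hv => ?_
    rw [Function.update_of_ne (Finset.ne_of_mem_erase hv)]
  rw [this]
  ring

lemma elim {W : Type} [Fintype W] [DecidableEq W] [Nonempty W] (G : W → W → Prop)
    (o : V → Bool) (n : ℕ) : ∀ (S : Finset V) (r : V), S.card = n → Rt par dep S r →
    ∀ φ Φ : V → W → ℝ, (∀ v x, 0 ≤ φ v x) →
    (∀ v ∈ S, Φ v = fun x => φ v x * ∏ c ∈ AntiSid.ch par S r v, Kd (KG G) (o c) (Φ c) x) →
    ∑ f : V → W, (∏ v ∈ S, φ v (f v)) * AntiSid.FS G par (fun c => !o c) S r f ≤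
      (Fintype.card W : ℝ) ^ (Fintype.card V) * (1 / 2) ^ (S.card - 1) * av (Φ r) := by
  induction n using Nat.strong_induction_on with
  | _ n ih =>
  intro S r hn h φ Φ hφ hΦ
  have hW : (0 : ℝ) < Fintype.card W := by exact_mod_cast Fintype.card_pos
  rcases Finset.eq_empty_or_nonempty (S.erase r) with he | he
  · -- base case
    have hS : S = {r} := by
      rw [Finset.erase_eq_empty_iff] at he
      rcases he with he | he
      · exact absurd h.hr (by simp [he])
      · exact he
    have e1 : Φ r = φ r := by
      rw [hΦ r h.hr]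
      funext x
      have : AntiSid.ch par S r r = ∅ := by
        ext c
        simp only [AntiSid.ch, hS, Finset.mem_filter, Finset.mem_singleton, Finset.notMem_empty,
          iff_false]
        tauto
      rw [this, Finset.prod_empty, mul_one]
    have e2 : ∀ f : V → W, (∏ v ∈ S, φ v (f v)) * AntiSid.FS G par (fun c => !o c) S r f =
        1 * φ r (f r) := by
      intro f
      unfold AntiSid.FS
      rw [he, Finset.prod_empty, hS, Finset.prod_singleton]
      ring
    simp_rw [e2]
    have e3 := AntiSid.free_coord (V := V) (W := W) (fun _ => (1 : ℝ)) (fun w _ => φ r w) r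
      (fun _ _ => rfl) (fun _ _ _ => rfl)
    have e4 : ∑ _f : V → W, (1 : ℝ) * ∑ z, φ r z =
        (Fintype.card W : ℝ) ^ (Fintype.card V) * ∑ z, φ r z := by
      rw [Finset.sum_const, Finset.card_univ, Fintype.card_fun, nsmul_eq_mul]
      push_cast
      ring
    rw [e4] at e3
    rw [hS, Finset.card_singleton, Nat.sub_self, pow_zero, mul_one, e1]
    unfold av
    apply le_of_eq
    rw [← mul_div_assoc, eq_div_iff hW.ne', ← e3]
    ring
  · -- remove a leaf
    obtain ⟨u, hu, hmax⟩ := Finset.exists_max_image (S.erase r) dep he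
    obtain ⟨hur, huS⟩ := Finset.mem_erase.1 hu
    have hleaf : ∀ v ∈ S.erase r, par v ≠ u := by
      intro v hv hvu
      have h1 := hmax v hv
      obtain ⟨hvr, hvS⟩ := Finset.mem_erase.1 hv
      have h2 := h.hdep v hvS hvr
      rw [hvu] at h2
      omega
    have hpu : par u ≠ u := hleaf u hu
    have hpS : par u ∈ S := h.hpar u huS hur
    set S' := S.erase u with hS'
    have hrS' : r ∈ S' := Finset.mem_erase.2 ⟨fun h1 => hur h1.symm, h.hr⟩
    have hpS' : par u ∈ S' := Finset.mem_erase.2 ⟨hpu, hpS⟩
    have hR' : Rt par dep S' r := by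
      refine ⟨hrS', fun v hv hvr => ?_, fun v hv hvr => h.hdep v (Finset.mem_of_mem_erase hv) hvr⟩
      have hvS := Finset.mem_of_mem_erase hv
      exact Finset.mem_erase.2 ⟨hleaf v (Finset.mem_erase.2 ⟨hvr, hvS⟩), h.hpar v hvS hvr⟩
    have hcard : S.card - 1 = (S'.card - 1) + 1 := by
      have h1 : 0 < S'.card := Finset.card_pos.2 ⟨r, hrS'⟩
      have h2 := Finset.card_erase_of_mem huS
      rw [← hS'] at h2
      omega
    have hlt : S'.card < n := by
      rw [← hn]
      exact Finset.card_erase_lt_of_mem huS
    have hΦu : Φ u = φ u := by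
      rw [hΦ u huS]
      funext x
      have : AntiSid.ch par S r u = ∅ := by
        ext c
        simp only [AntiSid.ch, Finset.mem_filter, Finset.notMem_empty, iff_false]
        rintro ⟨h1, h2, h3⟩
        exact hleaf c (Finset.mem_erase.2 ⟨h2, h1⟩) h3
      rw [this, Finset.prod_empty, mul_one]
    set g : W → ℝ := Kd (KG G) (o u) (Φ u) with hg
    have hg0 : ∀ x, 0 ≤ g x := Kd_nonneg G (o u) (by rw [hΦu]; exact hφ u)
    set φ' : V → W → ℝ := Function.update φ (par u) (fun x => φ (par u) x * g x) with hφ'
    have hφ'0 : ∀ v x, 0 ≤ φ' v x := by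
      intro v x
      by_cases hv : v = par u
      · rw [hφ', hv, Function.update_self]
        exact mul_nonneg (hφ _ _) (hg0 _)
      · rw [hφ', Function.update_of_ne hv]
        exact hφ _ _
    have hΦ' : ∀ v ∈ S',
        Φ v = fun x => φ' v x * ∏ c ∈ AntiSid.ch par S' r v, Kd (KG G) (o c) (Φ c) x := by
      intro v hv
      have hvS := Finset.mem_of_mem_erase hv
      rw [hΦ v hvS]
      funext x
      by_cases hvp : v = par u
      · have e1 : AntiSid.ch par S r v = insert u (AntiSid.ch par S' r v) := by
          ext c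
          simp only [AntiSid.ch, hS', Finset.mem_filter, Finset.mem_insert, Finset.mem_erase]
          constructor
          · rintro ⟨h1, h2, h3⟩
            by_cases hcu : c = u
            · exact Or.inl hcu
            · exact Or.inr ⟨⟨hcu, h1⟩, h2, h3⟩
          · rintro (rfl | ⟨⟨h1, h2⟩, h3, h4⟩)
            · exact ⟨huS, hur, hvp.symm⟩
            · exact ⟨h2, h3, h4⟩
        have e2 : u ∉ AntiSid.ch par S' r v := by
          simp [AntiSid.ch, hS']
        rw [e1, Finset.prod_insert e2, hφ', hvp, Function.update_self]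
        ring
      · have e1 : AntiSid.ch par S r v = AntiSid.ch par S' r v := by
          ext c
          simp only [AntiSid.ch, hS', Finset.mem_filter, Finset.mem_erase]
          constructor
          · rintro ⟨h1, h2, h3⟩
            refine ⟨⟨?_, h1⟩, h2, h3⟩
            rintro rfl
            exact hvp h3.symm
          · rintro ⟨⟨h1, h2⟩, h3, h4⟩
            exact ⟨h2, h3, h4⟩
        rw [e1, hφ', Function.update_of_ne hvp]
    have hih := ih S'.card hlt S' r rfl hR' φ' Φ hφ'0 hΦ'
    -- the elimination step
    set H : (V → W) → ℝ := fun f =>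
      (∏ v ∈ S', φ v (f v)) * AntiSid.FS G par (fun c => !o c) S' r f with hH
    have hH0 : ∀ f, 0 ≤ H f := fun f =>
      mul_nonneg (Finset.prod_nonneg fun v _ => hφ _ _) (AntiSid.FS_nonneg _ _ _ _ _ _)
    have hHu : ∀ f z, H (Function.update f u z) = H f := by
      intro f z
      simp only [hH]
      congr 1
      · refine Finset.prod_congr rfl fun v hv => ?_
        rw [Function.update_of_ne (Finset.ne_of_mem_erase hv)]
      · refine AntiSid.FS_update G par _ S' r u ?_ ?_ f z
        · simp [hS']
        · intro v hv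
          refine hleaf v ?_
          simp only [hS', Finset.mem_erase] at hv ⊢
          tauto
    have hsplit : ∀ f : V → W,
        (∏ v ∈ S, φ v (f v)) * AntiSid.FS G par (fun c => !o c) S r f =
        H f * (φ u (f u) * AntiSid.ind G (!o u) (f u) (f (par u))) := by
      intro f
      simp only [hH]
      have e1 : ∏ v ∈ S, φ v (f v) = φ u (f u) * ∏ v ∈ S', φ v (f v) :=
        (Finset.mul_prod_erase S (fun v => φ v (f v)) huS).symm
      have e2 : AntiSid.FS G par (fun c => !o c) S r f =
          AntiSid.ind G (!o u) (f u) (f (par u)) *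
            AntiSid.FS G par (fun c => !o c) S' r f := by
        unfold AntiSid.FS
        have e3 : S'.erase r = (S.erase r).erase u := by
          ext c
          simp only [hS', Finset.mem_erase]
          tauto
        rw [e3]
        exact (Finset.mul_prod_erase (S.erase r)
          (fun v => AntiSid.ind G (!o v) (f v) (f (par v))) hu).symm
      rw [e1, e2]
      ring
    have hfree := AntiSid.free_coord H
      (fun w f => φ u w * AntiSid.ind G (!o u) w (f (par u))) u hHu
      (fun w f z => by rw [Function.update_of_ne hpu])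
    have hstep : (Fintype.card W : ℝ) *
        ∑ f : V → W, (∏ v ∈ S, φ v (f v)) * AntiSid.FS G par (fun c => !o c) S r f ≤
        (Fintype.card W : ℝ) * ((1 / 2) * ∑ f : V → W, H f * g (f (par u))) := by
      simp_rw [hsplit]
      rw [hfree, Finset.mul_sum, Finset.mul_sum]
      refine Finset.sum_le_sum fun f _ => ?_
      have e1 : ∑ z, φ u z * AntiSid.ind G (!o u) z (f (par u)) ≤
          (Fintype.card W : ℝ) * ((1 / 2) * g (f (par u))) := by
        have e2 : (Fintype.card W : ℝ) * g (f (par u)) =
            ∑ z, (if o u then KG G (f (par u)) z else KG G z (f (par u))) * φ u z := by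
          simp only [hg, Kd, av, hΦu]
          field_simp
        calc ∑ z, φ u z * AntiSid.ind G (!o u) z (f (par u)) ≤
            ∑ z, (1 / 2) * ((if o u then KG G (f (par u)) z else KG G z (f (par u))) * φ u z) := by
              refine Finset.sum_le_sum fun z _ => ?_
              have := mul_le_mul_of_nonneg_left (ind_le G (o u) z (f (par u))) (hφ u z)
              calc _ ≤ _ := this
                _ = _ := by ring
          _ = (1 / 2) * ((Fintype.card W : ℝ) * g (f (par u))) := by
              rw [e2, Finset.mul_sum]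
          _ = _ := by ring
      calc H f * ∑ z, φ u z * AntiSid.ind G (!o u) z (f (par u)) ≤
          H f * ((Fintype.card W : ℝ) * ((1 / 2) * g (f (par u)))) :=
            mul_le_mul_of_nonneg_left e1 (hH0 f)
        _ = _ := by ring
    have hstep2 := le_of_mul_le_mul_left hstep hW
    have e5 : ∑ f : V → W, H f * g (f (par u)) =
        ∑ f : V → W, (∏ v ∈ S', φ' v (f v)) * AntiSid.FS G par (fun c => !o c) S' r f := by
      refine Finset.sum_congr rfl fun f _ => ?_
      rw [hφ', prod_update S' φ hpS' g f]
      simp only [hH]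
      ring
    rw [e5] at hstep2
    calc _ ≤ _ := hstep2
      _ ≤ (1 / 2) * ((Fintype.card W : ℝ) ^ (Fintype.card V) * (1 / 2) ^ (S'.card - 1) *
            av (Φ r)) := mul_le_mul_of_nonneg_left hih (by norm_num)
      _ = _ := by rw [hcard, pow_succ]; ring

end ELIM_

theorem p_ELIM : T_ELIM := by
  intro V _ _ par dep S r h W _ _ _ G o _
  obtain ⟨F, hF⟩ := ELIM_.exists_F h (KG G) o
  refine ⟨F, hF, ?_⟩
  have := ELIM_.elim (par := par) (dep := dep) G o S.card S r rfl h (fun _ _ => 1) F
    (fun _ _ => zero_le_one) (fun v hv => by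
      rw [hF v hv]
      funext x
      rw [one_mul])
  simpa using this

end

end Pool.Agent.TLT
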