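import Pool.Agent.TLT.Targets

set_option autoImplicit false

/-!
# Trees with long threads in tournaments (MP_d27362_co): the kernel of a tournament
-/

namespace Pool.Agent.TLT

/-- the kernel of a tournament is a kernel -/
theorem p_KER : T_KER := by
  classical
  intro W _ _ G hG
  constructor
  · intro x y
    unfold KG
    have := AntiSid.ind_nonneg G true x y
    split_ifs <;> linarith
  · intro x y
    unfold KG AntiSid.ind
    by_cases h : x = y
    · subst h
      have := hG.1 x
      simp [this]
      norm_num
    · have h1 := hG.2 x y h
      by_cases h2 : G x y
      · have h3 : ¬ G y x := h1.1 h2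
        simp [h2, h3, h, Ne.symm h]
      · have h3 : G y x := by
          by_contra h3
          exact h2 (h1.2 h3)
        simp [h2, h3, h, Ne.symm h]

end Pool.Agent.TLT
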