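import Pool.Agent.TLT.Targets

set_option autoImplicit false

/-!
# Trees with long threads in tournaments (MP_d27362_co): trees with long threads
-/

namespace Pool.Agent.TLT

open Finset Polynomial
open scoped BigOperators

/-- trees with long threads -/
theorem p_CORE (h1 : T_KER) (h2 : T_ELIM) (h3 : T_CHOICE) (h4 : T_DESC) (h5 : T_STEP)
    (h6 : T_ROOT) (h7 : T_FAR) : T_CORE := by
  intro V _ _ par dep S r hR hroot hlen
  obtain ⟨a, o, hao⟩ := h3 V par dep S r hR
  refine ⟨fun c => !o c, ?_⟩
  intro W _ _ G hW hG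
  obtain ⟨F, hF, hsum⟩ := h2 V par dep S r hR W G o hG
  refine hsum.trans ?_
  have hK := h1 W G hG
  set K := KG G with hKdef
  have hmain : av (F r) ≤ 1 := by
    obtain ⟨L, hL⟩ : ∃ L : ℕ, L = 1000000 := ⟨_, rfl⟩
    have hdesc := h4 V par dep S r hR W K F a o hF (fun v hv => (hao v hv).1)
      (fun v hv => (hao v hv).2.1)
    have key : ∀ v ∈ S, (v = r ∨ (AntiSid.ch par S r v).card ≠ 1) →
        ∀ c ∈ AntiSid.ch par S r v, ∃ (j : ℕ) (b : V), b ∈ S ∧ b ≠ r ∧
          (AntiSid.ch par S r b).card ≠ 1 ∧ L ≤ j + 1 ∧ F c = (Kd K true)^[j] (F b) ∧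
          a c = gm j + X ^ j * a b ∧ dep v < dep b := by
      intro v hv hv1 c hc
      have hc' := hc
      unfold AntiSid.ch at hc'
      rw [mem_filter] at hc'
      obtain ⟨hcS, hcr, hcv⟩ := hc'
      obtain ⟨j, b, hb, hbr, hb1, hj, hFj, haj, hdj⟩ := hdesc c hcS hcr
      have hdc := hR.hdep c hcS hcr
      rw [hcv] at hdc
      refine ⟨j, b, hb, hbr, hb1, ?_, hFj, haj, by omega⟩
      by_contra hlt
      have h8 := hlen b hb hbr hb1 (j + 1) (by omega) (by omega)
      rw [Function.iterate_succ_apply', hj, hcv] at h8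
      rcases hv1 with h | h
      · exact h8.1 h
      · exact h h8.2
    obtain ⟨N, hN⟩ : ∃ N : ℕ, ∀ v : V, dep v ≤ N :=
      ⟨univ.sup dep, fun v => Finset.le_sup (mem_univ v)⟩
    have hrS := hR.hr
    -- the root
    have hrt : ∀ (P : (W → ℝ) → ℝ[X] → Prop), (∀ b ∈ S, b ≠ r →
        (AntiSid.ch par S r b).card ≠ 1 → P (F b) (a b)) →
        (∀ (f : W → ℝ) (p : ℝ[X]), P f p → ∀ j, L ≤ j → av ((Kd K true)^[j] f) ≤ 1) →
        av (F r) ≤ 1 := by
      intro P hP hPr
      rcases hroot with h | h
      · have hch : AntiSid.ch par S r r = ∅ := by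
          unfold AntiSid.ch
          rw [filter_eq_empty_iff]
          intro u hu hu2
          rw [h, mem_singleton] at hu
          exact hu2.1 hu
        rw [hF r hrS, hch]
        unfold av
        have hne : (Fintype.card W : ℝ) ≠ 0 := by exact_mod_cast Fintype.card_ne_zero
        simp [hne]
      · obtain ⟨c, hc⟩ := card_eq_one.mp h
        have hcm : c ∈ AntiSid.ch par S r r := by rw [hc]; exact mem_singleton_self c
        obtain ⟨j, b, hb, hbr, hb1, hj, hFj, haj, -⟩ := key r hrS (Or.inl rfl) c hcm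
        have hoc := (hao r hrS).2.1 h c hcm
        have e : F r = (Kd K true)^[j + 1] (F b) := by
          rw [hF r hrS, hc, Function.iterate_succ_apply', ← hFj]
          funext x
          rw [prod_singleton, hoc]
        rw [e]
        exact hPr (F b) (a b) (hP b hb hbr hb1) (j + 1) hj
    rcases le_or_gt (xx K) (1 / 10000) with hx | hx
    · -- near
      have hinv : ∀ m : ℕ, ∀ b ∈ S, b ≠ r → (AntiSid.ch par S r b).card ≠ 1 →
          N + 1 ≤ dep b + m → Inv K (F b) (a b) := by
        intro m
        induction m with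
        | zero =>
          intro b hb hbr hb1 hm
          have := hN b
          omega
        | succ m ih =>
          intro b hb hbr hb1 hm
          obtain ⟨i₀, hi₀⟩ := (hao b hb).2.2 hb1
          have h8 := h5 W K hK hx V (AntiSid.ch par S r b) F a o i₀ (fun c hc => by
            obtain ⟨j, b', hb', hbr', hb1', hj, hFj, haj, hd⟩ := key b hb (Or.inr hb1) c hc
            exact ⟨j, F b', a b', hL ▸ hj, ih b' hb' hbr' hb1' (by omega), hFj, haj⟩) hi₀
          rw [hF b hb, (hao b hb).1]
          exact h8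
      exact hrt (fun f p => Inv K f p)
        (fun b hb hbr hb1 => hinv (N + 1) b hb hbr hb1 (by omega))
        (fun f p hp j hj => h6 W K hK hx f p hp j (hL ▸ hj))
    · -- far
      have hinv : ∀ m : ℕ, ∀ b ∈ S, b ≠ r → (AntiSid.ch par S r b).card ≠ 1 →
          N + 1 ≤ dep b + m → ∀ y, 0 ≤ F b y ∧ F b y ≤ 1 := by
        intro m
        induction m with
        | zero =>
          intro b hb hbr hb1 hm
          have := hN b
          omega
        | succ m ih =>
          intro b hb hbr hb1 hm y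
          have h8 : ∀ c ∈ AntiSid.ch par S r b, 0 ≤ Kd K (o c) (F c) y ∧
              Kd K (o c) (F c) y ≤ 1 := by
            intro c hc
            obtain ⟨j, b', hb', hbr', hb1', hj, hFj, haj, hd⟩ := key b hb (Or.inr hb1) c hc
            rw [hFj]
            exact (h7 W K hK hx (F b') (ih b' hb' hbr' hb1' (by omega)) j (hL ▸ hj)).2 (o c) y
          rw [hF b hb]
          exact ⟨prod_nonneg fun c hc => (h8 c hc).1,
            prod_le_one (fun c hc => (h8 c hc).1) fun c hc => (h8 c hc).2⟩
      exact hrt (fun f _ => ∀ y, 0 ≤ f y ∧ f y ≤ 1)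
        (fun b hb hbr hb1 => hinv (N + 1) b hb hbr hb1 (by omega))
        (fun f _ hf j hj => (h7 W K hK hx f hf j (by omega)).1)
  have hpos : 0 ≤ (Fintype.card W : ℝ) ^ (Fintype.card V) * (1 / 2) ^ (S.card - 1) := by
    positivity
  calc (Fintype.card W : ℝ) ^ (Fintype.card V) * (1 / 2) ^ (S.card - 1) * av (F r)
      ≤ (Fintype.card W : ℝ) ^ (Fintype.card V) * (1 / 2) ^ (S.card - 1) * 1 :=
        mul_le_mul_of_nonneg_left hmain hpos
    _ = _ := mul_one _

end Pool.Agent.TLT
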