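import Pool.Agent.TLT.Targets

set_option autoImplicit false

/-!
# Exponential decay of the number of directed walks
-/

namespace Pool.Agent.TLT

open Finset
open scoped BigOperators

namespace DECAY_

variable {W : Type} [Fintype W]

theorem av_add (f g : W → ℝ) : (av fun x => f x + g x) = av f + av g := by
  simp only [av, Finset.sum_add_distrib, add_div]

theorem av_sub (f g : W → ℝ) : (av fun x => f x - g x) = av f - av g := by
  simp only [av, Finset.sum_sub_distrib, sub_div]

theorem av_cm (c : ℝ) (f : W → ℝ) : (av fun x => c * f x) = c * av f := by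
  simp only [av, ← Finset.mul_sum, mul_div_assoc]

theorem av_const [Nonempty W] (c : ℝ) : (av fun _ : W => c) = c := by
  have : (Fintype.card W : ℝ) ≠ 0 := by
    exact_mod_cast Fintype.card_ne_zero
  simp only [av, Finset.sum_const, Finset.card_univ, nsmul_eq_mul]
  field_simp

theorem av_nonneg (f : W → ℝ) (h : ∀ x, 0 ≤ f x) : 0 ≤ av f := by
  unfold av
  exact div_nonneg (Finset.sum_nonneg fun x _ => h x) (by positivity)

theorem av_mono (f g : W → ℝ) (h : ∀ x, f x ≤ g x) : av f ≤ av g := by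
  have := av_nonneg (fun x => g x - f x) (fun x => sub_nonneg.2 (h x))
  rw [av_sub] at this
  linarith

theorem bessel [Nonempty W] (r p q : W → ℝ) (hp : av p = 0) (hq : av q = 0)
    (hpq : (av fun y => p y * q y) = 0) (P Q : ℝ) (hP : (av fun y => p y ^ 2) = P)
    (hQ : (av fun y => q y ^ 2) = Q) (hP0 : 0 < P) (hQ0 : 0 < Q) :
    av r ^ 2 + (av fun y => r y * p y) ^ 2 / P + (av fun y => r y * q y) ^ 2 / Q ≤
      av fun y => r y ^ 2 := by
  set α := av r with hα
  set β := av fun y => r y * p y with hβ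
  set γ := av fun y => r y * q y with hγ
  have h0 : 0 ≤ av fun y => (r y - α - β / P * p y - γ / Q * q y) ^ 2 :=
    av_nonneg _ fun y => sq_nonneg _
  have h1 : (av fun y => (r y - α - β / P * p y - γ / Q * q y) ^ 2) =
      (av fun y => r y ^ 2) + α ^ 2 + (β / P) ^ 2 * P + (γ / Q) ^ 2 * Q - 2 * α * α
        - 2 * (β / P) * β - 2 * (γ / Q) * γ := by
    have e1 : (fun y => (r y - α - β / P * p y - γ / Q * q y) ^ 2) =
      fun y => (r y ^ 2 + (α ^ 2 + ((β / P) ^ 2 * p y ^ 2 + ((γ / Q) ^ 2 * q y ^ 2 +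
        ((-2 * α) * r y + ((-2 * (β / P)) * (r y * p y) + ((-2 * (γ / Q)) * (r y * q y) +
        ((2 * α * (β / P)) * p y + ((2 * α * (γ / Q)) * q y +
        (2 * (β / P) * (γ / Q)) * (p y * q y)))))))))) := by
      funext y
      ring
    rw [e1, av_add, av_add, av_add, av_add, av_add, av_add, av_add, av_add, av_add, av_const,
      av_cm, av_cm, av_cm, av_cm, av_cm, av_cm, av_cm, av_cm, hp, hq, hpq, hP, hQ, ← hα, ← hβ, ← hγ]
    ring
  rw [h1] at h0
  have h2 : (β / P) ^ 2 * P = β ^ 2 / P := by field_simp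
  have h3 : (γ / Q) ^ 2 * Q = γ ^ 2 / Q := by field_simp
  have h4 : 2 * (β / P) * β = 2 * (β ^ 2 / P) := by ring
  have h5 : 2 * (γ / Q) * γ = 2 * (γ ^ 2 / Q) := by ring
  rw [h2, h3, h4, h5] at h0
  nlinarith

/-- the main estimate -/
theorem key (h1 : T_BAS) (h2 : T_TRI) [Nonempty W] (K : W → W → ℝ) (hK : Krn K) (p : W → ℝ)
    (hp : av p = 0) (D P σ e : ℝ) (hD : (av fun y => dl K y * p y) = D)
    (hP : (av fun y => p y ^ 2) = P) (hσ : (av fun y => (Sop K p y + D) ^ 2) = σ)
    (he : (av fun y => dl K y * (Sop K p y + D)) = e) :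
    σ + (1 + xx K) * D ^ 2 + 2 * D * e ≤ 7 / 8 * P := by
  obtain ⟨b1, b2, b3, -, -, -, -, b8, b9⟩ := h1 W K hK
  have hx : xx K ≤ 1 / 3 := h2 W K hK
  have hx0 : 0 ≤ xx K := av_nonneg _ fun y => sq_nonneg _
  have hP0 : 0 ≤ P := hP ▸ av_nonneg _ fun y => sq_nonneg _
  have hσ0 : 0 ≤ σ := hσ ▸ av_nonneg _ fun y => sq_nonneg _
  have hDx : D ^ 2 ≤ xx K * P := by
    rw [← hD, ← hP]
    exact b9 _ _
  -- average of S p
  have hSp : av (Sop K p) = - D := by
    have := b2 p (fun _ => 1)
    simp only [mul_one] at this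
    rw [show av (Sop K p) = av fun x => Sop K p x from rfl, this, ← hD]
    congr 2
    funext x
    exact mul_comm _ _
  have hSq : (av fun y => Sop K p y ^ 2) = σ + D ^ 2 := by
    have e1 : (fun y => (Sop K p y + D) ^ 2) =
        fun y => Sop K p y ^ 2 + ((2 * D) * Sop K p y + D ^ 2) := by
      funext y
      ring
    have : (av fun y => Sop K p y) = - D := hSp
    rw [e1, av_add, av_add, av_cm, av_const, this] at hσ
    linarith
  have hq1 : (av fun y => Sop K p y + D) = 0 := by
    have : (av fun y => Sop K p y) = - D := hSp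
    rw [av_add, av_const, this]
    ring
  have hSpp : (av fun y => Sop K p y * p y) = 0 := by
    have := b2 p p
    have e1 : (av fun x => p x * Sop K p x) = av fun x => Sop K p x * p x := by
      congr 1
      funext x
      exact mul_comm _ _
    rw [e1] at this
    linarith
  have hpq : (av fun y => p y * (Sop K p y + D)) = 0 := by
    have e1 : (fun y => p y * (Sop K p y + D)) = fun y => Sop K p y * p y + D * p y := by
      funext y
      ring
    rw [e1, av_add, av_cm, hSpp, hp]
    ring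
  have he' : (av fun y => dl K y * Sop K p y) = e := by
    have e1 : (fun y => dl K y * (Sop K p y + D)) =
        fun y => dl K y * Sop K p y + D * dl K y := by
      funext y
      ring
    rw [e1, av_add, av_cm, show (av fun y => dl K y) = 0 from b3] at he
    linarith
  have hex : e ^ 2 ≤ xx K * σ := by
    rw [← he, ← hσ]
    exact b9 _ _
  have hσP : σ + D ^ 2 ≤ P := by
    rw [← hSq, ← hP]
    rw [show (av fun y => p y ^ 2) = av fun _ : W => av fun y => p y ^ 2 from (av_const _).symm]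
    apply av_mono
    intro y
    have h3 := b1 p y
    have h4 := b8 p
    calc Sop K p y ^ 2 = |Sop K p y| ^ 2 := (sq_abs _).symm
      _ ≤ (av fun y => |p y|) ^ 2 := by
        apply pow_le_pow_left₀ (abs_nonneg _) h3
      _ ≤ _ := h4
  rcases hP0.eq_or_lt with hP1 | hP1
  · rw [← hP1] at hDx hσP
    have hD0 : D = 0 := by
      have : D ^ 2 ≤ 0 := by linarith
      exact pow_eq_zero_iff (two_ne_zero) |>.1 (le_antisymm this (sq_nonneg _))
    rw [hD0, ← hP1]
    rw [hD0] at hσP
    linarith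
  rcases hσ0.eq_or_lt with hs1 | hs1
  · rw [← hs1] at hex
    have he0 : e = 0 := by
      have : e ^ 2 ≤ 0 := by linarith
      exact pow_eq_zero_iff (two_ne_zero) |>.1 (le_antisymm this (sq_nonneg _))
    rw [he0, ← hs1]
    nlinarith
  -- main case
  have hrow : ∀ x : W, dl K x ^ 2 + Sop K p x ^ 2 / P + Sop K (fun y => Sop K p y + D) x ^ 2 / σ
      ≤ 1 := by
    intro x
    have h3 := bessel (fun y => K x y - 1) p (fun y => Sop K p y + D) hp hq1 hpq P σ hP hσ hP1 hs1
    have h4 : (av fun y => (K x y - 1) ^ 2) ≤ 1 := by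
      refine (av_mono _ (fun _ : W => (1 : ℝ)) ?_).trans (av_const (W := W) 1).le
      intro y
      have := hK.nonneg x y
      have := hK.nonneg y x
      have := hK.add x y
      nlinarith
    have h5 : av (fun y => K x y - 1) = dl K x := by
      show _ = av fun y => (K x y - 1) * 1
      simp only [mul_one]
    rw [h5] at h3
    exact h3.trans h4
  have hav : xx K + (σ + D ^ 2) / P +
      (av fun x => Sop K (fun y => Sop K p y + D) x ^ 2) / σ ≤ 1 := by
    have h3 := av_mono _ _ hrow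
    have e1 : (fun x => dl K x ^ 2 + Sop K p x ^ 2 / P +
        Sop K (fun y => Sop K p y + D) x ^ 2 / σ) =
        fun x => (dl K x ^ 2 + (1 / P) * Sop K p x ^ 2) +
        (1 / σ) * Sop K (fun y => Sop K p y + D) x ^ 2 := by
      funext x
      ring
    rw [e1, av_add, av_add, av_cm, av_cm, av_const, hSq] at h3
    have e2 : (av fun x => dl K x ^ 2) = xx K := rfl
    rw [e2] at h3
    calc _ = xx K + 1 / P * (σ + D ^ 2) +
        1 / σ * (av fun x => Sop K (fun y => Sop K p y + D) x ^ 2) := by ring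
      _ ≤ 1 := h3
  have hSqq : σ ^ 2 / P + e ^ 2 ≤ av fun x => Sop K (fun y => Sop K p y + D) x ^ 2 := by
    -- Bessel for the functions 1 and p
    have c1 : av (Sop K fun y => Sop K p y + D) = - e := by
      have := b2 (fun y => Sop K p y + D) (fun _ => 1)
      simp only [mul_one] at this
      rw [show av (Sop K fun y => Sop K p y + D) =
        av fun x => Sop K (fun y => Sop K p y + D) x from rfl, this, ← he]
      congr 2
      funext x
      exact mul_comm _ _
    have c2 : (av fun x => Sop K (fun y => Sop K p y + D) x * p x) = - σ := by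
      rw [b2]
      have e1 : (fun x => (Sop K p x + D) * Sop K p x) =
          fun x => Sop K p x ^ 2 + D * Sop K p x := by
        funext x
        ring
      have e2 : (av fun y => Sop K p y) = - D := hSp
      rw [e1, av_add, av_cm, hSq, e2]
      ring
    have c3 : 0 ≤ av fun x => (Sop K (fun y => Sop K p y + D) x + e + σ / P * p x) ^ 2 :=
      av_nonneg _ fun y => sq_nonneg _
    have e1 : (fun x => (Sop K (fun y => Sop K p y + D) x + e + σ / P * p x) ^ 2) =
        fun x => (Sop K (fun y => Sop K p y + D) x ^ 2 +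
          (e ^ 2 + ((σ / P) ^ 2 * p x ^ 2 + ((2 * e) * Sop K (fun y => Sop K p y + D) x +
          ((2 * (σ / P)) * (Sop K (fun y => Sop K p y + D) x * p x) +
            (2 * e * (σ / P)) * p x))))) := by
      funext x
      ring
    have e2 : (av fun x => Sop K (fun y => Sop K p y + D) x) = - e := c1
    have e3 : (av fun x => p x) = 0 := hp
    rw [e1, av_add, av_add, av_add, av_add, av_add, av_const, av_cm, av_cm, av_cm, av_cm, hP, c2,
      e2, e3] at c3
    have e4 : (σ / P) ^ 2 * P = σ ^ 2 / P := by field_simp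
    have e5 : 2 * (σ / P) * (-σ) = - 2 * (σ ^ 2 / P) := by ring
    rw [e4, e5] at c3
    nlinarith
  have hdl : D ^ 2 / P + e ^ 2 / σ ≤ xx K := by
    have h3 := bessel (dl K) p (fun y => Sop K p y + D) hp hq1 hpq P σ hP hσ hP1 hs1
    rw [hD, he, b3] at h3
    have e2 : (av fun x => dl K x ^ 2) = xx K := rfl
    rw [e2] at h3
    linarith
  -- normalised quantities
  obtain ⟨t, ht⟩ : ∃ t, t = σ / P := ⟨_, rfl⟩
  obtain ⟨a, ha⟩ : ∃ a, a = D ^ 2 / P := ⟨_, rfl⟩
  obtain ⟨b, hb⟩ : ∃ b, b = e ^ 2 / σ := ⟨_, rfl⟩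
  have ht0 : 0 < t := ht ▸ div_pos hs1 hP1
  have ha0 : 0 ≤ a := ha ▸ div_nonneg (sq_nonneg _) hP0
  have hb0 : 0 ≤ b := hb ▸ div_nonneg (sq_nonneg _) hσ0
  have htP : σ = t * P := by rw [ht]; field_simp
  have haP : D ^ 2 = a * P := by rw [ha]; field_simp
  have hbs : e ^ 2 = b * (t * P) := by rw [hb, ← htP]; field_simp
  have hmain : xx K + 2 * t + a + b ≤ 1 := by
    have h3 : (σ ^ 2 / P + e ^ 2) / σ ≤
        (av fun x => Sop K (fun y => Sop K p y + D) x ^ 2) / σ :=
      div_le_div_of_nonneg_right hSqq hσ0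
    have h4 : (σ ^ 2 / P + e ^ 2) / σ = t + b := by
      rw [ht, hb]
      field_simp
    have h5 : (σ + D ^ 2) / P = t + a := by
      rw [ht, ha]
      field_simp
    rw [h4] at h3
    rw [h5] at hav
    linarith
  have hr : a + b ≤ xx K := by
    rw [ha, hb]
    exact hdl
  have ht1 : t ≤ 9 / 16 := by linarith
  have hDe : 2 * D * e ≤ 3 / 4 * (a + b) * P := by
    apply le_of_abs_le
    apply abs_le_of_sq_le_sq _ (by positivity)
    have e1 : (2 * D * e) ^ 2 = 4 * (a * P) * (b * (t * P)) := by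
      rw [← haP, ← hbs]
      ring
    rw [e1]
    have e2 : 4 * (a * P) * (b * (t * P)) ≤ 4 * (a * P) * (b * (9 / 16 * P)) := by
      apply mul_le_mul_of_nonneg_left _ (by positivity)
      apply mul_le_mul_of_nonneg_left _ hb0
      apply mul_le_mul_of_nonneg_right ht1 hP0
    refine e2.trans ?_
    have : 0 ≤ (a - b) ^ 2 * P ^ 2 := by positivity
    nlinarith
  rw [htP, haP]
  have h6 : (1 + xx K) * (a * P) ≤ 4 / 3 * (a * P) := by
    apply mul_le_mul_of_nonneg_right _ (by positivity)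
    linarith
  have h7 : t * P + 4 / 3 * (a * P) + 3 / 4 * (a + b) * P ≤ 7 / 8 * P := by
    have : t + 4 / 3 * a + 3 / 4 * (a + b) ≤ 7 / 8 := by linarith
    calc _ = (t + 4 / 3 * a + 3 / 4 * (a + b)) * P := by ring
      _ ≤ _ := mul_le_mul_of_nonneg_right this hP0
  linarith

/-- the Lyapunov function -/
noncomputable def Vf (K : W → W → ℝ) (f : W → ℝ) : ℝ :=
  av f ^ 2 - 2 * (1 / (1 + xx K)) * av f * (av fun y => dl K y * (f y - av f)) +
    1 / (1 + xx K) * av fun y => (f y - av f) ^ 2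

theorem bounds (h1 : T_BAS) [Nonempty W] (K : W → W → ℝ) (hK : Krn K) (f : W → ℝ) :
    2 * |av f * (av fun y => dl K y * (f y - av f))| ≤ xx K * av f ^ 2 +
      av fun y => (f y - av f) ^ 2 := by
  obtain ⟨-, -, -, -, -, -, -, -, b9⟩ := h1 W K hK
  have hx0 : 0 ≤ xx K := av_nonneg _ fun y => sq_nonneg _
  set P := av fun y => (f y - av f) ^ 2 with hP
  set D := av fun y => dl K y * (f y - av f) with hD
  have hP0 : 0 ≤ P := av_nonneg _ fun y => sq_nonneg _
  have hDx : D ^ 2 ≤ xx K * P := b9 _ _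
  rw [show 2 * |av f * D| = |2 * (av f * D)| by rw [abs_mul (2 : ℝ) (av f * D), abs_two]]
  apply abs_le_of_sq_le_sq _ (by positivity)
  have h3 : (2 * (av f * D)) ^ 2 = 4 * av f ^ 2 * D ^ 2 := by ring
  rw [h3]
  have h4 : 4 * av f ^ 2 * D ^ 2 ≤ 4 * av f ^ 2 * (xx K * P) :=
    mul_le_mul_of_nonneg_left hDx (by positivity)
  refine h4.trans ?_
  nlinarith [sq_nonneg (xx K * av f ^ 2 - P)]

theorem step (h1 : T_BAS) (h2 : T_TRI) [Nonempty W] (K : W → W → ℝ) (hK : Krn K) (f : W → ℝ) :
    Vf K (Kd K true f) ≤ (1 - xx K / 6) * Vf K f := by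
  obtain ⟨b1, b2, b3, b4, -, -, -, b8, b9⟩ := h1 W K hK
  have hx : xx K ≤ 1 / 3 := h2 W K hK
  have hx0 : 0 ≤ xx K := av_nonneg _ fun y => sq_nonneg _
  have hbd := bounds h1 K hK f
  obtain ⟨p, hp⟩ : ∃ p : W → ℝ, ∀ y, p y = f y - av f := ⟨_, fun _ => rfl⟩
  have hf : f = fun y => p y + av f := by
    funext y
    rw [hp]
    ring
  have hp0 : av p = 0 := by
    have : av f = av fun y => p y + av f := by rw [← hf]
    rw [av_add, av_const] at this
    have e1 : (av fun x => p x) = av p := rfl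
    linarith
  obtain ⟨m, hm⟩ : ∃ m, m = av f := ⟨_, rfl⟩
  obtain ⟨D, hD⟩ : ∃ D, (av fun y => dl K y * p y) = D := ⟨_, rfl⟩
  obtain ⟨P, hP⟩ : ∃ P, (av fun y => p y ^ 2) = P := ⟨_, rfl⟩
  obtain ⟨σ, hσ⟩ : ∃ σ, (av fun y => (Sop K p y + D) ^ 2) = σ := ⟨_, rfl⟩
  obtain ⟨e, he⟩ : ∃ e, (av fun y => dl K y * (Sop K p y + D)) = e := ⟨_, rfl⟩
  have hkey := key h1 h2 K hK p hp0 D P σ e hD hP hσ he
  have hD' : (av fun y => dl K y * (f y - av f)) = D := by
    simp only [← hp]
    exact hD
  have hP' : (av fun y => (f y - av f) ^ 2) = P := by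
    simp only [← hp]
    exact hP
  rw [hD', hP', ← hm] at hbd
  have hSp : (av fun y => Sop K p y) = - D := by
    have := b2 p (fun _ => 1)
    simp only [mul_one] at this
    rw [this, ← hD]
    congr 2
    funext x
    exact mul_comm _ _
  have hSf : ∀ y, Sop K f y = Sop K p y + m * dl K y := by
    intro y
    have e1 : f = p + m • (fun _ => (1 : ℝ)) := by
      funext z
      rw [Pi.add_apply, Pi.smul_apply, smul_eq_mul, mul_one, hp, hm]
      ring
    have e2 : Sop K f = Sop K p + m • dl K := by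
      conv_lhs => rw [e1]
      rw [map_add, map_smul]
      rfl
    rw [e2]
    rfl
  have hKf : ∀ y, Kd K true f y = m + (Sop K p y + m * dl K y) := by
    intro y
    rw [b4, hSf, ← hm]
  have hKf' : Kd K true f = fun y => m + (Sop K p y + m * dl K y) := funext hKf
  have hm' : av (Kd K true f) = m - D := by
    rw [hKf', av_add, av_add, av_cm, av_const, hSp, show (av fun y => dl K y) = 0 from b3]
    ring
  have hdd : (av fun y => dl K y ^ 2) = xx K := rfl
  have hpp : ∀ y, Kd K true f y - av (Kd K true f) = m * dl K y + (Sop K p y + D) := by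
    intro y
    rw [hKf, hm']
    ring
  have hDn : (av fun y => dl K y * (Kd K true f y - av (Kd K true f))) = m * xx K + e := by
    simp only [hpp]
    have e1 : (fun y => dl K y * (m * dl K y + (Sop K p y + D))) =
        fun y => m * dl K y ^ 2 + dl K y * (Sop K p y + D) := by
      funext y
      ring
    rw [e1, av_add, av_cm, he, hdd]
  have hPn : (av fun y => (Kd K true f y - av (Kd K true f)) ^ 2) =
      m ^ 2 * xx K + 2 * m * e + σ := by
    simp only [hpp]
    have e1 : (fun y => (m * dl K y + (Sop K p y + D)) ^ 2) =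
        fun y => (m ^ 2 * dl K y ^ 2 + (2 * m) * (dl K y * (Sop K p y + D))) +
          (Sop K p y + D) ^ 2 := by
      funext y
      ring
    rw [e1, av_add, av_add, av_cm, av_cm, he, hσ, hdd]
  unfold Vf
  rw [hDn, hPn, hm', hD', hP', ← hm]
  obtain ⟨x, hxe⟩ : ∃ x, x = xx K := ⟨_, rfl⟩
  rw [← hxe] at hbd hkey hx hx0 ⊢
  obtain ⟨g, hg⟩ : ∃ g, g = 1 / (1 + x) := ⟨_, rfl⟩
  have hg1 : g * (1 + x) = 1 := by
    rw [hg]
    field_simp
  have hgx : g * x = 1 - g := by linarith
  have hg0 : 3 / 4 ≤ g := by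
    rw [hg, div_le_div_iff₀ (by norm_num) (by linarith)]
    linarith
  have hgle : g ≤ 1 := by nlinarith
  rw [← hg]
  have hP0 : 0 ≤ P := hP ▸ av_nonneg _ fun y => sq_nonneg _
  have hid : (m - D) ^ 2 - 2 * g * (m - D) * (m * x + e) + g * (m ^ 2 * x + 2 * m * e + σ) =
      (m ^ 2 - 2 * g * m * D + g * P) - g * x * m ^ 2 -
        g * (P - σ - (1 + x) * D ^ 2 - 2 * D * e) := by
    have h3 : g = 1 - g * x := by linarith
    have h4 : D ^ 2 = (g * (1 + x)) * D ^ 2 := by rw [hg1]; ring
    have h5 : m * D = (g * (1 + x)) * (m * D) := by rw [hg1]; ring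
    linear_combination (-2 * (m * D) + D ^ 2) * (-1) * hg1
  rw [hid]
  have hk2 : g * (1 / 8 * P) ≤ g * (P - σ - (1 + x) * D ^ 2 - 2 * D * e) :=
    mul_le_mul_of_nonneg_left (by linarith) (by linarith)
  have hV : m ^ 2 - 2 * g * m * D + g * P ≤ m ^ 2 * (1 + g * x) + 2 * g * P := by
    have h3 : - (2 * (m * D)) ≤ x * m ^ 2 + P := by
      have := neg_abs_le (m * D)
      linarith
    have h4 : g * (- (2 * (m * D))) ≤ g * (x * m ^ 2 + P) :=
      mul_le_mul_of_nonneg_left h3 (by linarith)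
    nlinarith
  have hfin : x / 6 * (m ^ 2 - 2 * g * m * D + g * P) ≤ g * x * m ^ 2 + g * (1 / 8 * P) := by
    have h3 : x / 6 * (m ^ 2 - 2 * g * m * D + g * P) ≤
        x / 6 * (m ^ 2 * (1 + g * x) + 2 * g * P) :=
      mul_le_mul_of_nonneg_left hV (by linarith)
    refine h3.trans ?_
    have h4 : x / 6 * (1 + g * x) ≤ g * x := by
      have : (1 + g * x) / 6 ≤ g := by linarith
      nlinarith
    have h5 : x / 6 * (2 * g) ≤ g * (1 / 8) := by
      nlinarith
    have h6 := mul_le_mul_of_nonneg_right h4 (sq_nonneg m)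
    have h7 := mul_le_mul_of_nonneg_right h5 hP0
    nlinarith
  linarith

end DECAY_

open DECAY_ in
theorem p_DECAY (h1 : T_BAS) (h2 : T_TRI) : T_DECAY := by
  intro W _ _ K hK j
  have hx : xx K ≤ 1 / 3 := h2 W K hK
  have hx0 : 0 ≤ xx K := av_nonneg _ fun y => sq_nonneg _
  have hV : ∀ j : ℕ, Vf K ((Kd K true)^[j] fun _ => 1) ≤ (1 - xx K / 6) ^ j := by
    intro j
    induction j with
    | zero =>
      rw [Function.iterate_zero, id, pow_zero]
      unfold Vf
      have e1 : av (fun _ : W => (1 : ℝ)) = 1 := av_const 1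
      rw [e1]
      have e2 : (av fun y : W => dl K y * ((1 : ℝ) - 1)) = 0 := by
        simp only [sub_self, mul_zero]
        exact av_const 0
      have e3 : (av fun _ : W => ((1 : ℝ) - 1) ^ 2) = 0 := by
        rw [av_const]
        norm_num
      rw [e2, e3]
      norm_num
    | succ j ih =>
      rw [Function.iterate_succ_apply']
      refine (step h1 h2 K hK _).trans ?_
      rw [pow_succ']
      exact mul_le_mul_of_nonneg_left ih (by linarith)
  have h3 := hV j
  set f := (Kd K true)^[j] fun _ => 1 with hf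
  have hb := bounds h1 K hK f
  have hg0 : 3 / 4 ≤ 1 / (1 + xx K) := by
    rw [div_le_div_iff₀ (by norm_num) (by linarith)]
    linarith
  have hg1 : 1 / (1 + xx K) * (1 + xx K) = 1 := by
    field_simp
  have h4 : 3 / 4 * av f ^ 2 ≤ Vf K f := by
    unfold Vf
    obtain ⟨g, hg⟩ : ∃ g, g = 1 / (1 + xx K) := ⟨_, rfl⟩
    rw [← hg] at hg0 hg1 ⊢
    obtain ⟨D, hD⟩ : ∃ D, (av fun y => dl K y * (f y - av f)) = D := ⟨_, rfl⟩
    obtain ⟨P, hP⟩ : ∃ P, (av fun y => (f y - av f) ^ 2) = P := ⟨_, rfl⟩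
    rw [hD, hP] at hb ⊢
    have h5 : 2 * (av f * D) ≤ xx K * av f ^ 2 + P := by
      have := le_abs_self (av f * D)
      linarith
    have h6 := mul_le_mul_of_nonneg_left h5 (show (0 : ℝ) ≤ g by linarith)
    nlinarith [sq_nonneg (av f)]
  have h5 : av f ^ 2 ≤ 4 / 3 * Vf K f := by linarith
  exact h5.trans (mul_le_mul_of_nonneg_left h3 (by norm_num))

end Pool.Agent.TLT
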