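import Pool.Agent.TLT.Targets

set_option autoImplicit false

/-!
# The description of a vertex of a thread
-/

namespace Pool.Agent.TLT

open Finset Polynomial
open scoped BigOperators

noncomputable section

namespace DESC_

theorem gm_succ (j : ℕ) (a : ℝ[X]) :
    gm (j + 1) + X ^ (j + 1) * a = 1 + X * (gm j + X ^ j * a) := by
  unfold gm
  rw [Finset.sum_range_succ', pow_zero, mul_add, Finset.mul_sum, pow_succ]
  have : ∑ i ∈ range j, (X : ℝ[X]) ^ (i + 1) = ∑ i ∈ range j, X * X ^ i :=
    Finset.sum_congr rfl fun i _ => by rw [pow_succ]; ring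
  rw [this]
  ring

end DESC_

open DESC_ in
theorem p_DESC : T_DESC := by
  intro V _ _ par dep S r hR W _ K F a o hF ha ho
  obtain ⟨N, hN⟩ : ∃ N : ℕ, ∀ v : V, dep v ≤ N :=
    ⟨univ.sup dep, fun v => Finset.le_sup (mem_univ v)⟩
  suffices h : ∀ m : ℕ, ∀ v ∈ S, v ≠ r → N + 1 ≤ dep v + m → ∃ (j : ℕ) (b : V), b ∈ S ∧
      b ≠ r ∧ (AntiSid.ch par S r b).card ≠ 1 ∧ par^[j] b = v ∧ F v = (Kd K true)^[j] (F b) ∧
      a v = gm j + X ^ j * a b ∧ dep v + j ≤ dep b from
    fun v hv hvr => h (N + 1) v hv hvr (by omega)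
  intro m
  induction m with
  | zero =>
    intro v hv hvr hm
    have := hN v
    omega
  | succ m ih =>
    intro v hv hvr hm
    by_cases h1 : (AntiSid.ch par S r v).card = 1
    · obtain ⟨c, hc⟩ := card_eq_one.mp h1
      have hcm : c ∈ AntiSid.ch par S r v := by rw [hc]; exact mem_singleton_self c
      have hcm' := hcm
      unfold AntiSid.ch at hcm'
      rw [mem_filter] at hcm'
      obtain ⟨hcS, hcr, hcv⟩ := hcm'
      have hdep : dep v < dep c := by
        have := hR.hdep c hcS hcr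
        rwa [hcv] at this
      obtain ⟨j, b, hb, hbr, hb1, hj, hFj, haj, hdj⟩ := ih c hcS hcr (by omega)
      have hoc := ho v hv h1 c hcm
      refine ⟨j + 1, b, hb, hbr, hb1, ?_, ?_, ?_, by omega⟩
      · rw [Function.iterate_succ_apply', hj, hcv]
      · rw [hF v hv, hc, Function.iterate_succ_apply', ← hFj]
        funext x
        rw [prod_singleton, hoc]
      · rw [ha v hv, hc, sum_singleton, hoc, gm_succ, haj]
        simp [sg]
    · exact ⟨0, v, hv, hvr, h1, rfl, rfl, by simp [gm], le_rfl⟩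

end

end Pool.Agent.TLT
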