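import Pool.Agent.TLT.Targets

set_option autoImplicit false

/-!
# Trees with long threads in tournaments (MP_d27362_co): irregular tournaments
-/

namespace Pool.Agent.TLT

open Finset Polynomial
open scoped BigOperators

namespace FAR_

lemma av_mono {W : Type} [Fintype W] {f g : W → ℝ} (h : ∀ y, f y ≤ g y) : av f ≤ av g := by
  unfold av
  exact div_le_div_of_nonneg_right (Finset.sum_le_sum fun y _ => h y) (Nat.cast_nonneg _)

lemma Kd_nonneg {W : Type} [Fintype W] {K : W → W → ℝ} (hK : Krn K) (b : Bool) {f : W → ℝ}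
    (hf : ∀ y, 0 ≤ f y) (x : W) : 0 ≤ Kd K b f x := by
  unfold Kd av
  apply div_nonneg _ (Nat.cast_nonneg _)
  refine Finset.sum_nonneg fun y _ => mul_nonneg ?_ (hf y)
  split_ifs
  · exact hK.nonneg _ _
  · exact hK.nonneg _ _

lemma iter_nonneg {W : Type} [Fintype W] {K : W → W → ℝ} (hK : Krn K) {f : W → ℝ}
    (hf : ∀ y, 0 ≤ f y) (j : ℕ) : ∀ y, 0 ≤ ((Kd K true)^[j] f) y := by
  induction j with
  | zero => simpa using hf
  | succ j ih =>
    intro y
    rw [Function.iterate_succ_apply']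
    exact Kd_nonneg hK true ih y

lemma pow_bound (y : ℝ) (hy : 1 / 60000 ≤ y) (hy1 : y ≤ 1) (j : ℕ) (hj : 999999 ≤ j) :
    (1 - y) ^ j ≤ 3 / 16 := by
  have h1 : (1 - y) ^ j ≤ Real.exp (-y) ^ j :=
    pow_le_pow_left₀ (by linarith) (Real.one_sub_le_exp_neg y) j
  refine h1.trans ?_
  rw [← Real.exp_nat_mul, mul_neg, Real.exp_neg]
  have hjr : (999999 : ℝ) ≤ j := by exact_mod_cast hj
  have h2 : 15 ≤ (j : ℝ) * y := by nlinarith
  have h3 := Real.add_one_le_exp ((j : ℝ) * y)
  have h4 : (16 : ℝ) ≤ Real.exp ((j : ℝ) * y) := by linarith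
  have h5 : (Real.exp ((j : ℝ) * y))⁻¹ ≤ (16 : ℝ)⁻¹ := inv_anti₀ (by norm_num) h4
  refine h5.trans ?_
  norm_num

end FAR_

open FAR_ in
/-- irregular tournaments -/
theorem p_FAR (h1 : T_BAS) (h2 : T_DECAY) : T_FAR := by
  intro W _ _ K hK hx F hF j hj
  obtain ⟨hS, -, -, -, -, hmono, h2av, -, -⟩ := h1 W K hK
  have hcard : (Fintype.card W : ℝ) ≠ 0 := by exact_mod_cast Fintype.card_ne_zero
  have hone : av (fun _ : W => (1 : ℝ)) = 1 := by
    unfold av
    simp [hcard]
  have hxx : xx K ≤ 1 := by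
    unfold xx
    rw [← hone]
    refine av_mono fun x => ?_
    have h3 := hS (fun _ => 1) x
    have h4 : (av fun _ : W => |(1 : ℝ)|) = 1 := by simpa using hone
    rw [h4] at h3
    have h5 : |dl K x| ≤ 1 := h3
    exact (sq_le_one_iff_abs_le_one _).2 h5
  have hdec := h2 W K hK j
  have hb := pow_bound (xx K / 6) (by linarith) (by linarith) j (by omega)
  set m := av ((Kd K true)^[j] fun _ => 1) with hm
  have hm0 : 0 ≤ m := by
    rw [hm]
    unfold av
    exact div_nonneg (Finset.sum_nonneg fun y _ => iter_nonneg hK (fun _ => zero_le_one) j y)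
      (Nat.cast_nonneg _)
  have hm2 : m ≤ 1 / 2 := by
    by_contra h
    push Not at h
    have h6 : (1 / 2 : ℝ) ^ 2 < m ^ 2 := pow_lt_pow_left₀ h (by norm_num) (by norm_num)
    have h7 : (1 / 2 : ℝ) ^ 2 = 1 / 4 := by norm_num
    linarith
  have hle : ∀ i : ℕ, ∀ y, ((Kd K true)^[i] F) y ≤ ((Kd K true)^[i] fun _ => 1) y := by
    intro i
    induction i with
    | zero => intro y; exact (hF y).2
    | succ i ih =>
      intro y
      rw [Function.iterate_succ_apply', Function.iterate_succ_apply']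
      exact hmono true _ _ ih y
  have hnn := iter_nonneg hK (fun y => (hF y).1) j
  have hav : av ((Kd K true)^[j] F) ≤ m := av_mono (hle j)
  refine ⟨by linarith, fun b y => ⟨Kd_nonneg hK b hnn y, ?_⟩⟩
  have h3 := h2av b ((Kd K true)^[j] F) y
  have h4 : (av fun y => |((Kd K true)^[j] F) y|) = av ((Kd K true)^[j] F) := by
    congr 1
    funext z
    exact abs_of_nonneg (hnn z)
  rw [h4] at h3
  linarith

end Pool.Agent.TLT
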