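import Pool.Agent.TLT.Targets

set_option autoImplicit false

/-!
# The linear part along a thread
-/

namespace Pool.Agent.TLT

open Finset Polynomial
open scoped BigOperators

noncomputable section

namespace GEO_

variable {W : Type} [Fintype W]

theorem av_add (f g : W → ℝ) : (av fun x => f x + g x) = av f + av g := by
  unfold av
  rw [Finset.sum_add_distrib, add_div]

theorem av_neg (f : W → ℝ) : (av fun x => - f x) = - av f := by
  unfold av
  rw [Finset.sum_neg_distrib, neg_div]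

theorem av_mul (c : ℝ) (f : W → ℝ) : (av fun x => c * f x) = c * av f := by
  unfold av
  rw [← Finset.mul_sum, mul_div_assoc]

theorem av_mono {f g : W → ℝ} (h : ∀ x, f x ≤ g x) : av f ≤ av g := by
  unfold av
  exact div_le_div_of_nonneg_right (Finset.sum_le_sum fun x _ => h x) (Nat.cast_nonneg _)

theorem av_nonneg {f : W → ℝ} (h : ∀ x, 0 ≤ f x) : 0 ≤ av f := by
  unfold av
  exact div_nonneg (Finset.sum_nonneg fun x _ => h x) (Nat.cast_nonneg _)

theorem av_sq_add (f g : W → ℝ) :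
    (av fun x => (f x + g x) ^ 2) ≤ 2 * (av fun x => f x ^ 2) + 2 * av fun x => g x ^ 2 := by
  rw [← av_mul, ← av_mul, ← av_add]
  apply av_mono
  intro x
  nlinarith [sq_nonneg (f x - g x)]

theorem gm_succ (j : ℕ) (a : ℝ[X]) :
    gm (j + 1) + X ^ (j + 1) * a = 1 + X * (gm j + X ^ j * a) := by
  unfold gm
  rw [Finset.sum_range_succ', pow_zero, mul_add, Finset.mul_sum, pow_succ]
  have : ∑ i ∈ range j, (X : ℝ[X]) ^ (i + 1) = ∑ i ∈ range j, X * X ^ i :=
    Finset.sum_congr rfl fun i _ => by rw [pow_succ]; ring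
  rw [this]
  ring

theorem nA_nonneg (a : ℝ[X]) : 0 ≤ nA a := by
  unfold nA
  exact Finset.sum_nonneg fun i _ => by positivity

end GEO_

open GEO_ in
theorem p_GEO (h1 : T_BAS) (h2 : T_NRM) (h3 : T_HH) (h4 : T_PV) (h5 : T_PVL) : T_GEO := by
  intro W _ _ K hK a
  obtain ⟨-, bS, bdl, -, -, -, -, -, bCS⟩ := h1 W K hK
  have hN := h2 W K hK
  obtain ⟨h, hh, hh2, hdh, hh3⟩ := h3 W K hK
  obtain ⟨hpv, -, -⟩ := h4 W K hK a
  obtain ⟨hl1, -, hl3⟩ := h5 W K
  set g : W → ℝ := fun z => pv K a z - h z with hg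
  have hxx : 0 ≤ xx K := av_nonneg fun x => sq_nonneg _
  have hA := nA_nonneg a
  have hg0 : 0 ≤ av fun x => g x ^ 2 := av_nonneg fun x => sq_nonneg _
  have hE2 : (av fun x => g x ^ 2) ≤ (6 * nA a + 2) * xx K := by
    have e : (fun x => g x ^ 2) = fun x => (pv K a x + - h x) ^ 2 := by
      funext x
      simp only [hg]
      ring
    have e2 : (av fun x => (- h x) ^ 2) = av fun x => h x ^ 2 := by
      congr 1
      funext x
      ring
    rw [e]
    refine (av_sq_add _ _).trans ?_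
    rw [e2]
    nlinarith
  set E : ℝ := Real.sqrt (av fun x => g x ^ 2) with hE
  have hEE : E ^ 2 = av fun x => g x ^ 2 := Real.sq_sqrt hg0
  have hE0 : 0 ≤ E := Real.sqrt_nonneg _
  -- iterates
  have hit : ∀ j : ℕ, (av fun x => ((Sop K)^[j] g) x ^ 2) ≤ (1 / 2 : ℝ) ^ j * E ^ 2 := by
    intro j
    induction j with
    | zero => simp [hEE]
    | succ j ih =>
      rw [Function.iterate_succ_apply']
      refine (hN _).trans ?_
      rw [pow_succ]
      nlinarith
  have hit0 : ∀ j : ℕ, 0 ≤ av fun x => ((Sop K)^[j] g) x ^ 2 := fun j =>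
    av_nonneg fun x => sq_nonneg _
  have hlam : Real.sqrt (1 / 2) ^ 2 = 1 / 2 := Real.sq_sqrt (by norm_num)
  have hlam0 : 0 ≤ Real.sqrt (1 / 2) := Real.sqrt_nonneg _
  have hlamj : ∀ j : ℕ, (Real.sqrt (1 / 2) ^ j * E) ^ 2 = (1 / 2 : ℝ) ^ j * E ^ 2 := by
    intro j
    rw [mul_pow, ← pow_mul, mul_comm j 2, pow_mul, hlam]
  have hlamj0 : ∀ j : ℕ, 0 ≤ Real.sqrt (1 / 2) ^ j * E := fun j => by positivity
  have hform : ∀ (j : ℕ), pv K (gm j + X ^ j * a) = fun y => h y + ((Sop K)^[j] g) y := by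
    intro j
    funext y
    exact hl3 h hh j a y
  have hsx : Real.sqrt (xx K) ^ 2 = xx K := Real.sq_sqrt hxx
  have hsx0 : 0 ≤ Real.sqrt (xx K) := Real.sqrt_nonneg _
  have hh0 : 0 ≤ av fun x => h x ^ 2 := av_nonneg fun x => sq_nonneg _
  -- the average
  have hav : ∀ j : ℕ, ∃ t : ℝ, |t| ≤ Real.sqrt (xx K) * (Real.sqrt (1 / 2) ^ j * E) ∧
      av (pv K (gm (j + 1) + X ^ (j + 1) * a)) = - (av fun x => h x ^ 2) - t := by
    intro j
    refine ⟨av fun x => ((Sop K)^[j] g) x * dl K x, ?_, ?_⟩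
    · have hc := bCS ((Sop K)^[j] g) (dl K)
      have hx : (av fun x => dl K x ^ 2) = xx K := rfl
      rw [hx] at hc
      apply abs_le_of_sq_le_sq _ (by have := hlamj0 j; positivity)
      refine hc.trans ?_
      rw [mul_pow, hsx, hlamj j, mul_comm (xx K)]
      exact mul_le_mul_of_nonneg_right (hit j) hxx
    · have e1 : pv K (gm (j + 1) + X ^ (j + 1) * a) =
          fun y => dl K y + Sop K (pv K (gm j + X ^ j * a)) y := by
        rw [gm_succ]
        funext y
        exact hl1 _ y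
      have e2 := bS (pv K (gm j + X ^ j * a)) (fun _ => 1)
      simp only [mul_one] at e2
      have e3 : (av fun x => pv K (gm j + X ^ j * a) x * Sop K (fun _ => 1) x) =
          (av fun x => h x ^ 2) + av fun x => ((Sop K)^[j] g) x * dl K x := by
        rw [← hdh, ← av_add]
        congr 1
        funext x
        rw [hform j]
        change (h x + ((Sop K)^[j] g) x) * dl K x = _
        ring
      rw [e1, av_add, bdl]
      have e4 : (av fun x => Sop K (pv K (gm j + X ^ j * a)) x) =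
          av (Sop K (pv K (gm j + X ^ j * a))) := rfl
      rw [← e4, e2, e3]
      ring
  refine ⟨E, hE0, hEE.le.trans hE2, ?_, ?_, ?_, ?_⟩
  · intro j
    rw [hform j]
    apply Real.sqrt_le_iff.mpr
    refine ⟨add_nonneg hsx0 (hlamj0 j), ?_⟩
    have hc := bCS h ((Sop K)^[j] g)
    have hcross : (av fun x => h x * ((Sop K)^[j] g) x) ≤
        Real.sqrt (xx K) * (Real.sqrt (1 / 2) ^ j * E) := by
      refine (le_abs_self _).trans (abs_le_of_sq_le_sq ?_ (mul_nonneg hsx0 (hlamj0 j)))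
      refine hc.trans ?_
      rw [mul_pow, hsx, hlamj j]
      exact mul_le_mul hh2 (hit j) (hit0 j) hxx
    have e : (av fun x => (h x + ((Sop K)^[j] g) x) ^ 2) = (av fun x => h x ^ 2) +
        (2 * (av fun x => h x * ((Sop K)^[j] g) x) + av fun x => ((Sop K)^[j] g) x ^ 2) := by
      rw [← av_mul, ← av_add, ← av_add]
      congr 1
      funext x
      ring
    rw [e, add_sq, hsx, hlamj j]
    have := hit j
    linarith
  · intro j
    rw [hform j]
    refine (av_sq_add _ _).trans ?_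
    have h6 := hit j
    have h7 : (1 / 2 : ℝ) ^ j ≤ (3 / 4 : ℝ) ^ j :=
      pow_le_pow_left₀ (by norm_num) (by norm_num) j
    have h8 : (0 : ℝ) ≤ (1 / 2 : ℝ) ^ j := by positivity
    have h9 : E ^ 2 ≤ (6 * nA a + 2) * xx K := hEE.le.trans hE2
    have h10 : (1 / 2 : ℝ) ^ j * E ^ 2 ≤ (3 / 4 : ℝ) ^ j * ((6 * nA a + 2) * xx K) :=
      mul_le_mul h7 h9 (sq_nonneg _) (by positivity)
    have h11 : (3 / 4 : ℝ) ^ j * ((6 * nA a + 2) * xx K) ≤
        (3 / 4 : ℝ) ^ j * ((6 * nA a + 6) * xx K) := by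
      gcongr
      norm_num
    unfold PP
    have h12 : 12 * (3 / 4 : ℝ) ^ j * ((1 + nA a) * xx K + 0) =
        2 * ((3 / 4 : ℝ) ^ j * ((6 * nA a + 6) * xx K)) := by ring
    rw [h12]
    linarith
  · intro j
    obtain ⟨t, ht, he⟩ := hav j
    rw [he]
    have := (abs_le.mp ht).1
    linarith
  · intro j
    obtain ⟨t, ht, he⟩ := hav j
    rw [he]
    have h6 := abs_le.mp ht
    rw [abs_le]
    constructor <;> linarith [h6.1, h6.2]

end

end Pool.Agent.TLT
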