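import Pool.Agent.TLT.Targets

set_option autoImplicit false

/-!
# The fixed point `h = (1 - S)⁻¹ δ`
-/

namespace Pool.Agent.TLT

open Finset Polynomial
open scoped BigOperators

namespace HH_

theorem av_add {W : Type} [Fintype W] (f g : W → ℝ) :
    (av fun x => f x + g x) = av f + av g := by
  simp only [av, Finset.sum_add_distrib, add_div]

theorem av_mul_left {W : Type} [Fintype W] (c : ℝ) (f : W → ℝ) :
    (av fun x => c * f x) = c * av f := by
  simp only [av, ← Finset.mul_sum, mul_div_assoc]

theorem av_sq_eq_zero {W : Type} [Fintype W] [Nonempty W] {f : W → ℝ}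
    (h : (av fun x => f x ^ 2) = 0) : f = 0 := by
  have hc : (0 : ℝ) < Fintype.card W := by exact_mod_cast Fintype.card_pos
  unfold av at h
  rw [div_eq_zero_iff] at h
  have h1 := h.resolve_right hc.ne'
  rw [Finset.sum_eq_zero_iff_of_nonneg (fun i _ => sq_nonneg _)] at h1
  funext x
  have := h1 x (Finset.mem_univ x)
  exact pow_eq_zero_iff (two_ne_zero) |>.1 this

end HH_

open HH_

theorem p_HH (h1 : T_BAS) (h2 : T_NRM) : T_HH := by
  intro W _ _ K hK
  obtain ⟨-, hskew, -⟩ := h1 W K hK
  have hnrm := h2 W K hK
  have hz : ∀ f : W → ℝ, (av fun x => Sop K f x * f x) = 0 := by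
    intro f
    have h3 := hskew f f
    have h4 : (av fun x => f x * Sop K f x) = av fun x => Sop K f x * f x := by
      congr 1
      funext x
      ring
    rw [h4] at h3
    linarith
  set L : (W → ℝ) →ₗ[ℝ] (W → ℝ) := LinearMap.id - Sop K with hL
  have hinj : Function.Injective L := by
    rw [injective_iff_map_eq_zero]
    intro f hf
    have h3 : ∀ x, f x = Sop K f x := by
      intro x
      have := congrFun hf x
      simp only [hL, LinearMap.sub_apply, LinearMap.id_apply, Pi.sub_apply, Pi.zero_apply] at this
      linarith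
    apply av_sq_eq_zero
    have h4 := hz f
    have h5 : (av fun x => f x ^ 2) = av fun x => Sop K f x * f x := by
      congr 1
      funext x
      rw [← h3 x, pow_two]
    rw [h5, h4]
  have hsurj : Function.Surjective L := LinearMap.injective_iff_surjective.1 hinj
  obtain ⟨h, hh⟩ := hsurj (dl K)
  have hx : ∀ x, dl K x = h x - Sop K h x := by
    intro x
    rw [← hh]
    simp only [hL, LinearMap.sub_apply, LinearMap.id_apply, Pi.sub_apply]
  have e1 : (av fun x => dl K x * h x) = (av fun x => h x ^ 2) := by
    have e : (fun x => dl K x * h x) = fun x => h x ^ 2 + (-1) * (Sop K h x * h x) := by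
      funext x
      rw [hx x]; ring
    rw [e, av_add, av_mul_left, hz h]
    ring
  have e2 : xx K = (av fun x => h x ^ 2) + (av fun x => Sop K h x ^ 2) := by
    unfold xx
    have e : (fun x => dl K x ^ 2) = fun x => (h x ^ 2 + Sop K h x ^ 2) +
        (-2) * (Sop K h x * h x) := by
      funext x
      rw [hx x]; ring
    rw [e, av_add, av_add, av_mul_left, hz h]
    ring
  have e3 := hnrm h
  have e4 : 0 ≤ av fun x => Sop K h x ^ 2 := by
    unfold av
    exact div_nonneg (Finset.sum_nonneg fun _ _ => sq_nonneg _) (Nat.cast_nonneg _)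
  refine ⟨h, fun x => ?_, ?_, e1, ?_⟩
  · rw [hx x]; ring
  · linarith
  · linarith

end Pool.Agent.TLT
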