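import Pool.Agent.TLT.Targets

set_option autoImplicit false

/-!
# NA: the weighted square norm of polynomials
-/

namespace Pool.Agent.TLT

open Finset Polynomial
open scoped BigOperators

noncomputable section

private lemma na_range (a : ℝ[X]) (n : ℕ) (h : ∀ i, n ≤ i → a.coeff i = 0) :
    nA a = ∑ i ∈ range n, a.coeff i ^ 2 * (3 / 4 : ℝ) ^ i := by
  unfold nA
  refine Finset.sum_subset (fun i hi => ?_) (fun i _ hi => ?_)
  · rw [mem_range]
    by_contra hc
    exact (mem_support_iff.mp hi) (h i (not_lt.mp hc))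
  · rw [notMem_support_iff.mp hi]
    simp

private lemma na_nonneg (a : ℝ[X]) : 0 ≤ nA a :=
  Finset.sum_nonneg fun i _ => by positivity

private lemma na_par (a b : ℝ[X]) : nA (a + b) + nA (a - b) = 2 * nA a + 2 * nA b := by
  obtain ⟨n, ha, hb⟩ : ∃ n, (∀ i, n ≤ i → a.coeff i = 0) ∧ (∀ i, n ≤ i → b.coeff i = 0) :=
    ⟨max a.natDegree b.natDegree + 1,
      fun i hi => coeff_eq_zero_of_natDegree_lt (by
        have := le_max_left a.natDegree b.natDegree
        omega),
      fun i hi => coeff_eq_zero_of_natDegree_lt (by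
        have := le_max_right a.natDegree b.natDegree
        omega)⟩
  rw [na_range a n ha, na_range b n hb,
    na_range (a + b) n fun i hi => by rw [coeff_add, ha i hi, hb i hi, add_zero],
    na_range (a - b) n fun i hi => by rw [coeff_sub, ha i hi, hb i hi, sub_zero],
    Finset.mul_sum, Finset.mul_sum, ← Finset.sum_add_distrib, ← Finset.sum_add_distrib]
  refine Finset.sum_congr rfl fun i _ => ?_
  rw [coeff_add, coeff_sub]
  ring

private lemma na_neg (a : ℝ[X]) : nA (-a) = nA a := by
  unfold nA
  rw [support_neg]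
  refine Finset.sum_congr rfl fun i _ => ?_
  rw [coeff_neg, neg_sq]

private lemma na_shift (k : ℕ) (a : ℝ[X]) : nA (X ^ k * a) = (3 / 4 : ℝ) ^ k * nA a := by
  have ha : ∀ i, a.natDegree + 1 ≤ i → a.coeff i = 0 := fun i hi =>
    coeff_eq_zero_of_natDegree_lt (by omega)
  rw [na_range a _ ha, na_range (X ^ k * a) (k + (a.natDegree + 1)) fun i hi => by
    rw [coeff_X_pow_mul', if_pos (by omega)]
    exact ha _ (by omega), Finset.sum_range_add, Finset.mul_sum]
  rw [Finset.sum_eq_zero, zero_add]
  · refine Finset.sum_congr rfl fun i _ => ?_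
    rw [coeff_X_pow_mul', if_pos (by omega), Nat.add_sub_cancel_left, pow_add]
    ring
  · intro i hi
    rw [coeff_X_pow_mul', if_neg (by have := mem_range.mp hi; omega)]
    simp

private lemma na_gm_coeff (j i : ℕ) : (gm j).coeff i = if i < j then 1 else 0 := by
  unfold gm
  rw [finsetSum_coeff]
  simp [coeff_X_pow]

private lemma na_gm (j : ℕ) (a : ℝ[X]) :
    nA (gm j + X ^ j * a) ≤ 4 + (3 / 4 : ℝ) ^ j * nA a := by
  have ha : ∀ i, a.natDegree + 1 ≤ i → a.coeff i = 0 := fun i hi =>
    coeff_eq_zero_of_natDegree_lt (by omega)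
  rw [na_range a _ ha, na_range (gm j + X ^ j * a) (j + (a.natDegree + 1)) fun i hi => by
    rw [coeff_add, na_gm_coeff, if_neg (by omega), coeff_X_pow_mul', if_pos (by omega),
      ha _ (by omega), add_zero], Finset.sum_range_add, Finset.mul_sum]
  refine add_le_add ?_ (le_of_eq ?_)
  · have h1 : ∑ i ∈ range j, (gm j + X ^ j * a).coeff i ^ 2 * (3 / 4 : ℝ) ^ i =
        ∑ i ∈ range j, (3 / 4 : ℝ) ^ i := by
      refine Finset.sum_congr rfl fun i hi => ?_
      have hi' := mem_range.mp hi
      rw [coeff_add, na_gm_coeff, if_pos hi', coeff_X_pow_mul', if_neg (by omega)]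
      ring
    rw [h1, geom_sum_eq (by norm_num)]
    have h2 : (0 : ℝ) ≤ (3 / 4 : ℝ) ^ j := by positivity
    rw [div_le_iff_of_neg (by norm_num)]
    linarith
  · refine Finset.sum_congr rfl fun i _ => ?_
    rw [coeff_add, na_gm_coeff, if_neg (by omega), coeff_X_pow_mul', if_pos (by omega),
      Nat.add_sub_cancel_left, pow_add]
    ring

private lemma na_gm_add (L m : ℕ) : gm (L + m) = gm L + X ^ L * gm m := by
  unfold gm
  rw [Finset.sum_range_add, Finset.mul_sum]
  congr 1
  exact Finset.sum_congr rfl fun i _ => by rw [pow_add]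

private lemma na_gm_succ (j : ℕ) : gm (j + 1) = 1 + X * gm j := by
  rw [add_comm j 1, na_gm_add]
  simp [gm]

theorem p_NA : T_NA := by
  refine ⟨na_nonneg, fun a i => ?_, fun a n h => ?_, fun a b => ?_, na_par, na_neg,
    fun b a => ?_, by simp [nA], na_shift, na_gm, fun L j a h => ?_, fun j a => ?_⟩
  · by_cases hi : i ∈ a.support
    · exact Finset.single_le_sum (f := fun i => a.coeff i ^ 2 * (3 / 4 : ℝ) ^ i)
        (fun i _ => by positivity) hi
    · rw [notMem_support_iff.mp hi]
      simpa using na_nonneg a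
  · exact na_range a n fun i hi => coeff_eq_zero_of_natDegree_lt (by omega)
  · have h1 := na_par a b
    have h2 := na_nonneg (a - b)
    linarith
  · cases b
    · simp [sg, na_neg]
    · simp [sg]
  · obtain ⟨m, rfl⟩ := Nat.exists_eq_add_of_le h
    have h1 : gm (L + m) + X ^ (L + m) * a - gm L = X ^ L * (gm m + X ^ m * a) := by
      rw [na_gm_add, pow_add]
      ring
    rw [h1, na_shift]
    refine mul_le_mul_of_nonneg_left ((na_gm m a).trans ?_) (by positivity)
    have h2 : (3 / 4 : ℝ) ^ m ≤ 1 := pow_le_one₀ (by norm_num) (by norm_num)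
    nlinarith [na_nonneg a]
  · rw [na_gm_succ, pow_succ]
    ring

end

end Pool.Agent.TLT
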