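import Pool.Agent.TLT.Targets

set_option autoImplicit false

/-!
# Trees with long threads in tournaments (MP_d27362_co): one step of a thread
-/

namespace Pool.Agent.TLT.ONE_

open Finset Polynomial
open scoped BigOperators

theorem av_lin {W : Type} [Fintype W] [Nonempty W] (M : ℝ) (g w : W → ℝ) :
    (av fun y => M * (1 + g y + w y)) = M * (1 + av g + av w) := by
  have hc : (Fintype.card W : ℝ) ≠ 0 := by
    exact_mod_cast Fintype.card_ne_zero
  simp only [av, ← Finset.mul_sum, Finset.sum_add_distrib, Finset.sum_const, Finset.card_univ,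
    nsmul_eq_mul, mul_one]
  field_simp

theorem sop_lin {W : Type} [Fintype W] (K : W → W → ℝ) (M : ℝ) (g w : W → ℝ) (x : W) :
    Sop K (fun y => M * (1 + g y + w y)) x = M * (dl K x + Sop K g x + Sop K w x) := by
  have h : (fun y => M * (1 + g y + w y)) = M • ((fun _ => (1 : ℝ)) + g + w) := by
    funext y
    simp [Pi.smul_apply, Pi.add_apply]
  rw [h, map_smul, map_add, map_add]
  simp only [Pi.smul_apply, Pi.add_apply, smul_eq_mul, dl]

theorem av_nonneg {W : Type} [Fintype W] (g : W → ℝ) (h : ∀ y, 0 ≤ g y) : 0 ≤ av g :=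
  div_nonneg (Finset.sum_nonneg fun y _ => h y) (Nat.cast_nonneg _)

theorem frac_le {t : ℝ} (ht : -(1 / 2) ≤ t) : |t / (1 + t)| ≤ min 1 (2 * |t|) := by
  have h1 : 0 < 1 + t := by linarith
  rw [abs_div, abs_of_pos h1, le_min_iff, div_le_iff₀ h1, div_le_iff₀ h1]
  constructor
  · rw [abs_le]
    constructor <;> linarith
  · nlinarith [abs_nonneg t]

end Pool.Agent.TLT.ONE_

namespace Pool.Agent.TLT

open Finset Polynomial ONE_
open scoped BigOperators

theorem p_ONE (h1 : T_BAS) (h2 : T_PVL) : T_ONE := by
  intro W _ _ K hK f w a M hM hf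
  obtain ⟨-, -, -, hKt, -, hmono, hKle, hCS, -⟩ := h1 W K hK
  obtain ⟨hpv, -, -⟩ := h2 W K
  set I := av (pv K a) with hI
  set w0 := av fun y => |w y| with hw0
  have hw0n : 0 ≤ w0 := av_nonneg _ fun y => abs_nonneg _
  set l := pv K (1 + X * a) with hl
  -- the basic estimate
  have hbase : ∀ y, Kd K true f y ≤ M * (1 + (I + 2 * w0) + l y) := by
    intro y
    have e1 := hmono true f (fun y => M * (1 + pv K a y + w y)) hf y
    have e2 := hKt (fun y => M * (1 + pv K a y + w y)) y
    rw [av_lin, sop_lin] at e2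
    have e3 := hKt w y
    have e4 := hKle true w y
    have e5 : l y = dl K y + Sop K (pv K a) y := hpv a y
    have e6 : Kd K true (fun y => M * (1 + pv K a y + w y)) y =
        M * (1 + I + l y + Kd K true w y) := by
      rw [e2, e3, e5]
      ring
    rw [e6] at e1
    have e7 : M * (1 + I + l y + Kd K true w y) ≤ M * (1 + (I + 2 * w0) + l y) :=
      mul_le_mul_of_nonneg_left (by linarith) hM.le
    exact e1.trans e7
  have hsq : (av fun y => |l y|) ≤ Real.sqrt (av fun y => l y ^ 2) :=
    Real.le_sqrt_of_sq_le (hCS l)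
  set t := I + 2 * w0 with ht
  rcases le_or_gt (-(1 / 2)) t with hc | hc
  · have h1t : 0 < 1 + t := by linarith
    refine ⟨M * (1 + t), fun y => -(t / (1 + t)) * l y, mul_pos hM h1t, ?_, ?_, ?_⟩
    · intro y
      refine (hbase y).trans (le_of_eq ?_)
      field_simp
      ring
    · rw [Real.log_mul hM.ne' h1t.ne']
      have := Real.log_le_sub_one_of_pos h1t
      nlinarith [sq_nonneg I]
    · have e : (av fun y => |-(t / (1 + t)) * l y|) = |t / (1 + t)| * av fun y => |l y| := by
        simp only [av, abs_mul, abs_neg, ← Finset.mul_sum, mul_div_assoc]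
      rw [e]
      exact mul_le_mul (frac_le hc) hsq (av_nonneg _ fun y => abs_nonneg _)
        (le_min zero_le_one (by positivity))
  · refine ⟨M, fun _ => 0, hM, ?_, ?_, ?_⟩
    · intro y
      refine (hbase y).trans ?_
      exact mul_le_mul_of_nonneg_left (by linarith) hM.le
    · have hIt : I ≤ t := by linarith
      nlinarith [mul_nonneg (sub_nonneg.2 hIt) (by linarith : (0:ℝ) ≤ -(1/2) - I)]
    · have e : (av fun _ : W => |(0 : ℝ)|) = 0 := by simp [av]
      rw [e]
      exact mul_nonneg (le_min zero_le_one (by positivity)) (Real.sqrt_nonneg _)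

end Pool.Agent.TLT
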