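import Pool.Agent.TLT.Targets

set_option autoImplicit false

namespace Pool.Agent.TLT

open Finset Polynomial
open scoped BigOperators

namespace PV_

lemma av_mono {W : Type} [Fintype W] (f g : W → ℝ) (h : ∀ y, f y ≤ g y) : av f ≤ av g := by
  unfold av
  exact div_le_div_of_nonneg_right (Finset.sum_le_sum fun y _ => h y) (Nat.cast_nonneg _)

lemma av_mul {W : Type} [Fintype W] (c : ℝ) (f : W → ℝ) : (av fun y => c * f y) = c * av f := by
  unfold av
  rw [← Finset.mul_sum, mul_div_assoc]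

lemma av_sum {W : Type} [Fintype W] (s : Finset ℕ) (F : ℕ → W → ℝ) :
    (av fun y => ∑ i ∈ s, F i y) = ∑ i ∈ s, av (F i) := by
  unfold av
  rw [Finset.sum_comm, Finset.sum_div]

lemma nA_range (a : ℝ[X]) (n : ℕ) (h : a.natDegree < n) :
    nA a = ∑ i ∈ range n, a.coeff i ^ 2 * (3 / 4 : ℝ) ^ i := by
  unfold nA
  refine Finset.sum_subset (fun i hi => ?_) (fun i _ hi => ?_)
  · rw [Finset.mem_range]
    exact lt_of_le_of_lt (Polynomial.le_natDegree_of_mem_supp i hi) h
  · rw [Polynomial.notMem_support_iff.1 hi]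
    simp

/-- the iterated images of `δ` -/
noncomputable def s {W : Type} [Fintype W] (K : W → W → ℝ) (i : ℕ) : W → ℝ :=
  ((Sop K) ^ i) (dl K)

lemma s_succ {W : Type} [Fintype W] (K : W → W → ℝ) (i : ℕ) : s K (i + 1) = Sop K (s K i) := by
  rw [s, pow_succ', Module.End.mul_apply, s]

lemma pv_eq {W : Type} [Fintype W] (K : W → W → ℝ) (a : ℝ[X]) (y : W) :
    pv K a y = ∑ i ∈ range (a.natDegree + 1), a.coeff i * s K i y := by
  rw [pv, Polynomial.aeval_eq_sum_range, LinearMap.sum_apply, Finset.sum_apply]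
  rfl

lemma norm_s {W : Type} [Fintype W] [Nonempty W] (K : W → W → ℝ) (hK : Krn K) (h2 : T_NRM)
    (i : ℕ) : (av fun y => s K i y ^ 2) ≤ (1 / 2) ^ i * xx K := by
  induction i with
  | zero => simp [s, xx]
  | succ i ih =>
    rw [s_succ]
    refine (h2 W K hK (s K i)).trans ?_
    rw [pow_succ]
    linarith

lemma geo (n : ℕ) : ∑ i ∈ range n, (2 / 3 : ℝ) ^ i = 3 * (1 - (2 / 3) ^ n) := by
  induction n with
  | zero => simp
  | succ n ih =>
    rw [Finset.sum_range_succ, ih, pow_succ]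
    ring

lemma geo_le (n : ℕ) : ∑ i ∈ range n, (2 / 3 : ℝ) ^ i ≤ 3 := by
  rw [geo]
  have : (0 : ℝ) ≤ (2 / 3) ^ n := by positivity
  linarith

lemma cs (N : ℕ) (a t : ℕ → ℝ) : (∑ i ∈ range N, a i * t i) ^ 2 ≤
    (∑ i ∈ range N, a i ^ 2 * (3 / 4 : ℝ) ^ i) * ∑ i ∈ range N, (4 / 3 : ℝ) ^ i * t i ^ 2 := by
  refine Finset.sum_sq_le_sum_mul_sum_of_sq_le_mul (range N) (fun i _ => by positivity)
    (fun i _ => by positivity) (fun i _ => ?_)
  have : (3 / 4 : ℝ) ^ i * (4 / 3) ^ i = 1 := by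
    rw [← mul_pow]
    norm_num
  rw [mul_pow]
  refine le_of_eq ?_
  linear_combination (-(a i ^ 2 * t i ^ 2)) * this

lemma first {W : Type} [Fintype W] [Nonempty W] (K : W → W → ℝ) (hK : Krn K) (h2 : T_NRM)
    (a : ℝ[X]) : (av fun y => pv K a y ^ 2) ≤ 3 * nA a * xx K := by
  have hN : a.natDegree < a.natDegree + 1 := Nat.lt_succ_self _
  have hnA : 0 ≤ nA a := by
    unfold nA
    positivity
  have hx : 0 ≤ xx K := by
    unfold xx av
    positivity
  have e1 : (av fun y => pv K a y ^ 2) ≤ av fun y => nA a *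
      ∑ i ∈ range (a.natDegree + 1), (4 / 3 : ℝ) ^ i * s K i y ^ 2 := by
    refine av_mono _ _ fun y => ?_
    rw [pv_eq, nA_range a _ hN]
    exact cs _ _ _
  refine e1.trans ?_
  rw [av_mul, av_sum]
  have e2 : ∑ i ∈ range (a.natDegree + 1), av (fun y => (4 / 3 : ℝ) ^ i * s K i y ^ 2) ≤
      ∑ i ∈ range (a.natDegree + 1), (2 / 3 : ℝ) ^ i * xx K := by
    refine Finset.sum_le_sum fun i _ => ?_
    rw [av_mul]
    have h := norm_s K hK h2 i
    have : (2 / 3 : ℝ) ^ i = (4 / 3) ^ i * (1 / 2) ^ i := by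
      rw [← mul_pow]
      norm_num
    rw [this, mul_assoc]
    exact mul_le_mul_of_nonneg_left h (by positivity)
  rw [← Finset.sum_mul] at e2
  have e3 := mul_le_mul_of_nonneg_right (geo_le (a.natDegree + 1)) hx
  have e4 := mul_le_mul_of_nonneg_left (e2.trans e3) hnA
  linarith

lemma av_s {W : Type} [Fintype W] [Nonempty W] (K : W → W → ℝ) (hK : Krn K) (h1 : T_BAS)
    (h2 : T_NRM) (i : ℕ) : (4 / 3 : ℝ) ^ i * av (s K i) ^ 2 ≤ 2 * (2 / 3) ^ i * xx K ^ 2 := by
  obtain ⟨-, b2, b3, -, -, -, -, -, b9⟩ := h1 W K hK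
  cases i with
  | zero =>
    have : av (s K 0) = 0 := by
      simpa [s] using b3
    rw [this]
    have := sq_nonneg (xx K)
    simp only [pow_zero]
    nlinarith
  | succ i =>
    have e : av (s K (i + 1)) = - av fun x => s K i x * dl K x := by
      have := b2 (s K i) (fun _ => 1)
      rw [s_succ]
      simpa [dl] using this
    rw [e, neg_sq]
    have e2 := b9 (s K i) (dl K)
    have e3 := norm_s K hK h2 i
    have hx : 0 ≤ xx K := by
      unfold xx av
      positivity
    have e4 : (av fun y => s K i y ^ 2) * (av fun y => dl K y ^ 2) ≤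
        (1 / 2) ^ i * xx K * xx K := mul_le_mul_of_nonneg_right e3 hx
    have e5 := mul_le_mul_of_nonneg_left (e2.trans e4) (by positivity : (0 : ℝ) ≤ (4 / 3) ^ (i + 1))
    refine e5.trans (le_of_eq ?_)
    have : (2 / 3 : ℝ) ^ i = (4 / 3) ^ i * (1 / 2) ^ i := by
      rw [← mul_pow]
      norm_num
    rw [pow_succ, pow_succ, this]
    ring

end PV_

theorem p_PV (h1 : T_BAS) (h2 : T_NRM) : T_PV := by
  intro W _ _ K hK a
  have hx : 0 ≤ xx K := by
    unfold xx av
    positivity
  have hnA : ∀ a : ℝ[X], 0 ≤ nA a := fun a => by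
    unfold nA
    positivity
  refine ⟨PV_.first K hK h2 a, ?_, fun h0 y => ?_⟩
  · have e : av (pv K a) = ∑ i ∈ range (a.natDegree + 1), a.coeff i * av (PV_.s K i) := by
      have : pv K a = fun y => ∑ i ∈ range (a.natDegree + 1), a.coeff i * PV_.s K i y := by
        funext y
        exact PV_.pv_eq K a y
      rw [this, PV_.av_sum]
      exact Finset.sum_congr rfl fun i _ => PV_.av_mul _ _
    rw [e]
    refine (PV_.cs _ _ _).trans ?_
    rw [← PV_.nA_range a _ (Nat.lt_succ_self _)]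
    have e2 : ∑ i ∈ range (a.natDegree + 1), (4 / 3 : ℝ) ^ i * av (PV_.s K i) ^ 2 ≤
        6 * xx K ^ 2 := by
      calc ∑ i ∈ range (a.natDegree + 1), (4 / 3 : ℝ) ^ i * av (PV_.s K i) ^ 2
          ≤ ∑ i ∈ range (a.natDegree + 1), 2 * (2 / 3) ^ i * xx K ^ 2 :=
            Finset.sum_le_sum fun i _ => PV_.av_s K hK h1 h2 i
        _ = 2 * (∑ i ∈ range (a.natDegree + 1), (2 / 3 : ℝ) ^ i) * xx K ^ 2 := by
            rw [Finset.mul_sum, Finset.sum_mul]
        _ ≤ 6 * xx K ^ 2 := by
            have := PV_.geo_le (a.natDegree + 1)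
            exact mul_le_mul_of_nonneg_right (by linarith) (sq_nonneg _)
    have := mul_le_mul_of_nonneg_left e2 (hnA a)
    linarith
  · obtain ⟨b1, -, -, -, -, -, -, b8, -⟩ := h1 W K hK
    have ea : a = X * a.divX := by
      have := Polynomial.X_mul_divX_add a
      rw [h0, map_zero, add_zero] at this
      exact this.symm
    have e1 : pv K a y = Sop K (pv K a.divX) y := by
      conv_lhs => rw [ea]
      rw [pv, map_mul, aeval_X, Module.End.mul_apply, pv]
    have e2 : nA a = 3 / 4 * nA a.divX := by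
      conv_lhs => rw [ea]
      rw [PV_.nA_range (X * a.divX) (a.divX.natDegree + 1 + 1) ?_, Finset.sum_range_succ',
        PV_.nA_range a.divX (a.divX.natDegree + 1) (Nat.lt_succ_self _), Finset.mul_sum]
      · simp only [Polynomial.coeff_X_mul, Polynomial.coeff_X_mul_zero]
        rw [zero_pow two_ne_zero, zero_mul, add_zero]
        refine Finset.sum_congr rfl fun i _ => ?_
        rw [pow_succ]
        ring
      · refine Nat.lt_succ_of_le ?_
        refine (Polynomial.natDegree_mul_le).trans ?_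
        have : (X : ℝ[X]).natDegree ≤ 1 := Polynomial.natDegree_X_le
        omega
    have e3 := b1 (pv K a.divX) y
    have e4 := b8 (pv K a.divX)
    have e5 := PV_.first K hK h2 a.divX
    rw [e1, e2]
    have e6 : Sop K (pv K a.divX) y ^ 2 ≤ (av fun y => |pv K a.divX y|) ^ 2 := by
      rw [← sq_abs]
      exact pow_le_pow_left₀ (abs_nonneg _) e3 2
    linarith

end Pool.Agent.TLT
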