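import Pool.Agent.TLT.Targets

set_option autoImplicit false

/-!
# Trees with long threads in tournaments (MP_d27362_co): linearity of `pv`
-/

namespace Pool.Agent.TLT

open Finset Polynomial
open scoped BigOperators

private theorem gm_step (j : ℕ) (a : ℝ[X]) :
    gm (j + 1) + X ^ (j + 1) * a = 1 + X * (gm j + X ^ j * a) := by
  have h1 : gm (j + 1) = 1 + X * gm j := by
    unfold gm
    rw [Finset.sum_range_succ', Finset.mul_sum, pow_zero, add_comm]
    congr 1
    exact Finset.sum_congr rfl fun i _ => by ring
  rw [h1]
  ring

private theorem pv_one_add {W : Type} [Fintype W] (K : W → W → ℝ) (a : ℝ[X]) :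
    pv K (1 + X * a) = dl K + Sop K (pv K a) := by
  unfold pv
  simp only [map_add, map_one, map_mul, aeval_X, LinearMap.add_apply, Module.End.one_apply,
    Module.End.mul_apply]

/-- PVL: linearity of `pv`. -/
theorem p_PVL : T_PVL := by
  intro W _ K
  refine ⟨fun a y => ?_, fun V s c a y => ?_, fun h hh j a => ?_⟩
  · rw [pv_one_add]
    rfl
  · unfold pv
    rw [map_sum, LinearMap.sum_apply, Finset.sum_apply]
    refine Finset.sum_congr rfl fun i _ => ?_
    rw [map_smul]
    rfl
  · induction j with
    | zero =>
      intro y
      simp [gm]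
    | succ j ih =>
      intro y
      have e : pv K (gm j + X ^ j * a) = h + (Sop K)^[j] (fun z => pv K a z - h z) :=
        funext ih
      rw [gm_step, pv_one_add, e, map_add, Function.iterate_succ_apply']
      simp only [Pi.add_apply]
      rw [hh y]
      ring

end Pool.Agent.TLT
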