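import Pool.Agent.TLT.Targets

set_option autoImplicit false

namespace Pool.Agent.TLT

open Finset Polynomial
open scoped BigOperators

namespace REC_

lemma lam_sq : Real.sqrt (1 / 2) ^ 2 = 1 / 2 := Real.sq_sqrt (by norm_num)

lemma lam_nn : 0 ≤ Real.sqrt (1 / 2) := Real.sqrt_nonneg _

lemma lam_le : Real.sqrt (1 / 2) ≤ 5 / 7 := by
  rw [Real.sqrt_le_left (by norm_num)]
  norm_num

lemma pow_sq (j : ℕ) : (Real.sqrt (1 / 2) ^ j) ^ 2 = (1 / 2 : ℝ) ^ j := by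
  rw [← pow_mul, mul_comm, pow_mul, lam_sq]

lemma min_mul (t a : ℝ) (ht : 0 ≤ t) : min 1 t * a ≤ (t + a ^ 2) / 2 := by
  have h1 : min 1 t ≤ 1 := min_le_left _ _
  have h2 : min 1 t ≤ t := min_le_right _ _
  have h0 : 0 ≤ min 1 t := le_min zero_le_one ht
  nlinarith [sq_nonneg (min 1 t - a)]

/-- one step -/
lemma step (d Z I ω ω' : ℝ) (hd : 0 ≤ d) (hd1 : d ≤ 1 / 100) (hZ : 0 ≤ Z) (hω : 0 ≤ ω)
    (hI : |I| ≤ d ^ 2 + d * Z) (h : ω' ≤ min 1 (2 * |I + 2 * ω|) * (d + Z / 2)) :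
    ω' ≤ 4 * d ^ 3 + 3 * Z ^ 2 + ω / 4 := by
  have hm : min 1 (2 * |I + 2 * ω|) ≤ 2 * |I| + min 1 (4 * ω) := by
    have h1 : |I + 2 * ω| ≤ |I| + 2 * ω := by
      have := abs_add_le I (2 * ω)
      rwa [abs_of_nonneg (by positivity : (0 : ℝ) ≤ 2 * ω)] at this
    have h0 := abs_nonneg I
    rcases le_total 1 (4 * ω) with h2 | h2
    · rw [min_eq_left h2]
      exact (min_le_left _ _).trans (by linarith)
    · rw [min_eq_right h2]
      exact (min_le_right _ _).trans (by linarith)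
  set m := min 1 (4 * ω) with hmdef
  have hm0 : 0 ≤ m := le_min zero_le_one (by positivity)
  have hm1 : m ≤ 4 * ω := min_le_right _ _
  have hm2 : m ^ 2 ≤ 4 * ω := by
    have : m ≤ 1 := min_le_left _ _
    nlinarith
  have hpos : 0 ≤ d + Z / 2 := by positivity
  have e1 : ω' ≤ (2 * |I| + m) * (d + Z / 2) :=
    h.trans (mul_le_mul_of_nonneg_right hm hpos)
  have e2 : (2 * |I| + m) * (d + Z / 2) ≤ (2 * (d ^ 2 + d * Z) + m) * (d + Z / 2) :=
    mul_le_mul_of_nonneg_right (by linarith) hpos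
  have e3 : m * d ≤ ω / 25 := by
    have : m * d ≤ 4 * ω * (1 / 100) := mul_le_mul hm1 hd1 hd (by positivity)
    linarith
  have e4 : m * (Z / 2) ≤ ω / 8 + 2 * Z ^ 2 := by
    nlinarith [sq_nonneg (m - 8 * Z)]
  have e5 : 3 * d ^ 2 * Z ≤ 3 / 2 * d ^ 3 + 3 / 2 * (d * Z ^ 2) := by
    have : 0 ≤ d * (d - Z) ^ 2 := by positivity
    nlinarith
  have e6 : d * Z ^ 2 ≤ 1 / 100 * Z ^ 2 := mul_le_mul_of_nonneg_right hd1 (sq_nonneg Z)
  have e7 : 0 ≤ d ^ 3 := by positivity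
  have e8 : 0 ≤ Z ^ 2 := sq_nonneg Z
  nlinarith

end REC_

theorem p_REC : T_REC := by
  intro d E ν I₀ I ω hd hd1 hE hν hI0 hω0 hω h1 h2 h3
  have hl := REC_.lam_nn
  set X0 : ℝ := |I₀| + 2 * ν + d ^ 2 + 13 * E ^ 2 with hX0
  have hX0n : 0 ≤ X0 := by positivity
  have hI0n := abs_nonneg I₀
  have key : ∀ j, ω (j + 1) ≤ (1 / 2 : ℝ) ^ j * X0 + 6 * d ^ 3 := by
    intro j
    induction j with
    | zero =>
      have a1 := h3 0
      rw [hI0, hω0] at a1
      have a2 := REC_.min_mul (2 * |I₀ + 2 * ν|) (d + Real.sqrt (1 / 2) ^ (0 + 1) * E)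
        (by positivity)
      have a3 : |I₀ + 2 * ν| ≤ |I₀| + 2 * ν := by
        have := abs_add_le I₀ (2 * ν)
        rwa [abs_of_nonneg (by positivity : (0 : ℝ) ≤ 2 * ν)] at this
      have a4 : (d + Real.sqrt (1 / 2) ^ (0 + 1) * E) ^ 2 ≤ 2 * d ^ 2 + E ^ 2 := by
        have e : (Real.sqrt (1 / 2) ^ (0 + 1) * E) ^ 2 = 1 / 2 * E ^ 2 := by
          rw [mul_pow, REC_.pow_sq]
          norm_num
        nlinarith [sq_nonneg (d - Real.sqrt (1 / 2) ^ (0 + 1) * E)]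
      have a5 : 0 ≤ d ^ 3 := by positivity
      have a6 := sq_nonneg E
      rw [pow_zero, one_mul]
      linarith
    | succ j ih =>
      have b1 := REC_.step d (Real.sqrt (1 / 2) ^ j * E) (I (j + 1)) (ω (j + 1))
        (ω (j + 1 + 1)) hd hd1 (by positivity) (hω _) (h2 j) (by
          have := h3 (j + 1)
          have e : Real.sqrt (1 / 2) ^ (j + 1 + 1) * E = Real.sqrt (1 / 2) ^ j * E / 2 := by
            rw [pow_succ, pow_succ]
            have := REC_.lam_sq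
            linear_combination (Real.sqrt (1 / 2) ^ j * E) * this
          rwa [e] at this)
      have b2 : (Real.sqrt (1 / 2) ^ j * E) ^ 2 = (1 / 2 : ℝ) ^ j * E ^ 2 := by
        rw [mul_pow, REC_.pow_sq]
      rw [b2] at b1
      have b3 : (0 : ℝ) ≤ (1 / 2 : ℝ) ^ j := by positivity
      have b4 : 12 * E ^ 2 ≤ X0 := by
        have := sq_nonneg E
        have := sq_nonneg d
        rw [hX0]
        linarith
      have b5 : (1 / 2 : ℝ) ^ j * (12 * E ^ 2) ≤ (1 / 2 : ℝ) ^ j * X0 :=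
        mul_le_mul_of_nonneg_left b4 b3
      have b6 : 0 ≤ d ^ 3 := by positivity
      rw [pow_succ]
      linarith
  refine ⟨fun j => ?_, ?_⟩
  · have := key j
    have e : 2 * (1 / 2 : ℝ) ^ (j + 1) * (|I₀| + 2 * ν + d ^ 2 + 13 * E ^ 2) =
        (1 / 2 : ℝ) ^ j * X0 := by
      rw [hX0, pow_succ]
      ring
    rw [e]
    exact this
  · intro J hJ
    obtain ⟨K, rfl⟩ : ∃ K, J = K + 1 := ⟨J - 1, by omega⟩
    have main : ∀ K : ℕ, ∑ j ∈ range (K + 1), (I j + 2 * ω j + 2 * I j ^ 2) ≤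
        I₀ + 2 * ν + 2 * I₀ ^ 2 + K * (-(2 / 3) * d ^ 2 + 12 * d ^ 3 + 4 * d ^ 4) +
        7 / 2 * (d * E) * (1 - Real.sqrt (1 / 2) ^ K) + 4 * X0 * (1 - (1 / 2) ^ K) +
        8 * d ^ 2 * E ^ 2 * (1 - (1 / 2) ^ K) := by
      intro K
      induction K with
      | zero => simp [hI0, hω0]
      | succ K ih =>
        rw [Finset.sum_range_succ]
        have c1 := h1 K
        have c2 := h2 K
        have c3 := key K
        set q := Real.sqrt (1 / 2) ^ K with hq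
        have hq0 : 0 ≤ q := by positivity
        have hq2 : q ^ 2 = (1 / 2 : ℝ) ^ K := REC_.pow_sq K
        have c4 : I (K + 1) ^ 2 ≤ 2 * d ^ 4 + 2 * d ^ 2 * E ^ 2 * (1 / 2) ^ K := by
          have f1 : I (K + 1) ^ 2 ≤ (d ^ 2 + d * (q * E)) ^ 2 := by
            rw [← sq_abs]
            exact pow_le_pow_left₀ (abs_nonneg _) c2 2
          have f2 : (d ^ 2 + d * (q * E)) ^ 2 ≤ 2 * d ^ 4 + 2 * d ^ 2 * E ^ 2 * q ^ 2 := by
            nlinarith [sq_nonneg (d ^ 2 - d * (q * E))]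
          rw [← hq2]
          exact f1.trans f2
        have c5 : Real.sqrt (1 / 2) ^ (K + 1) ≤ q * (5 / 7) := by
          rw [pow_succ]
          exact mul_le_mul_of_nonneg_left REC_.lam_le hq0
        have c6 : 0 ≤ d * E := by positivity
        have c7 : d * (q * E) ≤ 7 / 2 * (d * E) * (q - Real.sqrt (1 / 2) ^ (K + 1)) := by
          have : d * E * (2 / 7 * q) ≤ d * E * (q - Real.sqrt (1 / 2) ^ (K + 1)) :=
            mul_le_mul_of_nonneg_left (by linarith) c6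
          linarith
        have c8 : (1 / 2 : ℝ) ^ (K + 1) = (1 / 2) ^ K / 2 := by
          rw [pow_succ]
          ring
        rw [c8]
        push_cast
        linarith
    have m := main K
    have g1 : 0 ≤ Real.sqrt (1 / 2) ^ K := by positivity
    have g2 : (0 : ℝ) ≤ (1 / 2 : ℝ) ^ K := by positivity
    have g3 : 0 ≤ d * E := by positivity
    have g4 : 7 / 2 * (d * E) * (1 - Real.sqrt (1 / 2) ^ K) ≤ 7 / 2 * (d * E) := by
      have := mul_nonneg g3 g1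
      linarith
    have g5 : 4 * X0 * (1 - (1 / 2) ^ K) ≤ 4 * X0 := by
      have := mul_nonneg hX0n g2
      linarith
    have g6 : 8 * d ^ 2 * E ^ 2 * (1 - (1 / 2) ^ K) ≤ 8 * d ^ 2 * E ^ 2 := by
      have : 0 ≤ d ^ 2 * E ^ 2 * (1 / 2) ^ K := by positivity
      linarith
    have g7 : d * E ≤ (d ^ 2 + E ^ 2) / 2 := by nlinarith [sq_nonneg (d - E)]
    have g8 : d ^ 2 * E ^ 2 ≤ 1 / 10000 * E ^ 2 := by
      have : d ^ 2 ≤ 1 / 10000 := by nlinarith
      exact mul_le_mul_of_nonneg_right this (sq_nonneg E)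
    have g9 : 12 * d ^ 3 + 4 * d ^ 4 ≤ 1 / 6 * d ^ 2 := by
      have e1 : d ^ 3 ≤ 1 / 100 * d ^ 2 := by
        have := mul_le_mul_of_nonneg_right hd1 (sq_nonneg d)
        have e0 : d ^ 3 = d * d ^ 2 := by ring
        linarith
      have e2 : d ^ 4 ≤ 1 / 10000 * d ^ 2 := by
        have : d ^ 2 ≤ 1 / 10000 := by nlinarith
        have := mul_le_mul_of_nonneg_right this (sq_nonneg d)
        have e0 : d ^ 4 = d ^ 2 * d ^ 2 := by ring
        linarith
      linarith [sq_nonneg d]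
    have g10 : (K : ℝ) * (-(2 / 3) * d ^ 2 + 12 * d ^ 3 + 4 * d ^ 4) ≤ -(K / 2) * d ^ 2 := by
      have : (K : ℝ) * (-(2 / 3) * d ^ 2 + 12 * d ^ 3 + 4 * d ^ 4) ≤
          K * (-(1 / 2) * d ^ 2) := mul_le_mul_of_nonneg_left (by linarith) (Nat.cast_nonneg K)
      linarith
    have g11 : I₀ ≤ |I₀| := le_abs_self _
    have g12 := sq_nonneg E
    have g13 := sq_nonneg d
    have g14 : 4 * X0 = 4 * |I₀| + 8 * ν + 4 * d ^ 2 + 52 * E ^ 2 := by
      rw [hX0]
      ring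
    push_cast
    have g15 : -(((K : ℝ) + 1) / 2) * d ^ 2 = -(K / 2) * d ^ 2 - d ^ 2 / 2 := by ring
    rw [g15]
    linarith

end Pool.Agent.TLT
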