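import Pool.Agent.TLT.Targets

set_option autoImplicit false

/-!
# RED: removing pairs of sibling leaves outside the core
-/

namespace Pool.Agent.TLT

open Finset Polynomial
open scoped BigOperators

noncomputable section

set_option linter.unusedSectionVars false

namespace RED_

variable {V : Type} [Fintype V] [DecidableEq V]

lemma good_pair {par : V → V} {S : Finset V} {r x y : V} {o : V → Bool} (hr : r ∈ S)
    (hx : x ∈ S) (hy : y ∈ S) (hxr : x ≠ r) (hyr : y ≠ r) (hxy : x ≠ y)
    (hp : par x = par y) (hvx : par x ≠ x) (hvy : par x ≠ y)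
    (hcx : ∀ v ∈ S.erase r, par v ≠ x) (hcy : ∀ v ∈ S.erase r, par v ≠ y)
    (ox : o x = true) (oy : o y = false) (hg : Good par ((S.erase x).erase y) r o) :
    Good par S r o := by
  intro W _ _ G hne hG
  have hcard : S.card - 1 = (((S.erase x).erase y).card - 1) + 2 := by
    have h1 : y ∈ S.erase x := Finset.mem_erase.2 ⟨hxy.symm, hy⟩
    have h2 : r ∈ (S.erase x).erase y := by simp [hxr.symm, hyr.symm, hr]
    have h3 : 0 < ((S.erase x).erase y).card := Finset.card_pos.2 ⟨r, h2⟩
    have h4 := Finset.card_erase_of_mem h1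
    have h5 := Finset.card_erase_of_mem hx
    omega
  have hB' := hg W G hne hG
  have hle := fun z => AntiSid.pair_removal G hG par o S r x y hx hy hxr hyr hxy hp hvx hvy
    hcx hcy ox oy z
  rw [← AntiSid.sum_NS] at hB' ⊢
  rw [hcard, pow_add]
  calc ∑ z, AntiSid.NS G par o S r z
      ≤ ∑ z, (1 / 4) * AntiSid.NS G par o ((S.erase x).erase y) r z :=
        Finset.sum_le_sum fun z _ => hle z
    _ = (1 / 4) * ∑ z, AntiSid.NS G par o ((S.erase x).erase y) r z := by
        rw [Finset.mul_sum]
    _ ≤ (1 / 4) * _ := by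
        exact mul_le_mul_of_nonneg_left hB' (by positivity)
    _ = _ := by ring

lemma good_congr {par : V → V} {S : Finset V} {r : V} {o o' : V → Bool}
    (h : ∀ v ∈ S.erase r, o v = o' v) (hA : Good par S r o) : Good par S r o' := by
  intro W _ _ G hne hG
  have := hA W G hne hG
  simpa only [AntiSid.FS_congr G par o o' S r h] using this

lemma main (par : V → V) (dep : V → ℕ) (C : Finset V) (r : V) (hrC : r ∈ C)
    (hclosed : ∀ v ∈ C, v ≠ r → par v ∈ C) (o : V → Bool) (hgood : Good par C r o) :
    ∀ (n : ℕ) (S : Finset V), (S \ C).card = n → Rt par dep S r →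
    (∀ v ∈ S, v ≠ r → dep v = dep (par v) + 1) → C ⊆ S →
    (∀ v ∈ S, Even ((AntiSid.ch par S r v).filter fun c => c ∉ C).card) →
    ∃ o' : V → Bool, (∀ v ∈ C, o' v = o v) ∧ Good par S r o' := by
  intro n
  induction n using Nat.strong_induction_on with
  | _ n ih =>
  intro S hn hRt hexact hCS hev
  by_cases hSC : (S \ C).Nonempty
  · obtain ⟨u, hu, hmax⟩ := Finset.exists_max_image (S \ C) dep hSC
    have huS : u ∈ S := (Finset.mem_sdiff.1 hu).1
    have huC : u ∉ C := (Finset.mem_sdiff.1 hu).2
    have hur : u ≠ r := by rintro rfl; exact huC hrC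
    have hleaf : ∀ x ∈ S, x ∉ C → dep x = dep u → ∀ v ∈ S.erase r, par v ≠ x := by
      intro x hx hxC hdx v hv hvx
      have hv' := Finset.mem_erase.1 hv
      have hvC : v ∉ C := by
        intro h
        have := hclosed v h hv'.1
        rw [hvx] at this
        exact hxC this
      have h3 := hmax v (Finset.mem_sdiff.2 ⟨hv'.2, hvC⟩)
      have h4 := hexact v hv'.2 hv'.1
      rw [hvx] at h4
      omega
    have hwS : par u ∈ S := hRt.hpar u huS hur
    set A := (AntiSid.ch par S r (par u)).filter fun c => c ∉ C with hA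
    have huA : u ∈ A := by simp [hA, AntiSid.ch, huS, hur, huC]
    have hAcard : 2 ≤ A.card := by
      have h3 : 0 < A.card := Finset.card_pos.2 ⟨u, huA⟩
      obtain ⟨k, hk⟩ := hev (par u) hwS
      rw [← hA] at hk
      omega
    obtain ⟨u', hu'A, hne⟩ := Finset.exists_mem_ne (by omega : 1 < A.card) u
    have hu'm := hu'A
    simp only [hA, AntiSid.ch, Finset.mem_filter] at hu'm
    obtain ⟨⟨hu'S, hu'r, hpar'⟩, hu'C⟩ := hu'm
    have hdu := hexact u huS hur
    have hdu' := hexact u' hu'S hu'r
    rw [hpar'] at hdu'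
    have hcu := hleaf u huS huC rfl
    have hcu' := hleaf u' hu'S hu'C (by omega)
    set S' := (S.erase u).erase u' with hS'
    have mem : ∀ v, v ∈ S' ↔ v ≠ u' ∧ v ≠ u ∧ v ∈ S := by
      intro v; simp [hS']
    have hlt : (S' \ C).card < n := by
      rw [← hn]
      apply Finset.card_lt_card
      refine ⟨?_, ?_⟩
      · intro v hv
        have hv' := Finset.mem_sdiff.1 hv
        exact Finset.mem_sdiff.2 ⟨((mem v).1 hv'.1).2.2, hv'.2⟩
      · intro h
        have := h hu
        have h3 := (mem u).1 (Finset.mem_sdiff.1 this).1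
        exact h3.2.1 rfl
    have hRt' : Rt par dep S' r := by
      refine ⟨(mem r).2 ⟨hu'r.symm, hur.symm, hRt.hr⟩, ?_, ?_⟩
      · intro v hv hvr
        have hv' := ((mem v).1 hv).2.2
        have hve := Finset.mem_erase.2 ⟨hvr, hv'⟩
        exact (mem _).2 ⟨hcu' v hve, hcu v hve, hRt.hpar v hv' hvr⟩
      · intro v hv hvr
        exact hRt.hdep v ((mem v).1 hv).2.2 hvr
    have hCS' : C ⊆ S' := by
      intro v hv
      refine (mem v).2 ⟨?_, ?_, hCS hv⟩
      · rintro rfl; exact hu'C hv
      · rintro rfl; exact huC hv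
    have hev' : ∀ v ∈ S', Even ((AntiSid.ch par S' r v).filter fun c => c ∉ C).card := by
      intro v hv
      have hvS := ((mem v).1 hv).2.2
      by_cases hvw : par u = v
      · subst hvw
        have h1 : (AntiSid.ch par S' r (par u)).filter (fun c => c ∉ C) =
            (A.erase u).erase u' := by
          ext x
          simp only [hA, AntiSid.ch, Finset.mem_filter, Finset.mem_erase, mem]
          tauto
        have h2 : u' ∈ A.erase u := Finset.mem_erase.2 ⟨hne, hu'A⟩
        rw [h1, Finset.card_erase_of_mem h2, Finset.card_erase_of_mem huA]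
        obtain ⟨k, hk⟩ := hev (par u) hwS
        rw [← hA] at hk
        exact ⟨k - 1, by omega⟩
      · have h1 : (AntiSid.ch par S' r v).filter (fun c => c ∉ C) =
            (AntiSid.ch par S r v).filter (fun c => c ∉ C) := by
          ext x
          simp only [AntiSid.ch, Finset.mem_filter, mem]
          constructor
          · tauto
          · rintro ⟨⟨h2, h3, h4⟩, h5⟩
            refine ⟨⟨⟨?_, ?_, h2⟩, h3, h4⟩, h5⟩
            · rintro rfl
              exact hvw (hpar'.symm.trans h4)
            · rintro rfl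
              exact hvw h4
        rw [h1]
        exact hev v hvS
    obtain ⟨o1, ho1, hg1⟩ := ih _ hlt S' rfl hRt'
      (fun v hv hvr => hexact v ((mem v).1 hv).2.2 hvr) hCS' hev'
    set o2 : V → Bool := Function.update (Function.update o1 u true) u' false with ho2
    have ho2S' : ∀ v ∈ S', o2 v = o1 v := by
      intro v hv
      have hv' := (mem v).1 hv
      simp [ho2, hv'.1, hv'.2.1]
    refine ⟨o2, ?_, ?_⟩
    · intro v hv
      rw [ho2S' v (hCS' hv), ho1 v hv]
    · have hg2 : Good par S' r o2 :=
        good_congr (fun v hv => (ho2S' v (Finset.mem_of_mem_erase hv)).symm) hg1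
      refine good_pair hRt.hr huS hu'S hur hu'r hne.symm hpar'.symm ?_ ?_ hcu hcu' ?_ ?_ hg2
      · intro h; rw [h] at hdu; omega
      · intro h; rw [h] at hdu; rw [h] at hdu'; omega
      · simp [ho2, hne.symm]
      · simp [ho2]
  · have h1 : S \ C = ∅ := Finset.not_nonempty_iff_eq_empty.1 hSC
    have h2 : S = C := Finset.Subset.antisymm (Finset.sdiff_eq_empty_iff_subset.1 h1) hCS
    subst h2
    exact ⟨o, fun _ _ => rfl, hgood⟩

end RED_

theorem p_RED : T_RED := by
  intro V _ _ par dep S C r hRt hexact hCS hrC hclosed hev o hgood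
  exact RED_.main par dep C r hrC hclosed o hgood _ S rfl hRt hexact hCS hev

end

end Pool.Agent.TLT
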