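import Pool.Agent.TLT.Targets

set_option autoImplicit false

/-!
# Trees with long threads in tournaments (MP_d27362_co): the root
-/

namespace Pool.Agent.TLT

open Finset Polynomial
open scoped BigOperators

namespace ROOT_

lemma xx_nonneg {W : Type} [Fintype W] (K : W → W → ℝ) : 0 ≤ xx K := by
  unfold xx av
  exact div_nonneg (Finset.sum_nonneg fun y _ => sq_nonneg _) (Nat.cast_nonneg _)

lemma av_mono {W : Type} [Fintype W] {f g : W → ℝ} (h : ∀ y, f y ≤ g y) : av f ≤ av g := by
  unfold av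
  exact div_le_div_of_nonneg_right (Finset.sum_le_sum fun y _ => h y) (Nat.cast_nonneg _)

lemma av_lin {W : Type} [Fintype W] [Nonempty W] (f g : W → ℝ) (M : ℝ) :
    av (fun y => M * (1 + f y + g y)) = M * (1 + av f + av g) := by
  unfold av
  have h : (Fintype.card W : ℝ) ≠ 0 := by exact_mod_cast Fintype.card_ne_zero
  rw [← Finset.mul_sum, Finset.sum_add_distrib, Finset.sum_add_distrib, Finset.sum_const,
    Finset.card_univ, nsmul_eq_mul]
  field_simp

end ROOT_

open ROOT_ in
/-- the end of the argument near regular tournaments -/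
theorem p_ROOT (h1 : T_THR) (h2 : T_NA) : T_ROOT := by
  intro W _ _ K hK hx F a hF J hJ
  obtain ⟨hF0, M, n, hM, hn, hb, hlog⟩ := hF
  have hx0 := xx_nonneg K
  have hJ1 : 1 ≤ J := by omega
  obtain ⟨M', w, hM', hb', hl', hth⟩ := h1 W K hK hx F n a M hM hn hb J hJ1
  have hn0 : 0 ≤ av n := by
    unfold av
    exact div_nonneg (Finset.sum_nonneg fun y _ => hn y) (Nat.cast_nonneg _)
  have hP : 0 ≤ PP K a (av n) := by
    unfold PP
    have := h2.1 a
    have := mul_nonneg (show (0 : ℝ) ≤ 1 + nA a by linarith) hx0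
    linarith
  set p := pv K (gm J + X ^ J * a) with hp
  have hpow : (3 / 4 : ℝ) ^ J ≤ 1 / 1000 := by
    have h3 : (3 / 4 : ℝ) ^ J ≤ (3 / 4 : ℝ) ^ 80 :=
      pow_le_pow_of_le_one (by norm_num) (by norm_num) (by omega)
    refine h3.trans ?_
    norm_num
  have hPk : (3 / 4 : ℝ) ^ J * PP K a (av n) ≤ 1 / 1000 * PP K a (av n) :=
    mul_le_mul_of_nonneg_right hpow hP
  have e1 : av ((Kd K true)^[J] F) ≤ M' * (1 + av p + av w) := by
    rw [← av_lin]
    exact av_mono hb'
  have e2 : av w ≤ av fun y => |w y| := av_mono fun y => le_abs_self _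
  have e2' : 0 ≤ av fun y => |w y| := by
    unfold av
    exact div_nonneg (Finset.sum_nonneg fun y _ => abs_nonneg _) (Nat.cast_nonneg _)
  have e3 : av p ≤ |av p| := le_abs_self _
  set τ := |av p| + 2 * (av fun y => |w y|) with hτ
  have e4 : 1 + av p + av w ≤ Real.exp τ := by
    have := Real.add_one_le_exp τ
    linarith
  have e5 : M' = Real.exp (Real.log M') := (Real.exp_log hM').symm
  have e6 : M' * (1 + av p + av w) ≤ Real.exp (Real.log M' + τ) := by
    rw [Real.exp_add, Real.exp_log hM']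
    exact mul_le_mul_of_nonneg_left e4 hM'.le
  refine e1.trans (e6.trans ?_)
  rw [← Real.exp_zero]
  apply Real.exp_le_exp.2
  have hJr : (1000000 : ℝ) ≤ J := by exact_mod_cast hJ
  have e7 : (1000000 : ℝ) / 2 * xx K ≤ J / 2 * xx K :=
    mul_le_mul_of_nonneg_right (by linarith) hx0
  linarith

end Pool.Agent.TLT
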