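import Pool.Agent.TLT.Targets

set_option autoImplicit false

/-!
Balanced signs (target SIGN of the project TLT).
-/

namespace Pool.Agent.TLT

open Finset Polynomial
open scoped BigOperators

namespace SIGN_

theorem sg_not (b : Bool) : sg (!b) = - sg b := by
  cases b <;> simp [sg]

theorem main (h1 : T_NA) {V : Type} [DecidableEq V] (p : V → ℝ[X]) (g : ℝ[X]) :
    ∀ (n : ℕ) (s : Finset V), s.card = n →
    ∃ (ε : V → Bool) (i₀ : Option V), (∀ j, i₀ = some j → j ∈ s) ∧
      (∑ i ∈ s.filter (fun i => some i ≠ i₀), sg (ε i)) = 0 ∧
      nA (∑ i ∈ s.filter (fun i => some i ≠ i₀), sg (ε i) • p i) ≤ 2 * ∑ i ∈ s, nA (p i - g) := by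
  obtain ⟨hnn, -, -, hadd, hpar, hneg, -, h0, -⟩ := h1
  intro n
  induction n using Nat.strong_induction_on with
  | _ n ih =>
    intro s hs
    rcases Nat.lt_or_ge n 1 with hn | hn
    · have hs0 : s = ∅ := by
        rw [← Finset.card_eq_zero]; omega
      subst hs0
      refine ⟨fun _ => true, none, by simp, by simp, ?_⟩
      simp [h0]
    rcases Nat.lt_or_ge n 2 with hn2 | hn2
    · obtain ⟨j, rfl⟩ := Finset.card_eq_one.mp (show s.card = 1 by omega)
      refine ⟨fun _ => true, some j, by simp, ?_, ?_⟩
      · simp [Finset.filter_singleton]
      · rw [Finset.filter_singleton]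
        simp only [ne_eq, not_true_eq_false, if_false, Finset.sum_empty, h0,
          Finset.sum_singleton]
        have := hnn (p j - g)
        linarith
    · obtain ⟨i, hi⟩ : s.Nonempty := by
        rw [← Finset.card_pos]; omega
      have hc1 : (s.erase i).card = n - 1 := by rw [Finset.card_erase_of_mem hi, hs]
      obtain ⟨i', hi'⟩ : (s.erase i).Nonempty := by
        rw [← Finset.card_pos]; omega
      have hne : i' ≠ i := Finset.ne_of_mem_erase hi'
      set t := (s.erase i).erase i' with ht
      have hit : i ∉ t := fun h => Finset.notMem_erase i s (Finset.mem_of_mem_erase h)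
      have hi't : i' ∉ t := Finset.notMem_erase i' _
      have hst : s = insert i (insert i' t) := by
        rw [ht, Finset.insert_erase hi', Finset.insert_erase hi]
      have hct : t.card = n - 2 := by
        rw [ht, Finset.card_erase_of_mem hi', hc1]; omega
      obtain ⟨ε, i₀, hj, hsum, hnA⟩ := ih (n - 2) (by omega) t hct
      have hi0 : some i ≠ i₀ := fun h => hit (hj i h.symm)
      have hi0' : some i' ≠ i₀ := fun h => hi't (hj i' h.symm)
      set D := ∑ v ∈ t.filter (fun v => some v ≠ i₀), sg (ε v) • p v with hD
      have hfil : s.filter (fun v => some v ≠ i₀) =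
          insert i (insert i' (t.filter fun v => some v ≠ i₀)) := by
        rw [hst, Finset.filter_insert, if_pos hi0, Finset.filter_insert, if_pos hi0']
      have hif : i ∉ insert i' (t.filter fun v => some v ≠ i₀) := by
        rw [Finset.mem_insert]
        rintro (h | h)
        · exact hne h.symm
        · exact hit (Finset.mem_filter.mp h).1
      have hi'f : i' ∉ t.filter (fun v => some v ≠ i₀) := fun h => hi't (Finset.mem_filter.mp h).1
      have hbeta : nA (p i - p i') ≤ 2 * nA (p i - g) + 2 * nA (p i' - g) := by
        have e : p i - p i' = (p i - g) + (-(p i' - g)) := by ring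
        rw [e]
        refine (hadd _ _).trans ?_
        rw [hneg]
      have hkey : ∃ σ : Bool, nA (D + sg σ • (p i - p i')) ≤ nA D + nA (p i - p i') := by
        by_contra hcon
        push Not at hcon
        have ht := hcon true
        have hf := hcon false
        have e1 : sg true • (p i - p i') = p i - p i' := by simp [sg]
        have e2 : D + sg false • (p i - p i') = D - (p i - p i') := by
          have e3 : sg false = -1 := by simp [sg]
          rw [e3, neg_one_smul, ← sub_eq_add_neg]
        rw [e1] at ht
        rw [e2] at hf
        have := hpar D (p i - p i')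
        linarith
      obtain ⟨σ, hσ⟩ := hkey
      refine ⟨fun v => if v = i then σ else if v = i' then !σ else ε v, i₀, ?_, ?_, ?_⟩
      · intro j h
        rw [hst]
        exact Finset.mem_insert_of_mem (Finset.mem_insert_of_mem (hj j h))
      · rw [hfil, Finset.sum_insert hif, Finset.sum_insert hi'f]
        beta_reduce
        rw [if_pos rfl, if_neg hne, if_pos rfl, sg_not]
        rw [Finset.sum_congr rfl (g := fun v => sg (ε v)), hsum]
        · ring
        · intro v hv
          have hv1 := (Finset.mem_filter.mp hv).1
          have hv2 : v ≠ i := by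
            rintro rfl
            exact hit hv1
          have hv3 : v ≠ i' := by
            rintro rfl
            exact hi't hv1
          rw [if_neg hv2, if_neg hv3]
      · rw [hfil, Finset.sum_insert hif, Finset.sum_insert hi'f]
        beta_reduce
        rw [if_pos rfl, if_neg hne, if_pos rfl, sg_not]
        rw [Finset.sum_congr rfl (g := fun v => sg (ε v) • p v)]
        · rw [← hD]
          have e : sg σ • p i + (-sg σ • p i' + D) = D + sg σ • (p i - p i') := by
            rw [smul_sub, neg_smul]
            ring
          rw [e]
          have hit2 : i ∉ insert i' t := by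
            rw [Finset.mem_insert]
            rintro (h | h)
            · exact hne h.symm
            · exact hit h
          rw [hst, Finset.sum_insert hit2, Finset.sum_insert hi't]
          linarith
        · intro v hv
          have hv1 := (Finset.mem_filter.mp hv).1
          have hv2 : v ≠ i := by
            rintro rfl
            exact hit hv1
          have hv3 : v ≠ i' := by
            rintro rfl
            exact hi't hv1
          rw [if_neg hv2, if_neg hv3]

end SIGN_

theorem p_SIGN (h1 : T_NA) : T_SIGN := by
  intro V _ s p g
  obtain ⟨ε, i₀, -, h2, h3⟩ := SIGN_.main h1 p g s.card s rfl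
  exact ⟨ε, i₀, h2, h3⟩

end Pool.Agent.TLT
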