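import Pool.Agent.TLT.Targets

set_option autoImplicit false

/-!
# Trees with long threads in tournaments (MP_d27362_co): the invariant at a vertex
-/

namespace Pool.Agent.TLT

open Finset Polynomial
open scoped BigOperators

namespace STEP_

noncomputable section

/-- the decay factor of a long thread -/
@[irreducible] def kap : ℝ := (3 / 4 : ℝ) ^ 999999

lemma kap_pos : 0 ≤ kap := by unfold kap; positivity

lemma kap_le : kap ≤ 1 / 1000000000 := by
  have h1 : kap ≤ (3 / 4 : ℝ) ^ 80 := by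
    unfold kap
    exact pow_le_pow_of_le_one (by norm_num) (by norm_num) (by norm_num)
  refine h1.trans ?_
  norm_num

lemma pow_le_kap {j : ℕ} (hj : 999999 ≤ j) : (3 / 4 : ℝ) ^ j ≤ kap := by
  unfold kap
  exact pow_le_pow_of_le_one (by norm_num) (by norm_num) hj

lemma Kd_nonneg {W : Type} [Fintype W] {K : W → W → ℝ} (hK : Krn K) (b : Bool) {f : W → ℝ}
    (hf : ∀ y, 0 ≤ f y) (x : W) : 0 ≤ Kd K b f x := by
  unfold Kd av
  apply div_nonneg _ (Nat.cast_nonneg _)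
  refine Finset.sum_nonneg fun y _ => mul_nonneg ?_ (hf y)
  split_ifs
  · exact hK.nonneg _ _
  · exact hK.nonneg _ _

lemma iter_nonneg {W : Type} [Fintype W] {K : W → W → ℝ} (hK : Krn K) {f : W → ℝ}
    (hf : ∀ y, 0 ≤ f y) (j : ℕ) : ∀ y, 0 ≤ ((Kd K true)^[j] f) y := by
  induction j with
  | zero => simpa using hf
  | succ j ih =>
    intro y
    rw [Function.iterate_succ_apply']
    exact Kd_nonneg hK true ih y

lemma av_nonneg {W : Type} [Fintype W] {f : W → ℝ} (hf : ∀ y, 0 ≤ f y) : 0 ≤ av f := by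
  unfold av
  exact div_nonneg (Finset.sum_nonneg fun y _ => hf y) (Nat.cast_nonneg _)

lemma xx_nonneg {W : Type} [Fintype W] (K : W → W → ℝ) : 0 ≤ xx K := by
  unfold xx
  exact av_nonneg fun y => sq_nonneg _

/-- the data of a child -/
lemma child (hNA : T_NA) (hPVL : T_PVL) (hGEO : T_GEO) (hTHR : T_THR)
    (W : Type) [Fintype W] [Nonempty W] (K : W → W → ℝ) (hK : Krn K) (hx : xx K ≤ 1 / 10000)
    (F : W → ℝ) (a : ℝ[X]) (hT : Top K F a) (L : ℕ) (hL : L = 1000000) :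
    ∃ (M : ℝ) (w : W → ℝ) (P : ℝ), 0 < M ∧ (∀ y, 0 ≤ F y) ∧
      (∀ y, F y ≤ M * (1 + pv K a y + w y)) ∧ 0 ≤ P ∧
      Real.log M ≤ 8500 * xx K - 100 * P - 999999 / 2 * xx K ∧
      th (pv K a) w ≤ 2 * xx K + 400 * (kap * P) ∧
      xx K * nA (1 + X * a - gm L) ≤ 4 * (kap * P) ∧
      xx K * nA (1 + X * a) ≤ 4 * xx K + kap * P ∧
      (av fun y => (dl K y + Sop K (pv K a) y) ^ 2) ≤ 2 * xx K + 12 * (kap * P) := by
  obtain ⟨j, Fb, ab, hj, ⟨hFb, M0, n, hM0, hn, hFM, hlog⟩, hF, ha⟩ := hT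
  obtain ⟨hA0, -, -, -, -, -, -, -, -, hAg, hAL, hgs⟩ := hNA
  have hx0 := xx_nonneg K
  have hj1 : 1 ≤ j := by omega
  have hj9 : 999999 ≤ j := by omega
  have hk0 := kap_pos
  have hkj : (3 / 4 : ℝ) ^ j ≤ kap := pow_le_kap hj9
  have hkj1 : (3 / 4 : ℝ) ^ (j + 1) ≤ kap := pow_le_kap (by omega)
  have hkL : (3 / 4 : ℝ) ^ L ≤ kap := pow_le_kap (by omega)
  have hLj : L ≤ j + 1 := by omega
  clear hL
  have hn0 : 0 ≤ av n := av_nonneg hn
  obtain ⟨M, w, hM, hb, hl, hth⟩ := hTHR W K hK hx Fb n ab M0 hM0 hn hFM j hj1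
  have hA := hA0 ab
  have hP : (1 + nA ab) * xx K ≤ PP K ab (av n) := by
    unfold PP
    linarith
  have hP0 : 0 ≤ PP K ab (av n) := le_trans (mul_nonneg (by linarith) hx0) hP
  have hAx : 0 ≤ nA ab * xx K := mul_nonneg hA hx0
  obtain ⟨E, hE0, hE, -, h2, -, -⟩ := hGEO W K hK ab
  have hXa : 1 + X * a = gm (j + 1) + X ^ (j + 1) * ab := by
    rw [ha]
    exact hgs j ab
  refine ⟨M, w, PP K ab (av n), hM, ?_, ?_, hP0, ?_, ?_, ?_, ?_, ?_⟩
  · intro y
    rw [hF]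
    exact iter_nonneg hK hFb j y
  · intro y
    rw [hF, ha]
    exact hb y
  · have hjr : (999999 : ℝ) ≤ j := by exact_mod_cast hj9
    have : (999999 : ℝ) / 2 * xx K ≤ j / 2 * xx K :=
      mul_le_mul_of_nonneg_right (by linarith) hx0
    linarith
  · unfold th
    rw [ha]
    refine hth.trans ?_
    have := mul_le_mul_of_nonneg_right hkj hP0
    linarith
  · rw [hXa]
    have h3 := hAL L (j + 1) ab hLj
    have h4 : xx K * nA (gm (j + 1) + X ^ (j + 1) * ab - gm L) ≤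
        xx K * ((3 / 4 : ℝ) ^ L * (4 + nA ab)) := mul_le_mul_of_nonneg_left h3 hx0
    refine h4.trans ?_
    have h5 : xx K * (4 + nA ab) ≤ 4 * PP K ab (av n) := by linarith
    have h6 : xx K * ((3 / 4 : ℝ) ^ L * (4 + nA ab)) =
        (3 / 4 : ℝ) ^ L * (xx K * (4 + nA ab)) := by ring
    rw [h6]
    have h7 : (3 / 4 : ℝ) ^ L * (xx K * (4 + nA ab)) ≤
        kap * (4 * PP K ab (av n)) :=
      mul_le_mul hkL h5 (mul_nonneg hx0 (by linarith)) hk0
    linarith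
  · rw [hXa]
    have h3 := hAg (j + 1) ab
    have h4 := mul_le_mul_of_nonneg_left h3 hx0
    refine h4.trans ?_
    have h5 : xx K * (4 + (3 / 4 : ℝ) ^ (j + 1) * nA ab) =
      4 * xx K + (3 / 4 : ℝ) ^ (j + 1) * (nA ab * xx K) := by ring
    rw [h5]
    have h6 : (3 / 4 : ℝ) ^ (j + 1) * (nA ab * xx K) ≤ kap * PP K ab (av n) :=
      mul_le_mul hkj1 (by linarith) hAx hk0
    linarith
  · have h3 := h2 (j + 1)
    rw [← hXa] at h3
    have h4 : (av fun y => (dl K y + Sop K (pv K a) y) ^ 2) =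
        av fun y => pv K (1 + X * a) y ^ 2 := by
      congr 1
      funext y
      rw [(hPVL W K).1 a y]
    rw [h4]
    refine h3.trans ?_
    have h5 : PP K ab 0 ≤ PP K ab (av n) := by
      unfold PP
      linarith
    have h6 : 0 ≤ PP K ab 0 := by
      unfold PP
      have := mul_nonneg (show (0 : ℝ) ≤ 1 + nA ab by linarith) hx0
      linarith
    have h7 : (3 / 4 : ℝ) ^ (j + 1) * PP K ab 0 ≤ kap * PP K ab (av n) :=
      mul_le_mul hkj1 h5 h6 hk0
    linarith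

lemma final_arith (x kP lM lth rho2 A xA an : ℝ) (N SP : ℝ) (hx : 0 ≤ x) (hN : 0 ≤ N)
    (hSP : 0 ≤ SP) (hkP : kP ≤ 1 / 1000000000 * SP)
    (h1 : lM ≤ N * (8500 * x - 999999 / 2 * x) - 100 * SP)
    (h2 : lth ≤ N * (2 * x) + 400 * kP) (h3 : rho2 ≤ 32 * kP)
    (h4 : xA ≤ 8 * x + 18 * kP) (h5 : an ≤ 8 * x + 920 * kP) (h6 : A = x + xA + an) :
    lM + (2 * lth + rho2) + 500 * A ≤ 8500 * x := by
  have h7 : 0 ≤ N * x := mul_nonneg hN hx
  nlinarith

end

end STEP_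

open STEP_ in
/-- the invariant at a vertex -/
theorem p_STEP (h2 : T_NA) (h3 : T_PV) (h4 : T_PVL) (h5 : T_GEO) (h6 : T_THR)
    (h7 : T_BR) : T_STEP := by
  classical
  intro W _ _ K hK hx V s F a ε i₀ hT hB
  have hx0 := xx_nonneg K
  have hk0 := kap_pos
  obtain ⟨L, hL⟩ : ∃ L : ℕ, L = 1000000 := ⟨_, rfl⟩
  have hch : ∀ i, ∃ (M : ℝ) (w : W → ℝ) (P : ℝ), i ∈ s → (0 < M ∧ (∀ y, 0 ≤ F i y) ∧
      (∀ y, F i y ≤ M * (1 + pv K (a i) y + w y)) ∧ 0 ≤ P ∧
      Real.log M ≤ 8500 * xx K - 100 * P - 999999 / 2 * xx K ∧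
      th (pv K (a i)) w ≤ 2 * xx K + 400 * (kap * P) ∧
      xx K * nA (1 + X * a i - gm L) ≤ 4 * (kap * P) ∧
      xx K * nA (1 + X * a i) ≤ 4 * xx K + kap * P ∧
      (av fun y => (dl K y + Sop K (pv K (a i)) y) ^ 2) ≤ 2 * xx K + 12 * (kap * P)) := by
    intro i
    by_cases hi : i ∈ s
    · obtain ⟨M, w, P, h⟩ := child h2 h4 h5 h6 W K hK hx (F i) (a i) (hT i hi) L hL
      exact ⟨M, w, P, fun _ => h⟩
    · exact ⟨1, 0, 0, fun h => absurd h hi⟩
  choose M w P hd using hch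
  have hM : ∀ i ∈ s, 0 < M i := fun i hi => (hd i hi).1
  have hF0 : ∀ i ∈ s, ∀ y, 0 ≤ F i y := fun i hi => (hd i hi).2.1
  have hFM : ∀ i ∈ s, ∀ y, F i y ≤ M i * (1 + pv K (a i) y + w i y) :=
    fun i hi => (hd i hi).2.2.1
  have hP0 : ∀ i ∈ s, 0 ≤ P i := fun i hi => (hd i hi).2.2.2.1
  have hlM : ∀ i ∈ s, Real.log (M i) ≤ 8500 * xx K - 100 * P i - 999999 / 2 * xx K :=
    fun i hi => (hd i hi).2.2.2.2.1
  have hth : ∀ i ∈ s, th (pv K (a i)) (w i) ≤ 2 * xx K + 400 * (kap * P i) :=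
    fun i hi => (hd i hi).2.2.2.2.2.1
  have hAL : ∀ i ∈ s, xx K * nA (1 + X * a i - gm L) ≤ 4 * (kap * P i) :=
    fun i hi => (hd i hi).2.2.2.2.2.2.1
  have hA1 : ∀ i ∈ s, xx K * nA (1 + X * a i) ≤ 4 * xx K + kap * P i :=
    fun i hi => (hd i hi).2.2.2.2.2.2.2.1
  have hsq : ∀ i ∈ s, (av fun y => (dl K y + Sop K (pv K (a i)) y) ^ 2) ≤
      2 * xx K + 12 * (kap * P i) := fun i hi => (hd i hi).2.2.2.2.2.2.2.2
  clear hd
  obtain ⟨hA0, -, -, hAadd, -, -, hAsg, hAz, -, -, -, -⟩ := h2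
  obtain ⟨hB1, hB2⟩ := hB
  rw [← hL] at hB2
  set D : ℝ[X] := ∑ i ∈ s.filter (fun i => some i ≠ i₀), sg (ε i) • (1 + X * a i) with hD
  set SP : ℝ := ∑ i ∈ s, P i with hSP
  have hSP0 : 0 ≤ SP := Finset.sum_nonneg hP0
  have hxD : xx K * nA D ≤ 8 * (kap * SP) := by
    have e1 : xx K * nA D ≤ xx K * (2 * ∑ i ∈ s, nA (1 + X * a i - gm L)) :=
      mul_le_mul_of_nonneg_left hB2 hx0
    have e2 : xx K * (2 * ∑ i ∈ s, nA (1 + X * a i - gm L)) =
        2 * ∑ i ∈ s, xx K * nA (1 + X * a i - gm L) := by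
      rw [Finset.mul_sum, Finset.mul_sum, Finset.mul_sum]
      exact Finset.sum_congr rfl fun i _ => by ring
    have e3 : ∑ i ∈ s, xx K * nA (1 + X * a i - gm L) ≤ ∑ i ∈ s, 4 * (kap * P i) :=
      Finset.sum_le_sum hAL
    have e4 : ∑ i ∈ s, 4 * (kap * P i) = 4 * (kap * SP) := by
      rw [hSP, Finset.mul_sum, Finset.mul_sum]
    linarith
  have hDnn := hA0 D
  have hD0 : D.coeff 0 = 0 := by
    rw [hD, Polynomial.finsetSum_coeff, ← hB1]
    refine Finset.sum_congr rfl fun i _ => ?_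
    simp
  obtain ⟨ρ, hρ⟩ : ∃ ρ, ρ = Real.sqrt (4 * nA D * xx K) := ⟨_, rfl⟩
  have hρ0 : 0 ≤ ρ := hρ ▸ Real.sqrt_nonneg _
  have hρ2 : ρ ^ 2 = 4 * nA D * xx K := by
    rw [hρ, Real.sq_sqrt]
    exact mul_nonneg (by linarith) hx0
  have hlin : ∀ (t : Finset V) (y : W), pv K (∑ i ∈ t, sg (ε i) • (1 + X * a i)) y =
      ∑ i ∈ t, sg (ε i) * (dl K y + Sop K (pv K (a i)) y) := by
    intro t y
    rw [(h4 W K).2.1 V t (fun i => sg (ε i)) (fun i => 1 + X * a i) y]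
    exact Finset.sum_congr rfl fun i _ => by rw [(h4 W K).1 (a i) y]
  have hρb : ∀ y, |∑ i ∈ s.filter (fun i => some i ≠ i₀),
      sg (ε i) * (dl K y + Sop K (pv K (a i)) y)| ≤ ρ := by
    intro y
    rw [← hlin, ← hD]
    apply abs_le_of_sq_le_sq _ hρ0
    rw [hρ2]
    exact (h3 W K hK D).2.2 hD0 y
  obtain ⟨n, hn0, hnb, hnav⟩ := h7 W K hK V s F (fun i => pv K (a i)) w M ε i₀ ρ hM hF0 hFM
    hρ0 hρb
  have hMpos : 0 < ∏ i ∈ s, M i := Finset.prod_pos hM
  refine ⟨fun y => Finset.prod_nonneg fun i hi => Kd_nonneg hK _ (hF0 i hi) y,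
    (∏ i ∈ s, M i) * Real.exp (2 * ∑ i ∈ s, th (pv K (a i)) (w i) + ρ ^ 2), n,
    mul_pos hMpos (Real.exp_pos _), hn0, ?_, ?_⟩
  · intro y
    rw [hlin]
    exact hnb y
  · rw [Real.log_mul hMpos.ne' (Real.exp_pos _).ne', Real.log_exp,
      Real.log_prod (fun i hi => (hM i hi).ne')]
    have hcard : (s.filter (fun i => some i = i₀)).card ≤ 1 := by
      rw [Finset.card_le_one]
      intro i hi j hj
      rw [Finset.mem_filter] at hi hj
      exact Option.some_injective _ (hi.2.trans hj.2.symm)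
    have hcard' : ((s.filter (fun i => some i = i₀)).card : ℝ) ≤ 1 := by exact_mod_cast hcard
    set t := s.filter (fun i => some i = i₀) with ht
    have hts : t ⊆ s := Finset.filter_subset _ _
    have htP : ∑ i ∈ t, P i ≤ SP :=
      Finset.sum_le_sum_of_subset_of_nonneg hts fun i hi _ => hP0 i hi
    have hsplit : (∑ i ∈ s, sg (ε i) • (1 + X * a i)) =
        D + ∑ i ∈ t, sg (ε i) • (1 + X * a i) := by
      rw [hD, ht, Finset.sum_filter, Finset.sum_filter, ← Finset.sum_add_distrib]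
      refine Finset.sum_congr rfl fun i _ => ?_
      by_cases hi : some i = i₀
      · rw [if_neg (not_not.2 hi), if_pos hi, zero_add]
      · rw [if_pos hi, if_neg hi, add_zero]
    have hR : nA (∑ i ∈ t, sg (ε i) • (1 + X * a i)) = ∑ i ∈ t, nA (1 + X * a i) := by
      rcases Nat.le_one_iff_eq_zero_or_eq_one.1 hcard with h0 | h0
      · rw [Finset.card_eq_zero] at h0
        rw [h0, Finset.sum_empty, Finset.sum_empty, hAz]
      · rw [Finset.card_eq_one] at h0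
        obtain ⟨i, hi⟩ := h0
        rw [hi, Finset.sum_singleton, Finset.sum_singleton, hAsg]
    have hxR : xx K * nA (∑ i ∈ t, sg (ε i) • (1 + X * a i)) ≤ 4 * xx K + kap * SP := by
      rw [hR, Finset.mul_sum]
      have e1 : ∑ i ∈ t, xx K * nA (1 + X * a i) ≤ ∑ i ∈ t, (4 * xx K + kap * P i) :=
        Finset.sum_le_sum fun i hi => hA1 i (hts hi)
      have e2 : ∑ i ∈ t, (4 * xx K + kap * P i) = t.card * (4 * xx K) + kap * ∑ i ∈ t, P i := by
        rw [Finset.sum_add_distrib, Finset.sum_const, nsmul_eq_mul, Finset.mul_sum]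
      have e3 : (t.card : ℝ) * (4 * xx K) ≤ 1 * (4 * xx K) :=
        mul_le_mul_of_nonneg_right hcard' (by linarith)
      have e4 := mul_le_mul_of_nonneg_left htP hk0
      linarith
    have hxA : xx K * nA (∑ i ∈ s, sg (ε i) • (1 + X * a i)) ≤ 8 * xx K + 18 * (kap * SP) := by
      rw [hsplit]
      have e1 := mul_le_mul_of_nonneg_left
        (hAadd D (∑ i ∈ t, sg (ε i) • (1 + X * a i))) hx0
      linarith
    have han : av n ≤ 8 * xx K + 920 * (kap * SP) := by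
      refine hnav.trans ?_
      rw [hρ2]
      have e1 : ∑ i ∈ t, (2 * th (pv K (a i)) (w i) +
          2 * av fun y => (dl K y + Sop K (pv K (a i)) y) ^ 2) ≤
          ∑ i ∈ t, (8 * xx K + 824 * (kap * P i)) := by
        refine Finset.sum_le_sum fun i hi => ?_
        have := hth i (hts hi)
        have := hsq i (hts hi)
        linarith
      have e2 : ∑ i ∈ t, (8 * xx K + 824 * (kap * P i)) =
          t.card * (8 * xx K) + 824 * (kap * ∑ i ∈ t, P i) := by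
        rw [Finset.sum_add_distrib, Finset.sum_const, nsmul_eq_mul, Finset.mul_sum,
          Finset.mul_sum]
      have e3 : (t.card : ℝ) * (8 * xx K) ≤ 1 * (8 * xx K) :=
        mul_le_mul_of_nonneg_right hcard' (by linarith)
      have e4 := mul_le_mul_of_nonneg_left htP hk0
      linarith
    have hl1 : ∑ i ∈ s, Real.log (M i) ≤
        (s.card : ℝ) * (8500 * xx K - 999999 / 2 * xx K) - 100 * SP := by
      have e1 : ∑ i ∈ s, Real.log (M i) ≤
          ∑ i ∈ s, ((8500 * xx K - 999999 / 2 * xx K) - 100 * P i) :=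
        Finset.sum_le_sum fun i hi => by
          have := hlM i hi
          linarith
      rw [Finset.sum_sub_distrib, Finset.sum_const, nsmul_eq_mul, ← Finset.mul_sum] at e1
      exact e1
    have hl2 : ∑ i ∈ s, th (pv K (a i)) (w i) ≤ (s.card : ℝ) * (2 * xx K) +
        400 * (kap * SP) := by
      have e1 := Finset.sum_le_sum hth
      rw [Finset.sum_add_distrib, Finset.sum_const, nsmul_eq_mul, ← Finset.mul_sum,
        ← Finset.mul_sum] at e1
      exact e1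
    have hkP : kap * SP ≤ 1 / 1000000000 * SP := mul_le_mul_of_nonneg_right kap_le hSP0
    refine final_arith (xx K) (kap * SP) _ _ (ρ ^ 2) _ _ (av n) (s.card : ℝ) SP hx0
      (Nat.cast_nonneg _) hSP0 hkP hl1 hl2 ?_ hxA han ?_
    · rw [hρ2]
      linarith
    · unfold PP
      ring

end Pool.Agent.TLT
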