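import Pool.Agent.TLT.Targets

set_option autoImplicit false

/-!
# THR: a thread
-/

namespace Pool.Agent.TLT

open Finset Polynomial
open scoped BigOperators

noncomputable section

namespace THR_

/-- dependent choice with an index -/
lemma seq_exists {α : Type} (P : ℕ → α → Prop) (R : ℕ → α → α → Prop) (a0 : α) (h0 : P 0 a0)
    (hs : ∀ j a, P j a → ∃ b, P (j + 1) b ∧ R j a b) :
    ∃ s : ℕ → α, s 0 = a0 ∧ (∀ j, P j (s j)) ∧ ∀ j, R j (s j) (s (j + 1)) := by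
  choose g hg1 hg2 using hs
  let t : (j : ℕ) → {a : α // P j a} := fun j =>
    Nat.rec ⟨a0, h0⟩ (fun j x => ⟨g j x.1 x.2, hg1 j x.1 x.2⟩) j
  exact ⟨fun j => (t j).1, rfl, fun j => (t j).2, fun j => hg2 j (t j).1 (t j).2⟩

/-- summing the recursion for the logarithms -/
lemma sum_le {u c : ℕ → ℝ} (h : ∀ j, u (j + 1) ≤ u j + c j) (J : ℕ) :
    u J ≤ u 0 + ∑ j ∈ range J, c j := by
  induction J with
  | zero => simp
  | succ J ih =>
    rw [sum_range_succ]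
    have := h J
    linarith

lemma av_nonneg {W : Type} [Fintype W] {f : W → ℝ} (h : ∀ y, 0 ≤ f y) : 0 ≤ av f :=
  div_nonneg (sum_nonneg fun y _ => h y) (Nat.cast_nonneg _)

lemma lam_le : Real.sqrt (1 / 2) ≤ 3 / 4 := by
  rw [Real.sqrt_le_left (by norm_num)]
  norm_num

/-- the final estimates -/
lemma final1 (x A nu I0 E : ℝ) (hx : 0 ≤ x) (hx1 : x ≤ 1 / 10000) (hA : 0 ≤ A) (hnu : 0 ≤ nu)
    (hI : |I0| ≤ 123 / 100 * (1 + A) * x) (hI2 : I0 ^ 2 ≤ 6 * A * x ^ 2)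
    (hE : E ^ 2 ≤ (6 * A + 2) * x) :
    10 * nu + 5 * |I0| + 2 * I0 ^ 2 + 7 * x + 55 * E ^ 2 ≤ 400 * ((1 + A) * x + nu) := by
  have h1 : A * x ^ 2 ≤ A * x * (1 / 10000) := by
    have : A * x ^ 2 = A * x * x := by ring
    rw [this]
    exact mul_le_mul_of_nonneg_left hx1 (mul_nonneg hA hx)
  have h2 := mul_nonneg hA hx
  nlinarith

lemma final2 (x A nu I0 E : ℝ) (hx : 0 ≤ x) (hA : 0 ≤ A) (hnu : 0 ≤ nu)
    (hI : |I0| ≤ 123 / 100 * (1 + A) * x)
    (hE : E ^ 2 ≤ (6 * A + 2) * x) :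
    |I0| + 2 * nu + x + 13 * E ^ 2 ≤ 80 * ((1 + A) * x + nu) := by
  have h2 := mul_nonneg hA hx
  nlinarith

end THR_

open THR_ in
theorem p_THR (_h1 : T_BAS) (h2 : T_NA) (h3 : T_PV) (h4 : T_GEO) (h5 : T_ONE) (h6 : T_REC) :
    T_THR := by
  intro W _ _ K hK hx f n a M hM hn hf J hJ
  obtain ⟨hA0, -, -, -, -, -, -, -, -, -, -, hgm⟩ := h2
  have hA : 0 ≤ nA a := hA0 a
  have hx0 : 0 ≤ xx K := av_nonneg fun y => sq_nonneg _
  obtain ⟨E, hE0, hE2, hg1, -, hg3, hg4⟩ := h4 W K hK a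
  -- the sequences
  obtain ⟨s, hs0, hsP, hsR⟩ := seq_exists (α := ℝ × (W → ℝ))
    (fun j p => 0 < p.1 ∧ ∀ y, ((Kd K true)^[j] f) y ≤
      p.1 * (1 + pv K (gm j + X ^ j * a) y + p.2 y))
    (fun j p q =>
      Real.log q.1 ≤ Real.log p.1 + (av (pv K (gm j + X ^ j * a)) + 2 * (av fun y => |p.2 y|)) +
        2 * (av (pv K (gm j + X ^ j * a))) ^ 2 ∧
      (av fun y => |q.2 y|) ≤
        min 1 (2 * |av (pv K (gm j + X ^ j * a)) + 2 * (av fun y => |p.2 y|)|) *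
        Real.sqrt (av fun y => pv K (gm (j + 1) + X ^ (j + 1) * a) y ^ 2))
    (M, n) ⟨hM, by
      intro y
      have : gm 0 + X ^ 0 * a = a := by simp [gm]
      rw [this]
      exact hf y⟩ (by
      rintro j ⟨p, w⟩ ⟨hp, hb⟩
      obtain ⟨M', w', hM', hb', hl, hw⟩ := h5 W K hK ((Kd K true)^[j] f) w (gm j + X ^ j * a) p hp hb
      rw [hgm j a] at hb' hw
      refine ⟨(M', w'), ⟨hM', fun y => ?_⟩, hl, hw⟩
      rw [Function.iterate_succ_apply']
      exact hb' y)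
  obtain ⟨j, rfl⟩ : ∃ j, J = j + 1 := ⟨J - 1, by omega⟩
  -- abbreviations
  set I : ℕ → ℝ := fun j => av (pv K (gm j + X ^ j * a)) with hI
  set om : ℕ → ℝ := fun j => av fun y => |(s j).2 y| with hom
  set d : ℝ := Real.sqrt (xx K) with hd
  have hd0 : 0 ≤ d := Real.sqrt_nonneg _
  have hd2 : d ^ 2 = xx K := Real.sq_sqrt hx0
  have hd1 : d ≤ 1 / 100 := by
    rw [hd, Real.sqrt_le_left (by norm_num)]
    linarith
  have hgm0 : gm 0 + X ^ 0 * a = a := by simp [gm]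
  have hI0 : I 0 = av (pv K a) := by
    simp only [hI, hgm0]
  have hnu : 0 ≤ av n := av_nonneg hn
  have hom0 : om 0 = av n := by
    simp only [hom, hs0]
    congr 1
    funext y
    exact abs_of_nonneg (hn y)
  have homn : ∀ j, 0 ≤ om j := fun j => av_nonneg fun y => abs_nonneg _
  obtain ⟨hr1, hr2⟩ := h6 d E (av n) (I 0) I om hd0 hd1 hE0 hnu rfl hom0 homn
    (fun j => by rw [hd2]; exact hg3 j) (fun j => by rw [hd2]; exact hg4 j)
    (fun j => le_trans (hsR j).2 (mul_le_mul_of_nonneg_left (hg1 (j + 1))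
      (le_min zero_le_one (by positivity))))
  rw [hd2] at hr1 hr2
  -- bounds for the starting values
  have hIsq : I 0 ^ 2 ≤ 6 * nA a * xx K ^ 2 := by
    rw [hI0]
    exact (h3 W K hK a).2.1
  have hIab : |I 0| ≤ 123 / 100 * (1 + nA a) * xx K := by
    refine abs_le_of_sq_le_sq ?_ (by positivity)
    refine hIsq.trans ?_
    have : (123 / 100 * (1 + nA a) * xx K) ^ 2 = (123 / 100 * (1 + nA a)) ^ 2 * xx K ^ 2 := by ring
    rw [this]
    refine mul_le_mul_of_nonneg_right ?_ (sq_nonneg _)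
    nlinarith [sq_nonneg (1 - nA a)]
  have hP0 : 0 ≤ PP K a (av n) := by
    unfold PP
    positivity
  have hf1 := final1 (xx K) (nA a) (av n) (I 0) E hx0 hx hA hnu hIab hIsq hE2
  have hf2 := final2 (xx K) (nA a) (av n) (I 0) E hx0 hA hnu hIab hE2
  refine ⟨(s (j + 1)).1, (s (j + 1)).2, (hsP (j + 1)).1, (hsP (j + 1)).2, ?_, ?_⟩
  · have hl := sum_le (u := fun j => Real.log (s j).1) (c := fun j => I j + 2 * om j + 2 * I j ^ 2)
      (fun j => by have := (hsR j).1; simp only [hI, hom]; linarith) (j + 1)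
    have hr := hr2 (j + 1) (by omega)
    simp only [hs0] at hl
    unfold PP
    linarith
  · -- the last item
    have hdE : d * E ≤ 2 * (1 + nA a) * xx K := by
      refine abs_le_of_sq_le_sq' ?_ (by positivity) |>.2
      have e1 : (d * E) ^ 2 = xx K * E ^ 2 := by rw [mul_pow, hd2]
      have e2 : (2 * (1 + nA a) * xx K) ^ 2 = xx K * (4 * (1 + nA a) ^ 2 * xx K) := by ring
      rw [e1, e2]
      refine mul_le_mul_of_nonneg_left (hE2.trans (mul_le_mul_of_nonneg_right ?_ hx0)) hx0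
      nlinarith [sq_nonneg (nA a)]
    have hPx : (1 + nA a) * xx K ≤ PP K a (av n) := by
      unfold PP
      linarith
    have hlam : Real.sqrt (1 / 2) ^ j ≤ (3 / 4 : ℝ) ^ j :=
      pow_le_pow_left₀ (Real.sqrt_nonneg _) lam_le j
    have hhalf : (1 / 2 : ℝ) ^ (j + 1) ≤ (3 / 4 : ℝ) ^ (j + 1) :=
      pow_le_pow_left₀ (by norm_num) (by norm_num) _
    have hq : (3 / 4 : ℝ) ^ j = 4 / 3 * (3 / 4 : ℝ) ^ (j + 1) := by
      rw [pow_succ]; ring
    have a1 : |I (j + 1)| ≤ xx K + 8 / 3 * ((3 / 4 : ℝ) ^ (j + 1) * PP K a (av n)) := by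
      refine (hg4 j).trans ?_
      have : d * (Real.sqrt (1 / 2) ^ j * E) ≤ 8 / 3 * ((3 / 4 : ℝ) ^ (j + 1) * PP K a (av n)) := by
        calc d * (Real.sqrt (1 / 2) ^ j * E) = Real.sqrt (1 / 2) ^ j * (d * E) := by ring
          _ ≤ (3 / 4 : ℝ) ^ j * (2 * (1 + nA a) * xx K) :=
            mul_le_mul hlam hdE (mul_nonneg hd0 hE0) (by positivity)
          _ ≤ (3 / 4 : ℝ) ^ j * (2 * PP K a (av n)) := by
            refine mul_le_mul_of_nonneg_left (by linarith) (by positivity)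
          _ = 8 / 3 * ((3 / 4 : ℝ) ^ (j + 1) * PP K a (av n)) := by
            rw [hq]; ring
      linarith
    have a2 : om (j + 1) ≤ 160 * ((3 / 4 : ℝ) ^ (j + 1) * PP K a (av n)) + 6 * d ^ 3 := by
      refine (hr1 j).trans ?_
      have hX0 : 0 ≤ |I 0| + 2 * av n + xx K + 13 * E ^ 2 := by positivity
      have hXP : |I 0| + 2 * av n + xx K + 13 * E ^ 2 ≤ 80 * PP K a (av n) := hf2
      have : 2 * (1 / 2 : ℝ) ^ (j + 1) * (|I 0| + 2 * av n + xx K + 13 * E ^ 2) ≤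
          160 * ((3 / 4 : ℝ) ^ (j + 1) * PP K a (av n)) := by
        calc 2 * (1 / 2 : ℝ) ^ (j + 1) * (|I 0| + 2 * av n + xx K + 13 * E ^ 2)
            ≤ 2 * (3 / 4 : ℝ) ^ (j + 1) * (80 * PP K a (av n)) :=
              mul_le_mul (by linarith) hXP hX0 (by positivity)
          _ = 160 * ((3 / 4 : ℝ) ^ (j + 1) * PP K a (av n)) := by ring
      linarith
    have a3 : d ^ 3 ≤ 1 / 100 * xx K := by
      have : d ^ 3 = d * xx K := by rw [← hd2]; ring
      rw [this]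
      exact mul_le_mul_of_nonneg_right hd1 hx0
    have a4 : 0 ≤ (3 / 4 : ℝ) ^ (j + 1) * PP K a (av n) := by positivity
    have goal : |I (j + 1)| + 2 * om (j + 1) ≤
        2 * xx K + 400 * ((3 / 4 : ℝ) ^ (j + 1) * PP K a (av n)) := by linarith
    calc |av (pv K (gm (j + 1) + X ^ (j + 1) * a))| + 2 * (av fun y => |(s (j + 1)).2 y|)
        = |I (j + 1)| + 2 * om (j + 1) := rfl
      _ ≤ _ := goal
      _ = _ := by ring

end

end Pool.Agent.TLT
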