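import Pool.Agent.TLT.Targets

set_option autoImplicit false

/-!
# The square norm of `δ` is at most `1 / 3`
-/

namespace Pool.Agent.TLT

open Finset
open scoped BigOperators

namespace TRI_

theorem tri_ineq (a b c : ℝ) (ha : -1 ≤ a ∧ a ≤ 1) (hb : -1 ≤ b ∧ b ≤ 1)
    (hc : -1 ≤ c ∧ c ≤ 1) : a * (-c) + b * (-a) + c * (-b) ≤ 1 := by
  have h1 : 0 ≤ (1 + a) * (1 + b) * (1 + c) :=
    mul_nonneg (mul_nonneg (by linarith) (by linarith)) (by linarith)
  have h2 : 0 ≤ (1 - a) * (1 - b) * (1 - c) :=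
    mul_nonneg (mul_nonneg (by linarith) (by linarith)) (by linarith)
  nlinarith

theorem sum_ineq {W : Type} [Fintype W] (s : W → W → ℝ) (hs : ∀ x y, s x y + s y x = 0)
    (h1 : ∀ x y, -1 ≤ s x y ∧ s x y ≤ 1) :
    3 * ∑ x, (∑ y, s x y) ^ 2 ≤ (Fintype.card W : ℝ) ^ 3 := by
  have e1 : ∑ x, (∑ y, s x y) ^ 2 = ∑ x, ∑ y, ∑ z, s x y * s x z := by
    refine Finset.sum_congr rfl fun x _ => ?_
    rw [sq, Finset.sum_mul_sum]
  have e2 : ∑ x, (∑ y, s x y) ^ 2 = ∑ x, ∑ y, ∑ z, s y z * s y x := by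
    rw [e1, Finset.sum_comm]
    refine Finset.sum_congr rfl fun x _ => ?_
    refine Finset.sum_congr rfl fun y _ => ?_
    refine Finset.sum_congr rfl fun z _ => mul_comm _ _
  have e3 : ∑ x, (∑ y, s x y) ^ 2 = ∑ x, ∑ y, ∑ z, s z x * s z y := by
    rw [e1]
    calc ∑ x, ∑ y, ∑ z, s x y * s x z = ∑ y, ∑ x, ∑ z, s x y * s x z := Finset.sum_comm
      _ = ∑ y, ∑ z, ∑ x, s x y * s x z :=
          Finset.sum_congr rfl fun y _ => Finset.sum_comm
  have e4 : ∑ x : W, ∑ y : W, ∑ z : W, (s x y * s x z + s y z * s y x + s z x * s z y) ≤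
      ∑ x : W, ∑ y : W, ∑ z : W, (1 : ℝ) := by
    refine Finset.sum_le_sum fun x _ => Finset.sum_le_sum fun y _ =>
      Finset.sum_le_sum fun z _ => ?_
    have h2 := tri_ineq (s x y) (s y z) (s z x) (h1 x y) (h1 y z) (h1 z x)
    have h3 : s x z = - s z x := by linarith [hs x z]
    have h4 : s y x = - s x y := by linarith [hs x y]
    have h5 : s z y = - s y z := by linarith [hs y z]
    rw [h3, h4, h5]
    exact h2
  simp only [Finset.sum_add_distrib] at e4
  rw [← e1, ← e2, ← e3] at e4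
  simp only [Finset.sum_const, Finset.card_univ, nsmul_eq_mul, mul_one] at e4
  calc 3 * ∑ x, (∑ y, s x y) ^ 2 = ∑ x, (∑ y, s x y) ^ 2 + ∑ x, (∑ y, s x y) ^ 2 +
        ∑ x, (∑ y, s x y) ^ 2 := by ring
    _ ≤ _ := e4
    _ = (Fintype.card W : ℝ) ^ 3 := by ring

end TRI_

theorem p_TRI : T_TRI := by
  intro W _ _ K hK
  have hN : (0 : ℝ) < Fintype.card W := by exact_mod_cast Fintype.card_pos
  have h := TRI_.sum_ineq (fun x y => K x y - 1) (fun x y => by
    have := hK.add x y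
    linarith) (fun x y => by
    have h1 := hK.add x y
    have h2 := hK.nonneg x y
    have h3 := hK.nonneg y x
    constructor <;> linarith)
  have e : xx K = (∑ x, (∑ y, (K x y - 1)) ^ 2) / (Fintype.card W : ℝ) ^ 3 := by
    unfold xx av dl
    rw [div_eq_div_iff hN.ne' (pow_ne_zero 3 hN.ne'), Finset.sum_mul, Finset.sum_mul]
    refine Finset.sum_congr rfl fun x _ => ?_
    have e2 : Sop K (fun _ => 1) x = (∑ y, (K x y - 1)) / Fintype.card W := by
      change av (fun y => (K x y - 1) * 1) = _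
      simp [av]
    rw [e2]
    field_simp
  rw [e, div_le_iff₀ (pow_pos hN 3)]
  linarith

end Pool.Agent.TLT
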