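import Pool.Agent.TLT.BAS
import Pool.Agent.TLT.NRM
import Pool.Agent.TLT.TRI
import Pool.Agent.TLT.HH
import Pool.Agent.TLT.DECAY
import Pool.Agent.TLT.NA
import Pool.Agent.TLT.SIGN
import Pool.Agent.TLT.PVL
import Pool.Agent.TLT.PV
import Pool.Agent.TLT.GEO
import Pool.Agent.TLT.ONE
import Pool.Agent.TLT.REC
import Pool.Agent.TLT.THR
import Pool.Agent.TLT.BR
import Pool.Agent.TLT.STEP
import Pool.Agent.TLT.ROOT
import Pool.Agent.TLT.FAR
import Pool.Agent.TLT.KER
import Pool.Agent.TLT.ELIM
import Pool.Agent.TLT.CHOICE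
import Pool.Agent.TLT.DESC
import Pool.Agent.TLT.CORE
import Pool.Agent.TLT.RED
import Pool.Agent.TLT.FIN

set_option autoImplicit false

/-!
# Trees with long threads in tournaments (MP_d27362_co): assembly
-/

namespace Pool.Agent.TLT

/-- all targets together -/
theorem final : T_FIN := by
  have bas : T_BAS := p_BAS
  have nrm : T_NRM := p_NRM bas
  have tri : T_TRI := p_TRI
  have hh : T_HH := p_HH bas nrm
  have decay : T_DECAY := p_DECAY bas tri
  have na : T_NA := p_NA
  have sign : T_SIGN := p_SIGN na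
  have pvl : T_PVL := p_PVL
  have pv : T_PV := p_PV bas nrm
  have geo : T_GEO := p_GEO bas nrm hh pv pvl
  have one : T_ONE := p_ONE bas pvl
  have hrec : T_REC := p_REC
  have thr : T_THR := p_THR bas na pv geo one hrec
  have br : T_BR := p_BR bas
  have step : T_STEP := p_STEP na pv pvl geo thr br
  have root : T_ROOT := p_ROOT thr na
  have far : T_FAR := p_FAR bas decay
  have core : T_CORE := p_CORE p_KER p_ELIM (p_CHOICE sign) p_DESC step root far
  exact p_FIN core p_RED

end Pool.Agent.TLT
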