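import Pool.Agent.TLT.Targets

set_option autoImplicit false

/-!
# Choice of polynomials and orientation (MP_d27362_co)
-/

namespace Pool.Agent.TLT

open Finset Polynomial
open scoped BigOperators

namespace CHOICE_

/-- the conditions at a vertex -/
def Pr {V : Type} [Fintype V] [DecidableEq V] (par : V → V) (S : Finset V) (r : V)
    (a : V → ℝ[X]) (o : V → Bool) (v : V) : Prop :=
  a v = ∑ c ∈ AntiSid.ch par S r v, sg (o c) • (1 + X * a c) ∧
    ((AntiSid.ch par S r v).card = 1 → ∀ c ∈ AntiSid.ch par S r v, o c = true) ∧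
    ((AntiSid.ch par S r v).card ≠ 1 → ∃ i₀, Bal (AntiSid.ch par S r v) a o i₀)

theorem Bal_congr {V : Type} (s : Finset V) (a a' : V → ℝ[X]) (o o' : V → Bool)
    (i₀ : Option V) (h : ∀ c ∈ s, a c = a' c ∧ o c = o' c) (hB : Bal s a o i₀) :
    Bal s a' o' i₀ := by
  classical
  obtain ⟨h1, h2⟩ := hB
  refine ⟨?_, ?_⟩
  · rw [← h1]
    refine Finset.sum_congr rfl fun i hi => ?_
    rw [(h i (Finset.mem_filter.mp hi).1).2]
  · have e1 : ∑ i ∈ s.filter (fun i => some i ≠ i₀), sg (o' i) • (1 + X * a' i) =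
        ∑ i ∈ s.filter (fun i => some i ≠ i₀), sg (o i) • (1 + X * a i) := by
      refine Finset.sum_congr rfl fun i hi => ?_
      rw [(h i (Finset.mem_filter.mp hi).1).2, (h i (Finset.mem_filter.mp hi).1).1]
    have e2 : ∑ i ∈ s, nA (1 + X * a' i - gm 1000000) =
        ∑ i ∈ s, nA (1 + X * a i - gm 1000000) := by
      refine Finset.sum_congr rfl fun i hi => ?_
      rw [(h i hi).1]
    rw [e2]
    convert h2 using 2

theorem Pr_congr {V : Type} [Fintype V] [DecidableEq V] (par : V → V) (S : Finset V) (r : V)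
    (a a' : V → ℝ[X]) (o o' : V → Bool) (v : V) (hv : a v = a' v)
    (h : ∀ c ∈ AntiSid.ch par S r v, a c = a' c ∧ o c = o' c) (hP : Pr par S r a o v) :
    Pr par S r a' o' v := by
  obtain ⟨h1, h2, h3⟩ := hP
  refine ⟨?_, ?_, ?_⟩
  · rw [← hv, h1]
    refine Finset.sum_congr rfl fun c hc => ?_
    rw [(h c hc).1, (h c hc).2]
  · intro hc c hcc
    rw [← (h c hcc).2]
    exact h2 hc c hcc
  · intro hc
    obtain ⟨i₀, hi⟩ := h3 hc
    exact ⟨i₀, Bal_congr _ a a' o o' i₀ h hi⟩

theorem step (h1 : T_SIGN) {V : Type} [Fintype V] [DecidableEq V] (par : V → V) (dep : V → ℕ)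
    (S : Finset V) (r : V) (hR : Rt par dep S r) (t : ℕ)
    (ih : ∃ (a : V → ℝ[X]) (o : V → Bool), ∀ v ∈ S, t + 1 ≤ dep v → Pr par S r a o v) :
    ∃ (a : V → ℝ[X]) (o : V → Bool), ∀ v ∈ S, t ≤ dep v → Pr par S r a o v := by
  classical
  obtain ⟨a, o, hao⟩ := ih
  have hS := fun v : V => h1 V (AntiSid.ch par S r v) (fun c => 1 + X * a c) (gm 1000000)
  choose ε i₀ hε using hS
  have hdep : ∀ v, ∀ c ∈ AntiSid.ch par S r v, dep v < dep c ∧ par c = v := by
    intro v c hc
    simp only [AntiSid.ch, Finset.mem_filter] at hc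
    have := hR.hdep c hc.1 hc.2.1
    rw [hc.2.2] at this
    exact ⟨this, hc.2.2⟩
  obtain ⟨o', ho'⟩ : ∃ o' : V → Bool, ∀ c, o' c = if dep (par c) = t then
      (if (AntiSid.ch par S r (par c)).card = 1 then true else ε (par c) c) else o c :=
    ⟨_, fun c => rfl⟩
  obtain ⟨a', ha'⟩ : ∃ a' : V → ℝ[X], ∀ v, a' v = if dep v = t then
      ∑ c ∈ AntiSid.ch par S r v, sg (o' c) • (1 + X * a c) else a v := ⟨_, fun v => rfl⟩
  refine ⟨a', o', fun v hv htv => ?_⟩
  rcases Nat.eq_or_lt_of_le htv with h | h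
  · -- depth `t`
    have hca : ∀ c ∈ AntiSid.ch par S r v, a c = a' c := by
      intro c hc
      rw [ha', if_neg]
      have := (hdep v c hc).1
      omega
    refine ⟨?_, ?_, ?_⟩
    · rw [ha' v, if_pos h.symm]
      exact Finset.sum_congr rfl fun c hc => by rw [hca c hc]
    · intro hcard c hc
      rw [ho' c, (hdep v c hc).2, if_pos h.symm, if_pos hcard]
    · intro hcard
      refine ⟨i₀ v, ?_⟩
      have hB : Bal (AntiSid.ch par S r v) a (ε v) (i₀ v) := by
        obtain ⟨e1, e2⟩ := hε v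
        refine ⟨?_, ?_⟩
        · convert e1
        · convert e2
      refine Bal_congr _ a a' (ε v) o' (i₀ v) (fun c hc => ⟨hca c hc, ?_⟩) hB
      rw [ho' c, (hdep v c hc).2, if_pos h.symm, if_neg hcard]
  · refine Pr_congr par S r a a' o o' v ?_ (fun c hc => ⟨?_, ?_⟩) (hao v hv h)
    · rw [ha', if_neg (by omega)]
    · rw [ha', if_neg]
      have := (hdep v c hc).1
      omega
    · rw [ho' c, (hdep v c hc).2, if_neg (by omega)]

end CHOICE_

open CHOICE_ in
/-- CHOICE -/
theorem p_CHOICE (h1 : T_SIGN) : T_CHOICE := by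
  intro V _ _ par dep S r hR
  have hall : ∀ n : ℕ, ∀ t : ℕ, (∑ v, dep v) + 1 = t + n → ∃ (a : V → ℝ[X]) (o : V → Bool),
      ∀ v ∈ S, t ≤ dep v → Pr par S r a o v := by
    intro n
    induction n with
    | zero =>
      intro t ht
      refine ⟨fun _ => 0, fun _ => true, fun v _ hv => ?_⟩
      have : dep v ≤ ∑ v, dep v := Finset.single_le_sum (fun _ _ => Nat.zero_le _)
        (Finset.mem_univ v)
      omega
    | succ n ih =>
      intro t ht
      exact step h1 par dep S r hR t (ih (t + 1) (by omega))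
  obtain ⟨a, o, hao⟩ := hall _ 0 (by rw [zero_add])
  exact ⟨a, o, fun v hv => hao v hv (Nat.zero_le _)⟩

end Pool.Agent.TLT
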