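import Pool.Agent.AntiSid.Tree

set_option autoImplicit false

/-!
# Trees with long threads in tournaments (MP_d27362_co): definitions
-/

namespace Pool.Agent.TLT

open Finset Polynomial
open scoped BigOperators

noncomputable section

/-- average -/
def av {W : Type} [Fintype W] (f : W → ℝ) : ℝ := (∑ x, f x) / Fintype.card W

/-- A tournament kernel, normalised to have mean one. -/
structure Krn {W : Type} (K : W → W → ℝ) : Prop where
  nonneg : ∀ x y, 0 ≤ K x y
  add : ∀ x y, K x y + K y x = 2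

/-- The skew part `S = K - 1`, as an operator. -/
def Sop {W : Type} [Fintype W] (K : W → W → ℝ) : (W → ℝ) →ₗ[ℝ] (W → ℝ) where
  toFun f x := av fun y => (K x y - 1) * f y
  map_add' f g := by
    funext x
    simp only [av, Pi.add_apply, mul_add, Finset.sum_add_distrib, add_div]
  map_smul' c f := by
    funext x
    simp only [av, Pi.smul_apply, smul_eq_mul, RingHom.id_apply]
    rw [← mul_div_assoc, Finset.mul_sum]
    congr 1
    exact Finset.sum_congr rfl fun y _ => by ring

/-- `δ = S 1` -/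
def dl {W : Type} [Fintype W] (K : W → W → ℝ) : W → ℝ := Sop K fun _ => 1

/-- `x = ‖δ‖²` -/
def xx {W : Type} [Fintype W] (K : W → W → ℝ) : ℝ := av fun x => dl K x ^ 2

/-- The message along an edge: `K f` (edge directed away from the root, `b = true`) or `Kᵀ f`. -/
def Kd {W : Type} [Fintype W] (K : W → W → ℝ) (b : Bool) (f : W → ℝ) : W → ℝ :=
  fun x => av fun y => (if b then K x y else K y x) * f y

/-- sign -/
def sg (b : Bool) : ℝ := if b then 1 else -1

/-- `a(S) δ` -/
def pv {W : Type} [Fintype W] (K : W → W → ℝ) (a : ℝ[X]) : W → ℝ := aeval (Sop K) a (dl K)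

/-- the weighted square norm of a polynomial -/
def nA (a : ℝ[X]) : ℝ := ∑ i ∈ a.support, a.coeff i ^ 2 * (3 / 4 : ℝ) ^ i

/-- `1 + X + … + X ^ (j - 1)` -/
def gm (j : ℕ) : ℝ[X] := ∑ i ∈ range j, X ^ i

/-- the error budget -/
def PP {W : Type} [Fintype W] (K : W → W → ℝ) (a : ℝ[X]) (ν : ℝ) : ℝ := (1 + nA a) * xx K + ν

/-- The invariant at a vertex that does not have exactly one child. -/
def Inv {W : Type} [Fintype W] (K : W → W → ℝ) (F : W → ℝ) (a : ℝ[X]) : Prop :=
  (∀ y, 0 ≤ F y) ∧ ∃ (M : ℝ) (n : W → ℝ), 0 < M ∧ (∀ y, 0 ≤ n y) ∧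
    (∀ y, F y ≤ M * (1 + pv K a y + n y)) ∧
    Real.log M + 500 * PP K a (av n) ≤ 8500 * xx K

/-- The state at the top of a long thread. -/
def Top {W : Type} [Fintype W] (K : W → W → ℝ) (F : W → ℝ) (a : ℝ[X]) : Prop :=
  ∃ (j : ℕ) (Fb : W → ℝ) (ab : ℝ[X]), 1000000 ≤ j + 1 ∧ Inv K Fb ab ∧ F = (Kd K true)^[j] Fb ∧
    a = gm j + X ^ j * ab

open Classical in
/-- Balanced signs at a vertex with set of children `s`; `i₀` is the unpaired child. -/
def Bal {V : Type} (s : Finset V) (a : V → ℝ[X]) (ε : V → Bool) (i₀ : Option V) : Prop :=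
  (∑ i ∈ s.filter (fun i => some i ≠ i₀), sg (ε i)) = 0 ∧
  nA (∑ i ∈ s.filter (fun i => some i ≠ i₀), sg (ε i) • (1 + X * a i)) ≤
    2 * ∑ i ∈ s, nA (1 + X * a i - gm 1000000)

/-- A rooted alive set. -/
structure Rt {V : Type} (par : V → V) (dep : V → ℕ) (S : Finset V) (r : V) : Prop where
  hr : r ∈ S
  hpar : ∀ v ∈ S, v ≠ r → par v ∈ S
  hdep : ∀ v ∈ S, v ≠ r → dep (par v) < dep v

/-- The orientation `o` of `S` (`o v = true`: arc from `v` to `par v`) is good. -/
def Good {V : Type} [Fintype V] [DecidableEq V] (par : V → V) (S : Finset V) (r : V)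
    (o : V → Bool) : Prop :=
  ∀ (W : Type) [Fintype W] [DecidableEq W] (G : W → W → Prop), Nonempty W → AntiSid.Tour G →
    ∑ f : V → W, AntiSid.FS G par o S r f ≤
      (Fintype.card W : ℝ) ^ (Fintype.card V) * (1 / 2) ^ (S.card - 1)

end

end Pool.Agent.TLT
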