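import Pool.Agent.TLT.Defs

set_option autoImplicit false

/-!
# Trees with long threads in tournaments (MP_d27362_co): exact targets

Proofs: `Blueprint.lean.txt`.
-/

namespace Pool.Agent.TLT

open Finset Polynomial
open scoped BigOperators

noncomputable section

/-! ## Block 1: the operator `S` -/

/-- BAS: elementary facts. -/
def T_BAS : Prop := ∀ (W : Type) [Fintype W] [Nonempty W] (K : W → W → ℝ), Krn K →
  (∀ (f : W → ℝ) (x : W), |Sop K f x| ≤ av fun y => |f y|) ∧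
  (∀ f g : W → ℝ, (av fun x => Sop K f x * g x) = - av fun x => f x * Sop K g x) ∧
  av (dl K) = 0 ∧
  (∀ (f : W → ℝ) (x : W), Kd K true f x = av f + Sop K f x) ∧
  (∀ (f : W → ℝ) (x : W), Kd K false f x = av f - Sop K f x) ∧
  (∀ (b : Bool) (f g : W → ℝ), (∀ y, f y ≤ g y) → ∀ x, Kd K b f x ≤ Kd K b g x) ∧
  (∀ (b : Bool) (f : W → ℝ) (x : W), Kd K b f x ≤ 2 * av fun y => |f y|) ∧
  (∀ (f : W → ℝ), (av fun y => |f y|) ^ 2 ≤ av fun y => f y ^ 2) ∧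
  (∀ f g : W → ℝ, (av fun y => f y * g y) ^ 2 ≤ (av fun y => f y ^ 2) * av fun y => g y ^ 2)

/-- NRM (from T_BAS): the norm of `S` is at most `1 / √2`. -/
def T_NRM : Prop := ∀ (W : Type) [Fintype W] [Nonempty W] (K : W → W → ℝ), Krn K →
  ∀ f : W → ℝ, (av fun x => Sop K f x ^ 2) ≤ 1 / 2 * av fun x => f x ^ 2

/-- TRI: the square norm of `δ` is at most `1 / 3`. -/
def T_TRI : Prop := ∀ (W : Type) [Fintype W] [Nonempty W] (K : W → W → ℝ), Krn K → xx K ≤ 1 / 3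

/-- HH (from T_BAS, T_NRM): the fixed point `h = (1 - S)⁻¹ δ`. -/
def T_HH : Prop := ∀ (W : Type) [Fintype W] [Nonempty W] (K : W → W → ℝ), Krn K →
  ∃ h : W → ℝ, (∀ x, h x = dl K x + Sop K h x) ∧ (av fun x => h x ^ 2) ≤ xx K ∧
    (av fun x => dl K x * h x) = (av fun x => h x ^ 2) ∧
    2 / 3 * xx K ≤ av fun x => h x ^ 2

/-- DECAY (from T_BAS, T_TRI): exponential decay of the number of directed walks. -/
def T_DECAY : Prop := ∀ (W : Type) [Fintype W] [Nonempty W] (K : W → W → ℝ), Krn K → ∀ j : ℕ,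
  (av ((Kd K true)^[j] fun _ => 1)) ^ 2 ≤ 4 / 3 * (1 - xx K / 6) ^ j

/-! ## Block 2: polynomials -/

/-- NA: the weighted square norm. -/
def T_NA : Prop := (∀ a : ℝ[X], 0 ≤ nA a) ∧ (∀ (a : ℝ[X]) (i : ℕ), a.coeff i ^ 2 * (3 / 4 : ℝ) ^ i ≤ nA a) ∧
  (∀ (a : ℝ[X]) (n : ℕ), a.natDegree < n → nA a = ∑ i ∈ range n, a.coeff i ^ 2 * (3 / 4 : ℝ) ^ i) ∧
  (∀ a b : ℝ[X], nA (a + b) ≤ 2 * nA a + 2 * nA b) ∧
  (∀ a b : ℝ[X], nA (a + b) + nA (a - b) = 2 * nA a + 2 * nA b) ∧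
  (∀ a : ℝ[X], nA (-a) = nA a) ∧
  (∀ (b : Bool) (a : ℝ[X]), nA (sg b • a) = nA a) ∧ nA 0 = 0 ∧
  (∀ (k : ℕ) (a : ℝ[X]), nA (X ^ k * a) = (3 / 4 : ℝ) ^ k * nA a) ∧
  (∀ (j : ℕ) (a : ℝ[X]), nA (gm j + X ^ j * a) ≤ 4 + (3 / 4 : ℝ) ^ j * nA a) ∧
  (∀ (L j : ℕ) (a : ℝ[X]), L ≤ j →
    nA (gm j + X ^ j * a - gm L) ≤ (3 / 4 : ℝ) ^ L * (4 + nA a)) ∧
  (∀ (j : ℕ) (a : ℝ[X]), 1 + X * (gm j + X ^ j * a) = gm (j + 1) + X ^ (j + 1) * a)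

/-- SIGN (from T_NA): balanced signs. -/
def T_SIGN : Prop := ∀ (V : Type) [DecidableEq V] (s : Finset V) (p : V → ℝ[X]) (g : ℝ[X]),
  ∃ (ε : V → Bool) (i₀ : Option V),
    (∑ i ∈ s.filter (fun i => some i ≠ i₀), sg (ε i)) = 0 ∧
    nA (∑ i ∈ s.filter (fun i => some i ≠ i₀), sg (ε i) • p i) ≤ 2 * ∑ i ∈ s, nA (p i - g)

/-- PV (from T_BAS, T_NRM): norms of the functions `a(S) δ`. -/
def T_PV : Prop := ∀ (W : Type) [Fintype W] [Nonempty W] (K : W → W → ℝ), Krn K → ∀ a : ℝ[X],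
  (av fun y => pv K a y ^ 2) ≤ 3 * nA a * xx K ∧ (av (pv K a)) ^ 2 ≤ 6 * nA a * xx K ^ 2 ∧
  (a.coeff 0 = 0 → ∀ y, pv K a y ^ 2 ≤ 4 * nA a * xx K)

/-- PVL: linearity. -/
def T_PVL : Prop := ∀ (W : Type) [Fintype W] (K : W → W → ℝ),
  (∀ (a : ℝ[X]) (y : W), pv K (1 + X * a) y = dl K y + Sop K (pv K a) y) ∧
  (∀ (V : Type) (s : Finset V) (c : V → ℝ) (a : V → ℝ[X]) (y : W),
    pv K (∑ i ∈ s, c i • a i) y = ∑ i ∈ s, c i * pv K (a i) y) ∧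
  (∀ (h : W → ℝ), (∀ x, h x = dl K x + Sop K h x) → ∀ (j : ℕ) (a : ℝ[X]) (y : W),
    pv K (gm j + X ^ j * a) y = h y + ((Sop K)^[j] fun z => pv K a z - h z) y)

/-! ## Block 3: analysis near regular tournaments -/

/-- GEO (from T_BAS, T_NRM, T_HH, T_PV, T_PVL): the linear part along a thread. -/
def T_GEO : Prop := ∀ (W : Type) [Fintype W] [Nonempty W] (K : W → W → ℝ), Krn K →
  ∀ (a : ℝ[X]), ∃ E : ℝ, 0 ≤ E ∧ E ^ 2 ≤ (6 * nA a + 2) * xx K ∧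
    (∀ j : ℕ, Real.sqrt (av fun y => pv K (gm j + X ^ j * a) y ^ 2) ≤
      Real.sqrt (xx K) + Real.sqrt (1 / 2) ^ j * E) ∧
    (∀ j : ℕ, (av fun y => pv K (gm j + X ^ j * a) y ^ 2) ≤
      2 * xx K + 12 * (3 / 4 : ℝ) ^ j * PP K a 0) ∧
    (∀ j : ℕ, av (pv K (gm (j + 1) + X ^ (j + 1) * a)) ≤
      - (2 / 3) * xx K + Real.sqrt (xx K) * (Real.sqrt (1 / 2) ^ j * E)) ∧
    (∀ j : ℕ, |av (pv K (gm (j + 1) + X ^ (j + 1) * a))| ≤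
      xx K + Real.sqrt (xx K) * (Real.sqrt (1 / 2) ^ j * E))

/-- ONE (from T_BAS, T_PVL): one step of a thread. -/
def T_ONE : Prop := ∀ (W : Type) [Fintype W] [Nonempty W] (K : W → W → ℝ), Krn K →
  ∀ (f w : W → ℝ) (a : ℝ[X]) (M : ℝ), 0 < M → (∀ y, f y ≤ M * (1 + pv K a y + w y)) →
  ∃ (M' : ℝ) (w' : W → ℝ), 0 < M' ∧ (∀ y, Kd K true f y ≤ M' * (1 + pv K (1 + X * a) y + w' y)) ∧
    Real.log M' ≤ Real.log M + (av (pv K a) + 2 * (av fun y => |w y|)) + 2 * (av (pv K a)) ^ 2 ∧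
    (av fun y => |w' y|) ≤ min 1 (2 * |av (pv K a) + 2 * (av fun y => |w y|)|) *
      Real.sqrt (av fun y => pv K (1 + X * a) y ^ 2)

/-- REC: the recursion for the errors (real numbers only). -/
def T_REC : Prop := ∀ (d E ν I₀ : ℝ) (I ω : ℕ → ℝ), 0 ≤ d → d ≤ 1 / 100 → 0 ≤ E → 0 ≤ ν →
  I 0 = I₀ → ω 0 = ν → (∀ j, 0 ≤ ω j) →
  (∀ j, I (j + 1) ≤ - (2 / 3) * d ^ 2 + d * (Real.sqrt (1 / 2) ^ j * E)) →
  (∀ j, |I (j + 1)| ≤ d ^ 2 + d * (Real.sqrt (1 / 2) ^ j * E)) →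
  (∀ j, ω (j + 1) ≤ min 1 (2 * |I j + 2 * ω j|) * (d + Real.sqrt (1 / 2) ^ (j + 1) * E)) →
  (∀ j, ω (j + 1) ≤ 2 * (1 / 2 : ℝ) ^ (j + 1) * (|I₀| + 2 * ν + d ^ 2 + 13 * E ^ 2) + 6 * d ^ 3) ∧
  ∀ J : ℕ, 1 ≤ J → ∑ j ∈ range J, (I j + 2 * ω j + 2 * I j ^ 2) ≤
    - (J / 2) * d ^ 2 + 10 * ν + 5 * |I₀| + 2 * I₀ ^ 2 + 7 * d ^ 2 + 55 * E ^ 2

/-- THR (from T_BAS, T_NA, T_PV, T_GEO, T_ONE, T_REC): a thread. -/
def T_THR : Prop := ∀ (W : Type) [Fintype W] [Nonempty W] (K : W → W → ℝ), Krn K →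
  xx K ≤ 1 / 10000 → ∀ (f n : W → ℝ) (a : ℝ[X]) (M : ℝ), 0 < M → (∀ y, 0 ≤ n y) →
  (∀ y, f y ≤ M * (1 + pv K a y + n y)) → ∀ J : ℕ, 1 ≤ J → ∃ (M' : ℝ) (w : W → ℝ), 0 < M' ∧
    (∀ y, ((Kd K true)^[J] f) y ≤ M' * (1 + pv K (gm J + X ^ J * a) y + w y)) ∧
    Real.log M' ≤ Real.log M - J / 2 * xx K + 400 * PP K a (av n) ∧
    |av (pv K (gm J + X ^ J * a))| + 2 * (av fun y => |w y|) ≤
      2 * xx K + 400 * (3 / 4 : ℝ) ^ J * PP K a (av n)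

/-- the size of the constant terms at a child -/
def th {W : Type} [Fintype W] (g w : W → ℝ) : ℝ := |av g| + 2 * av fun y => |w y|

open Classical in
/-- BR (from T_BAS): a product of messages. -/
def T_BR : Prop := ∀ (W : Type) [Fintype W] [Nonempty W] (K : W → W → ℝ), Krn K →
  ∀ (V : Type) (s : Finset V) (u g w : V → W → ℝ) (M : V → ℝ) (ε : V → Bool) (i₀ : Option V)
    (ρ : ℝ), (∀ i ∈ s, 0 < M i) → (∀ i ∈ s, ∀ y, 0 ≤ u i y) →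
  (∀ i ∈ s, ∀ y, u i y ≤ M i * (1 + g i y + w i y)) → 0 ≤ ρ →
  (∀ y, |∑ i ∈ s.filter (fun i => some i ≠ i₀), sg (ε i) * (dl K y + Sop K (g i) y)| ≤ ρ) →
  ∃ n : W → ℝ, (∀ y, 0 ≤ n y) ∧
    (∀ y, ∏ i ∈ s, Kd K (ε i) (u i) y ≤
      ((∏ i ∈ s, M i) * Real.exp (2 * ∑ i ∈ s, th (g i) (w i) + ρ ^ 2)) *
        (1 + ∑ i ∈ s, sg (ε i) * (dl K y + Sop K (g i) y) + n y)) ∧
    av n ≤ 3 * ρ ^ 2 + ∑ i ∈ s.filter (fun i => some i = i₀),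
      (2 * th (g i) (w i) + 2 * av fun y => (dl K y + Sop K (g i) y) ^ 2)

/-- STEP (from T_BAS, T_NA, T_PV, T_PVL, T_GEO, T_THR, T_BR): the invariant at a vertex. -/
def T_STEP : Prop := ∀ (W : Type) [Fintype W] [Nonempty W] (K : W → W → ℝ), Krn K →
  xx K ≤ 1 / 10000 → ∀ (V : Type) (s : Finset V) (F : V → W → ℝ) (a : V → ℝ[X]) (ε : V → Bool)
    (i₀ : Option V), (∀ i ∈ s, Top K (F i) (a i)) → Bal s a ε i₀ →
  Inv K (fun y => ∏ i ∈ s, Kd K (ε i) (F i) y) (∑ i ∈ s, sg (ε i) • (1 + X * a i))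

/-- ROOT (from T_THR): the end of the argument near regular tournaments. -/
def T_ROOT : Prop := ∀ (W : Type) [Fintype W] [Nonempty W] (K : W → W → ℝ), Krn K →
  xx K ≤ 1 / 10000 → ∀ (F : W → ℝ) (a : ℝ[X]), Inv K F a → ∀ J : ℕ, 1000000 ≤ J →
  av ((Kd K true)^[J] F) ≤ 1

/-- FAR (from T_BAS, T_DECAY): irregular tournaments. -/
def T_FAR : Prop := ∀ (W : Type) [Fintype W] [Nonempty W] (K : W → W → ℝ), Krn K →
  1 / 10000 < xx K → ∀ F : W → ℝ, (∀ y, 0 ≤ F y ∧ F y ≤ 1) → ∀ j : ℕ, 1000000 ≤ j + 1 →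
  av ((Kd K true)^[j] F) ≤ 1 ∧ ∀ (b : Bool) (y : W),
    0 ≤ Kd K b ((Kd K true)^[j] F) y ∧ Kd K b ((Kd K true)^[j] F) y ≤ 1

/-! ## Block 4: trees -/

/-- the kernel of a tournament -/
def KG {W : Type} [DecidableEq W] (G : W → W → Prop) (x y : W) : ℝ :=
  2 * AntiSid.ind G true x y + if x = y then 1 else 0

/-- KER: it is a kernel. -/
def T_KER : Prop := ∀ (W : Type) [Fintype W] [DecidableEq W] (G : W → W → Prop),
  AntiSid.Tour G → Krn (KG G)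

/-- ELIM: the recursion for the number of homomorphisms. -/
def T_ELIM : Prop := ∀ (V : Type) [Fintype V] [DecidableEq V] (par : V → V) (dep : V → ℕ)
  (S : Finset V) (r : V), Rt par dep S r → ∀ (W : Type) [Fintype W] [DecidableEq W] [Nonempty W]
  (G : W → W → Prop) (o : V → Bool), AntiSid.Tour G → ∃ F : V → W → ℝ,
    (∀ v ∈ S, F v = fun x => ∏ c ∈ AntiSid.ch par S r v, Kd (KG G) (o c) (F c) x) ∧
    ∑ f : V → W, AntiSid.FS G par (fun c => !o c) S r f ≤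
      (Fintype.card W : ℝ) ^ (Fintype.card V) * (1 / 2) ^ (S.card - 1) * av (F r)

/-- CHOICE (from T_SIGN): polynomials and orientation. -/
def T_CHOICE : Prop := ∀ (V : Type) [Fintype V] [DecidableEq V] (par : V → V) (dep : V → ℕ)
  (S : Finset V) (r : V), Rt par dep S r → ∃ (a : V → ℝ[X]) (o : V → Bool), ∀ v ∈ S,
    a v = ∑ c ∈ AntiSid.ch par S r v, sg (o c) • (1 + X * a c) ∧
    ((AntiSid.ch par S r v).card = 1 → ∀ c ∈ AntiSid.ch par S r v, o c = true) ∧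
    ((AntiSid.ch par S r v).card ≠ 1 → ∃ i₀, Bal (AntiSid.ch par S r v) a o i₀)

/-- DESC: the description of a vertex of a thread. -/
def T_DESC : Prop := ∀ (V : Type) [Fintype V] [DecidableEq V] (par : V → V) (dep : V → ℕ)
  (S : Finset V) (r : V), Rt par dep S r → ∀ (W : Type) [Fintype W] (K : W → W → ℝ)
  (F : V → W → ℝ) (a : V → ℝ[X]) (o : V → Bool),
    (∀ v ∈ S, F v = fun x => ∏ c ∈ AntiSid.ch par S r v, Kd K (o c) (F c) x) →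
    (∀ v ∈ S, a v = ∑ c ∈ AntiSid.ch par S r v, sg (o c) • (1 + X * a c)) →
    (∀ v ∈ S, (AntiSid.ch par S r v).card = 1 → ∀ c ∈ AntiSid.ch par S r v, o c = true) →
    ∀ v ∈ S, v ≠ r → ∃ (j : ℕ) (b : V), b ∈ S ∧ b ≠ r ∧ (AntiSid.ch par S r b).card ≠ 1 ∧
      par^[j] b = v ∧ F v = (Kd K true)^[j] (F b) ∧ a v = gm j + X ^ j * a b ∧
      dep v + j ≤ dep b

/-- CORE (from T_KER, T_ELIM, T_CHOICE, T_DESC, T_STEP, T_ROOT, T_FAR): trees with long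
threads. -/
def T_CORE : Prop := ∀ (V : Type) [Fintype V] [DecidableEq V] (par : V → V) (dep : V → ℕ)
  (S : Finset V) (r : V), Rt par dep S r → (S = {r} ∨ (AntiSid.ch par S r r).card = 1) →
  (∀ b ∈ S, b ≠ r → (AntiSid.ch par S r b).card ≠ 1 → ∀ i, 1 ≤ i → i < 1000000 →
    par^[i] b ≠ r ∧ (AntiSid.ch par S r (par^[i] b)).card = 1) → ∃ o : V → Bool, Good par S r o

/-- RED: removing pairs of sibling leaves outside the core. -/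
def T_RED : Prop := ∀ (V : Type) [Fintype V] [DecidableEq V] (par : V → V) (dep : V → ℕ)
  (S C : Finset V) (r : V), Rt par dep S r → (∀ v ∈ S, v ≠ r → dep v = dep (par v) + 1) →
  C ⊆ S → r ∈ C → (∀ v ∈ C, v ≠ r → par v ∈ C) →
  (∀ v ∈ S, Even ((AntiSid.ch par S r v).filter fun c => c ∉ C).card) →
  ∀ o : V → Bool, Good par C r o → ∃ o' : V → Bool, (∀ v ∈ C, o' v = o v) ∧ Good par S r o'

/-- FIN (from T_CORE, T_RED): the theorem. -/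
def T_FIN : Prop := ∀ (V : Type) [Fintype V] [DecidableEq V] (T : SimpleGraph V), T.IsTree →
  ∀ C : Set V, (T.induce C).Connected → (∀ v, v ∉ C → Odd (T.neighborSet v).ncard) →
  (∀ v ∈ C, Even {u | T.Adj v u ∧ u ∉ C}.ncard) →
  (∀ u ∈ C, ∀ v ∈ C, u ≠ v → {w | T.Adj u w ∧ w ∈ C}.ncard ≠ 2 →
    {w | T.Adj v w ∧ w ∈ C}.ncard ≠ 2 → 1000000 ≤ T.dist u v) →
  ∃ D : V → V → Prop,
    (∀ u v, T.Adj u v → (D u v ∨ D v u)) ∧
    (∀ u v, D u v → (T.Adj u v ∧ ¬ D v u)) ∧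
    ∀ (W : Type) [Fintype W] (G : W → W → Prop), Nonempty W → AntiSid.Tour G →
      ({f : V → W | ∀ u v, D u v → G (f u) (f v)}.ncard : ℝ) ≤
        (Fintype.card W : ℝ) ^ (Fintype.card V) * (1 / 2) ^ (T.edgeSet.ncard)

end

end Pool.Agent.TLT
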